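import Pool.Agent.Fcl2.Targets
import Pool.Agent.Formn.AbSylMain

/-!
# The abelian part
-/

set_option autoImplicit false
set_option linter.style.haveILetI false

namespace Pool.Agent.Fcl2

open Pool.Agent.Formn Pool.Agent.Formn.Formation

namespace AB_

theorem eq_one_of {G : Type*} [Group G] {p k n : ℕ} (hp : p.Prime) (hn : ¬ p ∣ n) {x : G}
    (h1 : x ^ p ^ k = 1) (h2 : x ^ n = 1) : x = 1 := by
  have h3 : Nat.Coprime (p ^ k) n := Nat.Coprime.pow_left k ((Nat.Prime.coprime_iff_not_dvd hp).2 hn)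
  have h4 : orderOf x ∣ Nat.gcd (p ^ k) n :=
    Nat.dvd_gcd (orderOf_dvd_of_pow_eq_one h1) (orderOf_dvd_of_pow_eq_one h2)
  rw [h3] at h4
  exact orderOf_eq_one_iff.1 (Nat.dvd_one.1 h4)

/-- The formation of the groups with abelian Sylow subgroups. -/
def AbS : Formation where
  mem G _ _ := ∀ p : ℕ, p.Prime → ∀ S : Subgroup G, IsPGroup p S → ∀ x ∈ S, ∀ y ∈ S,
    x * y = y * x
  iso := by
    intro G H _ _ _ _ e hG p hp S hS x hx y hy
    have h1 : IsPGroup p (S.comap e.toMonoidHom) :=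
      hS.comap_of_injective e.toMonoidHom e.injective
    have h2 := hG p hp _ h1 (e.symm x) (by simpa using hx) (e.symm y) (by simpa using hy)
    have h3 := congrArg e h2
    simpa using h3
  quot := by
    intro G _ _ N _ hG p hp S hS x hx y hy
    haveI : Fact p.Prime := ⟨hp⟩
    obtain ⟨P, hP⟩ := hS.exists_le_sylow
    obtain ⟨P', rfl⟩ := Sylow.mapSurjective_surjective (QuotientGroup.mk'_surjective N) p P
    obtain ⟨a, ha, rfl⟩ : ∃ a ∈ P', QuotientGroup.mk' N a = x := hP hx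
    obtain ⟨b, hb, rfl⟩ : ∃ a ∈ P', QuotientGroup.mk' N a = y := hP hy
    rw [← map_mul, ← map_mul, hG p hp P' P'.isPGroup' a ha b hb]
  sub := by
    intro G _ _ N₁ N₂ _ _ h1 h2 p hp S hS x hx y hy
    let β₁ : G ⧸ (N₁ ⊓ N₂) →* G ⧸ N₁ :=
      QuotientGroup.map (N₁ ⊓ N₂) N₁ (MonoidHom.id G) inf_le_left
    let β₂ : G ⧸ (N₁ ⊓ N₂) →* G ⧸ N₂ :=
      QuotientGroup.map (N₁ ⊓ N₂) N₂ (MonoidHom.id G) inf_le_right
    have e1 := h1 p hp (S.map β₁) (hS.map β₁) (β₁ x) ⟨x, hx, rfl⟩ (β₁ y) ⟨y, hy, rfl⟩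
    have e2 := h2 p hp (S.map β₂) (hS.map β₂) (β₂ x) ⟨x, hx, rfl⟩ (β₂ y) ⟨y, hy, rfl⟩
    clear hx hy
    induction x using QuotientGroup.induction_on with
    | H a =>
      induction y using QuotientGroup.induction_on with
      | H b =>
        have e1' : ((a * b : G) : G ⧸ N₁) = ((b * a : G) : G ⧸ N₁) := e1
        have e2' : ((a * b : G) : G ⧸ N₂) = ((b * a : G) : G ⧸ N₂) := e2
        change ((a * b : G) : G ⧸ (N₁ ⊓ N₂)) = ((b * a : G) : G ⧸ (N₁ ⊓ N₂))
        rw [QuotientGroup.eq] at e1' e2' ⊢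
        exact ⟨e1', e2'⟩

theorem mem_E {H : Type} [CommGroup H] [Finite H] {M : Type} [Group M] [Finite M]
    [MulDistribMulAction H M] (hM : ∀ x y : M, x * y = y * x)
    (hc : Nat.Coprime (Nat.card M) (Nat.card H)) : AbS.mem (E H M) := by
  intro p hp S hS x hx y hy
  have hpg : ∀ z ∈ S, ∃ k : ℕ, z ^ p ^ k = 1 := by
    intro z hz
    obtain ⟨k, hk⟩ := hS ⟨z, hz⟩
    exact ⟨k, congrArg Subtype.val hk⟩
  by_cases hpM : p ∣ Nat.card M
  · have hpH : ¬ p ∣ Nat.card H := by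
      intro h
      have := Nat.dvd_gcd hpM h
      rw [hc] at this
      exact hp.one_lt.ne' (Nat.dvd_one.1 this)
    have hr : ∀ z ∈ S, z.right = 1 := by
      intro z hz
      obtain ⟨k, hk⟩ := hpg z hz
      refine eq_one_of hp hpH (k := k) ?_ pow_card_eq_one'
      have := congrArg SemidirectProduct.rightHom hk
      rwa [map_pow, map_one] at this
    have hx' : x = SemidirectProduct.inl x.left := by
      ext
      · rfl
      · exact hr x hx
    have hy' : y = SemidirectProduct.inl y.left := by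
      ext
      · rfl
      · exact hr y hy
    rw [hx', hy', ← map_mul, ← map_mul, hM]
  · have hz : x * y * x⁻¹ * y⁻¹ ∈ S := S.mul_mem (S.mul_mem (S.mul_mem hx hy) (S.inv_mem hx))
      (S.inv_mem hy)
    obtain ⟨k, hk⟩ := hpg _ hz
    have hr : (x * y * x⁻¹ * y⁻¹).right = 1 := by
      have h1 : (x * y * x⁻¹ * y⁻¹).right = x.right * y.right * x.right⁻¹ * y.right⁻¹ := rfl
      rw [h1, mul_comm x.right y.right]
      group
    have hz' : x * y * x⁻¹ * y⁻¹ = SemidirectProduct.inl (x * y * x⁻¹ * y⁻¹).left := by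
      ext
      · rfl
      · exact hr
    have h1 : (x * y * x⁻¹ * y⁻¹).left = 1 := by
      refine eq_one_of hp hpM (k := k) ?_ pow_card_eq_one'
      rw [hz', ← map_pow] at hk
      exact SemidirectProduct.inl_injective (hk.trans (map_one _).symm)
    rw [h1, map_one] at hz'
    rw [mul_inv_eq_one, mul_inv_eq_iff_eq_mul] at hz'
    exact hz'

end AB_

theorem p_AB : T_AB := by
  intro H _ _ M _ _ _ Q _ _ _ q X hM hc hq hqs hker hX
  -- distributivity below `gen (E H M)`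
  have hF : ∀ (G : Type) [Group G] [Finite G], (gen (E H M)).mem G → ∀ p : ℕ, p.Prime →
      p ∣ Nat.card (frattini G) → ∀ P : Sylow p G, ∀ x ∈ P, ∀ y ∈ P, x * y = y * x := by
    intro G _ _ hG p hp _ P
    exact (gen_le (AB_.mem_E hM hc)) G hG p hp P P.isPGroup'
  have hdist := (crit_iff (gen (E H M))).2 (AbSyl.crit_of (gen (E H M)) hF)
  -- the quotients
  let φ : ∀ i, E H M →* E H (Q i) := fun i => SemidirectProduct.map (q i) (MonoidHom.id H)
    (by
      intro h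
      ext x
      exact hqs i h x)
  have hφ : ∀ i, Function.Surjective (φ i) := by
    intro i y
    obtain ⟨x, hx⟩ := hq i y.left
    refine ⟨⟨x, y.right⟩, ?_⟩
    ext
    · exact hx
    · rfl
  have hφk : ∀ i j, i ≠ j → (φ i).ker ⊓ (φ j).ker = ⊥ := by
    intro i j hij
    rw [eq_bot_iff]
    rintro x ⟨h1, h2⟩
    have h1' : φ i x = 1 := h1
    have h2' : φ j x = 1 := h2
    have a1 : q i x.left = 1 := congrArg SemidirectProduct.left h1'
    have a2 : q j x.left = 1 := congrArg SemidirectProduct.left h2'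
    have a3 : x.right = 1 := congrArg SemidirectProduct.right h1'
    rw [Subgroup.mem_bot]
    ext
    · exact hker i j hij x.left a1 a2
    · exact a3
  have hle : ∀ i, gen (E H (Q i)) ≤ gen (E H M) := fun i =>
    gen_le (of_surj _ (φ i) (hφ i) (mem_gen _))
  have hsup : ∀ i j, i ≠ j → gen (E H M) ≤ gen (E H (Q i)) ⊔ gen (E H (Q j)) := by
    intro i j hij
    exact gen_le (mem_sup_of (MonoidHom.id _) Function.surjective_id (hφk i j hij)
      ((q_hom (φ i) (hφ i)).2 (mem_gen _)) ((q_hom (φ j) (hφ j)).2 (mem_gen _)))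
  have hYX : ∀ i, gen (E H (Q i)) ≤ X i := fun i => gen_le (hX i)
  have hT : (gen (E H (Q 0)) ⊓ gen (E H (Q 1))) ⊔ (gen (E H (Q 0)) ⊓ gen (E H (Q 2))) ⊔
      (gen (E H (Q 1)) ⊓ gen (E H (Q 2))) ≤ (X 0 ⊓ X 1) ⊔ (X 0 ⊓ X 2) ⊔ (X 1 ⊓ X 2) :=
    sup_le_sup (sup_le_sup (inf_le_inf (hYX 0) (hYX 1)) (inf_le_inf (hYX 0) (hYX 2)))
      (inf_le_inf (hYX 1) (hYX 2))
  have h0 : gen (E H (Q 0)) ≤ (gen (E H (Q 0)) ⊓ gen (E H (Q 1))) ⊔
      (gen (E H (Q 0)) ⊓ gen (E H (Q 2))) := by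
    rw [← hdist _ _ _ (hle 0) (hle 1) (hle 2)]
    exact le_inf le_rfl ((hle 0).trans (hsup 1 2 (by decide)))
  have h1 : gen (E H (Q 1)) ≤ (gen (E H (Q 1)) ⊓ gen (E H (Q 0))) ⊔
      (gen (E H (Q 1)) ⊓ gen (E H (Q 2))) := by
    rw [← hdist _ _ _ (hle 1) (hle 0) (hle 2)]
    exact le_inf le_rfl ((hle 1).trans (hsup 0 2 (by decide)))
  have h2 : gen (E H M) ≤ (gen (E H (Q 0)) ⊓ gen (E H (Q 1))) ⊔
      (gen (E H (Q 0)) ⊓ gen (E H (Q 2))) ⊔ (gen (E H (Q 1)) ⊓ gen (E H (Q 2))) := by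
    refine (hsup 0 1 (by decide)).trans (sup_le (h0.trans le_sup_left) (h1.trans ?_))
    rw [inf_comm (gen (E H (Q 1))) (gen (E H (Q 0)))]
    exact sup_le (le_sup_left.trans le_sup_left) le_sup_right
  exact hT _ (h2 _ (mem_gen _))

end Pool.Agent.Fcl2
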