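import Pool.Agent.Fcl2.Targets

/-!
# The central series of length two
-/

set_option autoImplicit false
set_option linter.style.haveILetI false

namespace Pool.Agent.Fcl2

namespace FAC_

/-- The action on the additive version of an `H`-module. -/
@[reducible]
def dact (H A : Type) [Group H] [CommGroup A] [MulDistribMulAction H A] :
    DistribMulAction H (Additive A) where
  smul h a := Additive.ofMul (h • a.toMul)
  one_smul a := congrArg Additive.ofMul (one_smul H a.toMul)
  mul_smul g h a := congrArg Additive.ofMul (mul_smul g h a.toMul)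
  smul_zero h := congrArg Additive.ofMul (smul_one h)
  smul_add h a b := congrArg Additive.ofMul (smul_mul' h a.toMul b.toMul)

variable {H P A B : Type} [Group H] [Group P] [MulDistribMulAction H P] [CommGroup A]
  [MulDistribMulAction H A] [CommGroup B] [MulDistribMulAction H B]

theorem comm_wd {π : P →* A} (hker : ∀ x, π x = 1 → ∀ y, x * y = y * x) {x x' y y' : P}
    (hx : π x = π x') (hy : π y = π y') : x * y * x⁻¹ * y⁻¹ = x' * y' * x'⁻¹ * y'⁻¹ := by
  have h1 : π (x'⁻¹ * x) = 1 := by rw [map_mul, map_inv, hx, inv_mul_cancel]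
  have h2 : π (y'⁻¹ * y) = 1 := by rw [map_mul, map_inv, hy, inv_mul_cancel]
  obtain ⟨z, hz⟩ : ∃ z, z = x'⁻¹ * x := ⟨_, rfl⟩
  obtain ⟨w, hw⟩ : ∃ w, w = y'⁻¹ * y := ⟨_, rfl⟩
  have hx' : x = x' * z := by rw [hz]; group
  have hy' : y = y' * w := by rw [hw]; group
  rw [← hz] at h1
  rw [← hw] at h2
  have cz := hker z h1
  have cw := hker w h2
  have cz' : ∀ t, t * z⁻¹ = z⁻¹ * t := fun t => by
    have := cz t
    rw [eq_inv_mul_iff_mul_eq, ← mul_assoc, this, mul_inv_cancel_right]
  have cw' : ∀ t, t * w⁻¹ = w⁻¹ * t := fun t => by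
    have := cw t
    rw [eq_inv_mul_iff_mul_eq, ← mul_assoc, this, mul_inv_cancel_right]
  rw [hx', hy', mul_inv_rev, mul_inv_rev]
  calc x' * z * (y' * w) * (z⁻¹ * x'⁻¹) * (w⁻¹ * y'⁻¹)
      = x' * (z * (y' * w) * z⁻¹) * x'⁻¹ * (w⁻¹ * y'⁻¹) := by simp only [mul_assoc]
    _ = x' * (y' * w) * x'⁻¹ * (w⁻¹ * y'⁻¹) := by rw [cz, mul_inv_cancel_right]
    _ = x' * y' * (w * x'⁻¹ * w⁻¹) * y'⁻¹ := by simp only [mul_assoc]
    _ = x' * y' * x'⁻¹ * y'⁻¹ := by rw [cw, mul_inv_cancel_right]

theorem comm_mul_l {x x' y : P} (hc : ∀ z : P, (x' * y * x'⁻¹ * y⁻¹) * z =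
    z * (x' * y * x'⁻¹ * y⁻¹)) : (x * x') * y * (x * x')⁻¹ * y⁻¹ =
      (x * y * x⁻¹ * y⁻¹) * (x' * y * x'⁻¹ * y⁻¹) := by
  rw [← hc]
  have := hc x
  calc (x * x') * y * (x * x')⁻¹ * y⁻¹ = x * (x' * y * x'⁻¹ * y⁻¹) * (y * x⁻¹ * y⁻¹) := by group
    _ = _ := by rw [← hc]; group

theorem comm_mul_r {x y y' : P} (hc : ∀ z : P, (x * y' * x⁻¹ * y'⁻¹) * z =
    z * (x * y' * x⁻¹ * y'⁻¹)) : x * (y * y') * x⁻¹ * (y * y')⁻¹ =
      (x * y * x⁻¹ * y⁻¹) * (x * y' * x⁻¹ * y'⁻¹) := by
  calc x * (y * y') * x⁻¹ * (y * y')⁻¹ = (x * y * x⁻¹) * ((x * y' * x⁻¹ * y'⁻¹) * y⁻¹) := by group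
    _ = _ := by rw [hc]; group

/-- Construction of `Fac`. -/
theorem mkFac (π : P →* A) (j : B →* P) (π_surj : Function.Surjective π)
    (π_smul : ∀ (h : H) (x : P), π (h • x) = h • π x) (j_inj : Function.Injective j)
    (j_smul : ∀ (h : H) (w : B), j (h • w) = h • j w)
    (j_cen : ∀ (w : B) (x : P), j w * x = x * j w) (πj : ∀ w : B, π (j w) = 1)
    (hker : ∀ x, π x = 1 → ∀ y, x * y = y * x)
    (hcomm : ∀ x y : P, ∃ b : B, j b = x * y * x⁻¹ * y⁻¹) :
    letI := dact H A
    letI := dact H B
    ∃ F : Fac H P (Additive A) (Additive B),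
      (∀ x, F.π x = Multiplicative.ofAdd (Additive.ofMul (π x))) ∧
      (∀ w, F.j w = j w.toAdd.toMul) := by
  letI := dact H A
  letI := dact H B
  choose b hb using hcomm
  choose s hs using π_surj
  have hj : ∀ x y : P, j (b (s (π x)) (s (π y))) = x * y * x⁻¹ * y⁻¹ := by
    intro x y
    rw [hb]
    exact comm_wd hker (hs _) (hs _)
  have hcen : ∀ x y z : P, (x * y * x⁻¹ * y⁻¹) * z = z * (x * y * x⁻¹ * y⁻¹) := by
    intro x y z
    rw [← hb]
    exact j_cen _ z
  let c : Bil H (Additive A) (Additive A) (Additive B) :=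
    Bil.mk' (fun x y => Additive.ofMul (b (s x.toMul) (s y.toMul)))
      (by
        intro x x' y
        apply Additive.toMul.injective
        apply j_inj
        change j (b (s (x.toMul * x'.toMul)) (s y.toMul)) =
          j (b (s x.toMul) (s y.toMul) * b (s x'.toMul) (s y.toMul))
        rw [map_mul, hb, hb, hb]
        rw [← comm_mul_l (hcen _ _)]
        exact comm_wd hker (by rw [hs, map_mul, hs, hs]) rfl)
      (by
        intro x y y'
        apply Additive.toMul.injective
        apply j_inj
        change j (b (s x.toMul) (s (y.toMul * y'.toMul))) =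
          j (b (s x.toMul) (s y.toMul) * b (s x.toMul) (s y'.toMul))
        rw [map_mul, hb, hb, hb]
        rw [← comm_mul_r (hcen _ _)]
        exact comm_wd hker rfl (by rw [hs, map_mul, hs, hs]))
      (by
        intro h x y
        apply Additive.toMul.injective
        apply j_inj
        change j (b (s (h • x.toMul)) (s (h • y.toMul))) = j (h • b (s x.toMul) (s y.toMul))
        rw [j_smul, hb, hb, smul_mul', smul_mul', smul_mul', smul_inv', smul_inv']
        exact comm_wd hker (by rw [hs, π_smul, hs]) (by rw [hs, π_smul, hs]))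
  refine ⟨⟨?_, ?_, c, ?_, ?_, ?_, ?_, ?_, ?_, ?_⟩, ?_, ?_⟩
  · exact (MulEquiv.refl A).toMonoidHom.comp π
  · exact j
  · intro a
    exact ⟨s a.toAdd.toMul, hs _⟩
  · intro h x
    exact π_smul h x
  · exact j_inj
  · intro h w
    exact j_smul h w
  · exact j_cen
  · exact πj
  · intro x y
    exact hj x y
  · intro x
    rfl
  · intro w
    rfl

/-! ### The quotient by the centre -/

section Center

variable (hc : ∀ x y z : P, (x * y * x⁻¹ * y⁻¹) * z = z * (x * y * x⁻¹ * y⁻¹))

theorem smul_center (h : H) {x : P} (hx : x ∈ Subgroup.center P) :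
    h • x ∈ Subgroup.center P := by
  rw [Subgroup.mem_center_iff] at hx ⊢
  intro g
  have := congrArg (fun t => h • t) (hx (h⁻¹ • g))
  simpa only [smul_mul', smul_inv_smul] using this

/-- `P / Z(P)` is commutative. -/
@[reducible]
def qComm : CommGroup (P ⧸ Subgroup.center P) :=
  { (inferInstance : Group (P ⧸ Subgroup.center P)) with
    mul_comm := by
      intro a b
      induction a using QuotientGroup.induction_on with
      | H x =>
        induction b using QuotientGroup.induction_on with
        | H y =>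
          rw [← QuotientGroup.mk_mul, ← QuotientGroup.mk_mul, QuotientGroup.eq,
            Subgroup.mem_center_iff]
          intro g
          have h1 : (x * y)⁻¹ * (y * x) = y⁻¹ * x⁻¹ * (y⁻¹)⁻¹ * (x⁻¹)⁻¹ := by group
          rw [h1, ← hc] }

/-- The action on `P / Z(P)`. -/
@[reducible]
def qAct : MulDistribMulAction H (P ⧸ Subgroup.center P) where
  smul h := QuotientGroup.map (Subgroup.center P) (Subgroup.center P)
    (MulDistribMulAction.toMonoidHom P h) (fun x hx => smul_center h hx)
  one_smul a := by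
    induction a using QuotientGroup.induction_on with
    | H x => exact congrArg _ (one_smul H x)
  mul_smul g h a := by
    induction a using QuotientGroup.induction_on with
    | H x => exact congrArg _ (mul_smul g h x)
  smul_one h := map_one _
  smul_mul h a b := map_mul _ a b

end Center

/-! ### Central invariant subgroups -/

section Sub

variable (S : Subgroup P) (hS : ∀ x ∈ S, ∀ y, x * y = y * x) (hH : ∀ (h : H), ∀ x ∈ S, h • x ∈ S)

/-- A central subgroup is commutative. -/
@[reducible]
def sComm : CommGroup S :=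
  { (inferInstance : Group S) with
    mul_comm := fun a b => Subtype.ext (hS a.1 a.2 b.1) }

/-- The action on an invariant subgroup. -/
@[reducible]
def sAct : MulDistribMulAction H S where
  smul h a := ⟨h • a.1, hH h a.1 a.2⟩
  one_smul a := Subtype.ext (one_smul H a.1)
  mul_smul g h a := Subtype.ext (mul_smul g h a.1)
  smul_one h := Subtype.ext (smul_one h)
  smul_mul h a b := Subtype.ext (smul_mul' h a.1 b.1)

end Sub

end FAC_

theorem p_FAC : T_FAC := by
  intro H _ _ P _ _ _ Q _ _ _ q hq hqs hker hc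
  -- the derived subgroup
  have hD : ∀ x ∈ commutator P, ∀ y, x * y = y * x := by
    intro x hx
    rw [commutator_eq_closure] at hx
    induction hx using Subgroup.closure_induction with
    | mem x hx =>
      obtain ⟨a, b, rfl⟩ := hx
      intro y
      exact hc a b y
    | one => intro y; simp
    | mul x y _ _ hx hy => intro z; rw [mul_assoc, hy, ← mul_assoc, hx, mul_assoc]
    | inv x _ hx =>
      intro y
      have := hx y
      rw [eq_comm, ← eq_mul_inv_iff_mul_eq] at this
      rw [inv_mul_eq_iff_eq_mul, ← mul_assoc, hx, mul_inv_cancel_right]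
  have hDH : ∀ h : H, ∀ x ∈ commutator P, h • x ∈ commutator P := by
    intro h x hx
    rw [commutator_eq_closure] at hx ⊢
    induction hx using Subgroup.closure_induction with
    | mem x hx =>
      obtain ⟨a, b, rfl⟩ := hx
      refine Subgroup.subset_closure ⟨h • a, h • b, ?_⟩
      rw [commutatorElement_def, commutatorElement_def]
      simp only [smul_mul', smul_inv']
    | one => rw [smul_one]; exact one_mem _
    | mul x y _ _ hx hy => rw [smul_mul']; exact mul_mem hx hy
    | inv x _ hx => rw [smul_inv']; exact inv_mem hx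
  have hDQ : ∀ i, ∀ x ∈ (commutator P).map (q i), ∀ y, x * y = y * x := by
    intro i x hx y
    obtain ⟨x, hx, rfl⟩ := hx
    obtain ⟨y, rfl⟩ := hq i y
    rw [← map_mul, ← map_mul, hD x hx]
  have hDHQ : ∀ i, ∀ h : H, ∀ x ∈ (commutator P).map (q i), h • x ∈ (commutator P).map (q i) := by
    intro i h x hx
    obtain ⟨x, hx, rfl⟩ := hx
    exact ⟨h • x, hDH h x hx, hqs i h x⟩
  letI := FAC_.qComm hc
  letI : MulDistribMulAction H (P ⧸ Subgroup.center P) := FAC_.qAct
  letI := FAC_.sComm (commutator P) hD
  letI : MulDistribMulAction H (commutator P) := FAC_.sAct (commutator P) hDH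
  letI : ∀ i, CommGroup ((commutator P).map (q i)) := fun i => FAC_.sComm _ (hDQ i)
  letI : ∀ i, MulDistribMulAction H ((commutator P).map (q i)) := fun i => FAC_.sAct _ (hDHQ i)
  letI : DistribMulAction H (Additive (P ⧸ Subgroup.center P)) := FAC_.dact H _
  letI : DistribMulAction H (Additive (commutator P)) := FAC_.dact H _
  letI : ∀ i, DistribMulAction H (Additive ((commutator P).map (q i))) := fun i => FAC_.dact H _
  -- the first series
  have hmk : ∀ x : P, QuotientGroup.mk' (Subgroup.center P) x = 1 → ∀ y, x * y = y * x := by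
    intro x hx y
    have : x ∈ Subgroup.center P := (QuotientGroup.eq_one_iff x).1 hx
    exact (Subgroup.mem_center_iff.1 this y).symm
  have hmk' : ∀ x : P, (∀ y, x * y = y * x) → QuotientGroup.mk' (Subgroup.center P) x = 1 := by
    intro x hx
    exact (QuotientGroup.eq_one_iff x).2 (Subgroup.mem_center_iff.2 fun y => (hx y).symm)
  have hcD : ∀ x y : P, x * y * x⁻¹ * y⁻¹ ∈ commutator P := by
    intro x y
    rw [commutator_eq_closure]
    exact Subgroup.subset_closure ⟨x, y, rfl⟩
  obtain ⟨F, hFπ, hFj⟩ := FAC_.mkFac (H := H) (QuotientGroup.mk' (Subgroup.center P))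
    (commutator P).subtype (QuotientGroup.mk'_surjective _) (fun _ _ => rfl)
    Subtype.val_injective (fun _ _ => rfl) (fun w x => hD w.1 w.2 x)
    (fun w => hmk' w.1 (hD w.1 w.2)) hmk (fun x y => ⟨⟨_, hcD x y⟩, rfl⟩)
  -- the other series
  have hG : ∀ i, ∃ G : Fac H (Q i) (Additive (P ⧸ Subgroup.center P))
      (Additive ((commutator P).map (q i))),
      (∀ x : P, G.π (q i x) = Multiplicative.ofAdd (Additive.ofMul (x : P ⧸ Subgroup.center P))) ∧
      (∀ w, G.j w = w.toAdd.toMul.1) := by
    intro i
    let πi : Q i →* P ⧸ Subgroup.center P := (q i).liftOfSurjective (hq i)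
      ⟨QuotientGroup.mk' (Subgroup.center P), fun x hx => hmk' x (hker i x hx)⟩
    have hπi : ∀ x : P, πi (q i x) = QuotientGroup.mk' (Subgroup.center P) x := fun x =>
      MonoidHom.liftOfRightInverse_comp_apply _ _ _ _ x
    obtain ⟨G, h1, h2⟩ := FAC_.mkFac (H := H) πi ((commutator P).map (q i)).subtype
      (by
        intro a
        obtain ⟨x, rfl⟩ := QuotientGroup.mk'_surjective _ a
        exact ⟨q i x, hπi x⟩)
      (by
        intro h x
        obtain ⟨x, rfl⟩ := hq i x
        rw [← hqs, hπi, hπi]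
        rfl)
      Subtype.val_injective (fun _ _ => rfl) (fun w x => hDQ i w.1 w.2 x)
      (by
        intro w
        obtain ⟨x, hx, hxw⟩ := w.2
        rw [Subgroup.subtype_apply, ← hxw, hπi]
        exact hmk' x (hD x hx))
      (by
        intro x hx y
        obtain ⟨x, rfl⟩ := hq i x
        obtain ⟨y, rfl⟩ := hq i y
        rw [hπi] at hx
        rw [← map_mul, ← map_mul, hmk x hx])
      (by
        intro x y
        obtain ⟨x, rfl⟩ := hq i x
        obtain ⟨y, rfl⟩ := hq i y
        refine ⟨⟨q i (x * y * x⁻¹ * y⁻¹), ⟨_, hcD x y, rfl⟩⟩, ?_⟩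
        simp [Subgroup.subtype_apply])
    refine ⟨G, fun x => ?_, fun w => h2 w⟩
    rw [h1, hπi]
    rfl
  choose G hGπ hGj using hG
  let ψ0 : ∀ i, commutator P →* (commutator P).map (q i) := fun i =>
    (q i).subgroupMap (commutator P)
  have hψj : ∀ i (w : Additive (commutator P)), q i (F.j (Multiplicative.ofAdd w)) =
      (G i).j (Multiplicative.ofAdd (MonoidHom.toAdditive (ψ0 i) w)) := by
    intro i w
    rw [hFj, hGj]
    rfl
  have hπ : ∀ i (x : P), (G i).π (q i x) = F.π x := by
    intro i x
    rw [hGπ, hFπ]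
    rfl
  refine ⟨Additive (P ⧸ Subgroup.center P), inferInstance, inferInstance, FAC_.dact H _,
    Additive (commutator P), inferInstance, inferInstance, FAC_.dact H _,
    fun i => Additive ((commutator P).map (q i)), fun i => inferInstance, fun i => inferInstance,
    fun i => FAC_.dact H _, F, G, fun i => MonoidHom.toAdditive (ψ0 i), ?_, ?_, hψj, hπ, ?_, ?_, ?_⟩
  · intro i
    exact (q i).subgroupMap_surjective (commutator P)
  · intro i h w
    apply Additive.toMul.injective
    apply Subtype.ext
    exact hqs i h w.toMul.1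
  · intro i x y
    obtain ⟨x', hx'⟩ := F.π_surj (Multiplicative.ofAdd x)
    obtain ⟨y', hy'⟩ := F.π_surj (Multiplicative.ofAdd y)
    have e1 := (G i).comm (q i x') (q i y')
    rw [hπ, hπ, hx', hy', ← map_mul, ← map_inv, ← map_mul, ← map_inv, ← map_mul,
      ← F.comm, hx', hy', hψj] at e1
    exact Multiplicative.ofAdd.injective ((G i).j_inj e1)
  · intro x
    obtain ⟨x', hx'⟩ := F.π_surj (Multiplicative.ofAdd x)
    have e1 := F.comm x' x'
    rw [hx', mul_inv_cancel_right, mul_inv_cancel, ← map_one F.j] at e1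
    exact Multiplicative.ofAdd.injective (F.j_inj e1)
  · rw [eq_top_iff]
    intro w _
    have key : ∀ x (hx : x ∈ commutator P), Additive.ofMul (⟨x, hx⟩ : commutator P) ∈
        AddSubgroup.closure {w : Additive (commutator P) |
          ∃ x y : Additive (P ⧸ Subgroup.center P), w = F.c x y} := by
      intro x hx
      have hx2 := hx
      rw [commutator_eq_closure] at hx2
      induction hx2 using Subgroup.closure_induction with
      | mem x hx' =>
        obtain ⟨a, b, hab⟩ := hx'
        refine AddSubgroup.subset_closure ⟨(F.π a).toAdd, (F.π b).toAdd, ?_⟩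
        apply Multiplicative.ofAdd.injective
        apply F.j_inj
        rw [F.comm, hFj]
        exact hab.symm
      | one => exact zero_mem _
      | mul x y hx' hy' ih1 ih2 =>
        rw [← commutator_eq_closure] at hx' hy'
        exact add_mem (ih1 hx') (ih2 hy')
      | inv x hx' ih =>
        rw [← commutator_eq_closure] at hx'
        exact neg_mem (ih hx')
    exact key w.toMul.1 w.toMul.2

end Pool.Agent.Fcl2
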