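import Pool.Agent.Fcl2.LP

/-!
# Twisting, and pull-backs of groups with a central series
-/

set_option autoImplicit false
set_option linter.unusedSectionVars false
set_option linter.unusedVariables false

namespace Pool.Agent.Fcl2

open Pool.Agent.Formn Pool.Agent.Formn.Formation

/-- The fibre product of `P` and `Gr γ` over `V`. -/
@[ext]
structure PG {H P V W : Type} [Group H] [Group P] [MulDistribMulAction H P] [AddCommGroup V]
    [AddCommGroup W] [DistribMulAction H V] [DistribMulAction H W] (F : Fac H P V W)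
    (γ : Bil H V V W) : Type where
  /-- first component -/
  z : P
  /-- second component -/
  w : W

namespace PG

variable {H P V W : Type} [Group H] [Group P] [MulDistribMulAction H P]
  [AddCommGroup V] [AddCommGroup W] [DistribMulAction H V] [DistribMulAction H W]
  {F : Fac H P V W} {γ : Bil H V V W}

instance : Mul (PG F γ) := ⟨fun a b => ⟨a.z * b.z, a.w + b.w + γ (F.p a.z) (F.p b.z)⟩⟩
instance : One (PG F γ) := ⟨⟨1, 0⟩⟩
instance : Inv (PG F γ) := ⟨fun a => ⟨a.z⁻¹, -a.w + γ (F.p a.z) (F.p a.z)⟩⟩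

theorem mul_z (a b : PG F γ) : (a * b).z = a.z * b.z := rfl
theorem mul_w (a b : PG F γ) : (a * b).w = a.w + b.w + γ (F.p a.z) (F.p b.z) := rfl
theorem one_z : (1 : PG F γ).z = 1 := rfl
theorem one_w : (1 : PG F γ).w = 0 := rfl
theorem inv_z (a : PG F γ) : (a⁻¹).z = a.z⁻¹ := rfl
theorem inv_w (a : PG F γ) : (a⁻¹).w = -a.w + γ (F.p a.z) (F.p a.z) := rfl

instance : Group (PG F γ) := Group.ofLeftAxioms
  (fun a b c => by
    apply PG.ext
    · simp only [mul_z, mul_assoc]
    · simp only [mul_z, mul_w, F.p_mul, γ.add_l, γ.add_r]; abel)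
  (fun a => by
    apply PG.ext
    · simp only [mul_z, one_z, one_mul]
    · simp only [mul_w, one_w, one_z, F.p_one, γ.zero_l]; abel)
  (fun a => by
    apply PG.ext
    · simp only [mul_z, inv_z, one_z, inv_mul_cancel]
    · simp only [mul_w, inv_w, inv_z, one_w, F.p_inv, γ.neg_l]; abel)

instance : SMul H (PG F γ) := ⟨fun h a => ⟨h • a.z, h • a.w⟩⟩

theorem smul_z (h : H) (a : PG F γ) : (h • a).z = h • a.z := rfl
theorem smul_w (h : H) (a : PG F γ) : (h • a).w = h • a.w := rfl

instance : MulDistribMulAction H (PG F γ) where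
  one_smul a := by
    apply PG.ext
    · rw [smul_z, one_smul]
    · rw [smul_w, one_smul]
  mul_smul g h a := by
    apply PG.ext
    · simp only [smul_z, mul_smul]
    · simp only [smul_w, mul_smul]
  smul_one h := by
    apply PG.ext
    · rw [smul_z, one_z, smul_one]
    · rw [smul_w, one_w, smul_zero]
  smul_mul h a b := by
    apply PG.ext
    · simp only [smul_z, mul_z, smul_mul']
    · simp only [smul_w, smul_z, mul_w, smul_add, F.p_smul, γ.eqv]

instance [Finite P] [Finite W] : Finite (PG F γ) := Finite.of_equiv (P × W)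
  ⟨fun x => ⟨x.1, x.2⟩, fun a => (a.z, a.w), fun _ => rfl, fun _ => rfl⟩

/-- projection to `P` -/
def m1 : PG F γ →* P where
  toFun a := a.z
  map_one' := rfl
  map_mul' _ _ := rfl

/-- projection to `Gr` -/
def m2 : PG F γ →* Gr γ where
  toFun a := ⟨F.p a.z, a.w⟩
  map_one' := Gr.ext F.p_one rfl
  map_mul' a b := Gr.ext (F.p_mul a.z b.z) rfl

/-- projection to `Tw` -/
def m3 : PG F γ →* Tw F γ where
  toFun a := ⟨a.z * F.i a.w⟩
  map_one' := by
    apply Tw.ext
    change (1 : P) * F.i 0 = 1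
    rw [F.i_zero, one_mul]
  map_mul' a b := by
    apply Tw.ext
    rw [Tw.mul_val]
    change a.z * b.z * F.i (a.w + b.w + γ (F.p a.z) (F.p b.z)) =
      a.z * F.i a.w * (b.z * F.i b.w) * F.i (γ (F.p (a.z * F.i a.w)) (F.p (b.z * F.i b.w)))
    rw [F.p_mul, F.p_mul, F.p_i, F.p_i, add_zero, add_zero, F.i_add, F.i_add]
    have h1 := F.i_cen a.w b.z
    calc a.z * b.z * (F.i a.w * F.i b.w * F.i (γ (F.p a.z) (F.p b.z)))
        = a.z * (b.z * F.i a.w) * F.i b.w * F.i (γ (F.p a.z) (F.p b.z)) := by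
          simp only [mul_assoc]
      _ = _ := by
          rw [← h1]
          simp only [mul_assoc]

variable {Z : Formation} [Finite H] [Finite P] [Finite V] [Finite W]

theorem m1_surj : Function.Surjective (m1 (F := F) (γ := γ)) := fun x => ⟨⟨x, 0⟩, rfl⟩

theorem m2_surj : Function.Surjective (m2 (F := F) (γ := γ)) := by
  rintro ⟨v, w⟩
  obtain ⟨x, hx⟩ := F.p_surj v
  exact ⟨⟨x, w⟩, Gr.ext hx rfl⟩

theorem m3_surj : Function.Surjective (m3 (F := F) (γ := γ)) := fun x => ⟨⟨x.val, 0⟩, by
  apply Tw.ext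
  change x.val * F.i 0 = x.val
  rw [F.i_zero, mul_one]⟩

theorem m2_smul (h : H) (x : PG F γ) : m2 (h • x) = h • m2 x := Gr.ext (F.p_smul h x.z) rfl

theorem m3_smul (h : H) (x : PG F γ) : m3 (h • x) = h • m3 x := by
  apply Tw.ext
  change (h • x.z) * F.i (h • x.w) = h • (x.z * F.i x.w)
  rw [smul_mul', ← F.i_smul]

end PG

section

variable {H P V W : Type} [Group H] [Group P] [MulDistribMulAction H P]
  [AddCommGroup V] [AddCommGroup W] [DistribMulAction H V] [DistribMulAction H W]
  {Z : Formation} [Finite H] [Finite P] [Finite V] [Finite W]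

/-- The twisted group. -/
theorem tw_of (F : Fac H P V W) (γ : Bil H V V W) (h1 : MemH Z H P) (h2 : MemH Z H (Gr γ)) :
    MemH Z H (Tw F γ) := by
  refine mem_surj (PG.m3 (F := F) (γ := γ)) PG.m3_surj PG.m3_smul ?_
  refine mem_sub PG.m1 PG.m2 PG.m1_surj PG.m2_surj (fun _ _ => rfl) PG.m2_smul
    (fun x k1 k2 => ?_) h1 h2
  exact PG.ext k1 (congrArg Gr.w k2)

theorem of_tw (F : Fac H P V W) (γ : Bil H V V W) (h1 : MemH Z H (Tw F γ))
    (h2 : MemH Z H (Gr γ)) : MemH Z H P := by
  refine mem_surj (PG.m1 (F := F) (γ := γ)) PG.m1_surj (fun _ _ => rfl) ?_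
  refine mem_sub PG.m3 PG.m2 PG.m3_surj PG.m2_surj PG.m3_smul PG.m2_smul
    (fun x k1 k2 => ?_) h1 h2
  have hw : x.w = 0 := congrArg Gr.w k2
  have hz : x.z * F.i x.w = 1 := congrArg Tw.val k1
  rw [hw, F.i_zero, mul_one] at hz
  exact PG.ext hz hw

theorem tw_comm (F : Fac H P V W) (γ : Bil H V V W) (h : ∀ x y, γ y x - γ x y = F.c x y)
    (a b : Tw F γ) : a * b = b * a := by
  apply Tw.ext
  rw [Tw.mul_val, Tw.mul_val]
  change a.val * b.val * F.i (γ (F.p a.val) (F.p b.val)) =
    b.val * a.val * F.i (γ (F.p b.val) (F.p a.val))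
  rw [F.mul_eq a.val b.val, ← h, ← F.i_cen, ← F.i_cen, ← mul_assoc, ← F.i_add]
  congr 2
  abel

end

/-- The fibre product of `P` and `F₀` over `V`. -/
@[ext]
structure FP {H P V W F₀ : Type} [Group H] [Group P] [MulDistribMulAction H P] [AddCommGroup V]
    [AddCommGroup W] [DistribMulAction H V] [DistribMulAction H W] [AddCommGroup F₀]
    [DistribMulAction H F₀] (F : Fac H P V W) (π : F₀ →+ V)
    (e : ∀ (h : H) (f : F₀), π (h • f) = h • π f) : Type where
  /-- first component -/
  x : P
  /-- second component -/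
  f : F₀
  eq : F.p x = π f

namespace FP

variable {H P V W F₀ : Type} [Group H] [Group P] [MulDistribMulAction H P] [AddCommGroup V]
    [AddCommGroup W] [DistribMulAction H V] [DistribMulAction H W] [AddCommGroup F₀]
    [DistribMulAction H F₀] {F : Fac H P V W} {π : F₀ →+ V}
    {e : ∀ (h : H) (f : F₀), π (h • f) = h • π f}

instance : Mul (FP F π e) := ⟨fun a b => ⟨a.x * b.x, a.f + b.f, by
  rw [F.p_mul, a.eq, b.eq, map_add]⟩⟩
instance : One (FP F π e) := ⟨⟨1, 0, by rw [F.p_one, map_zero]⟩⟩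
instance : Inv (FP F π e) := ⟨fun a => ⟨a.x⁻¹, -a.f, by rw [F.p_inv, a.eq, map_neg]⟩⟩

theorem mul_x (a b : FP F π e) : (a * b).x = a.x * b.x := rfl
theorem mul_f (a b : FP F π e) : (a * b).f = a.f + b.f := rfl
theorem one_x : (1 : FP F π e).x = 1 := rfl
theorem one_f : (1 : FP F π e).f = 0 := rfl
theorem inv_x (a : FP F π e) : (a⁻¹).x = a.x⁻¹ := rfl
theorem inv_f (a : FP F π e) : (a⁻¹).f = -a.f := rfl

instance : Group (FP F π e) := Group.ofLeftAxioms
  (fun a b c => by
    apply FP.ext
    · simp only [mul_x, mul_assoc]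
    · simp only [mul_f, add_assoc])
  (fun a => by
    apply FP.ext
    · simp only [mul_x, one_x, one_mul]
    · simp only [mul_f, one_f, zero_add])
  (fun a => by
    apply FP.ext
    · simp only [mul_x, inv_x, one_x, inv_mul_cancel]
    · simp only [mul_f, inv_f, one_f, neg_add_cancel])

instance : SMul H (FP F π e) := ⟨fun h a => ⟨h • a.x, h • a.f, by rw [F.p_smul, a.eq, e]⟩⟩

theorem smul_x (h : H) (a : FP F π e) : (h • a).x = h • a.x := rfl
theorem smul_f (h : H) (a : FP F π e) : (h • a).f = h • a.f := rfl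

instance : MulDistribMulAction H (FP F π e) where
  one_smul a := by
    apply FP.ext
    · rw [smul_x, one_smul]
    · rw [smul_f, one_smul]
  mul_smul g h a := by
    apply FP.ext
    · simp only [smul_x, mul_smul]
    · simp only [smul_f, mul_smul]
  smul_one h := by
    apply FP.ext
    · rw [smul_x, one_x, smul_one]
    · rw [smul_f, one_f, smul_zero]
  smul_mul h a b := by
    apply FP.ext
    · simp only [smul_x, mul_x, smul_mul']
    · simp only [smul_f, mul_f, smul_add]

/-- the pair of the components -/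
def pair : FP F π e →* P × Multiplicative F₀ where
  toFun a := (a.x, Multiplicative.ofAdd a.f)
  map_one' := rfl
  map_mul' _ _ := rfl

theorem pair_inj : Function.Injective (pair (F := F) (π := π) (e := e)) := by
  intro a b h
  exact FP.ext (congrArg Prod.fst h) (congrArg (fun z => z.2.toAdd) h)

instance [Finite P] [Finite F₀] : Finite (FP F π e) := Finite.of_injective _ pair_inj

/-- first projection -/
def p1 : FP F π e →* P where
  toFun a := a.x
  map_one' := rfl
  map_mul' _ _ := rfl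

/-- second projection -/
def p2 : FP F π e →* Multiplicative F₀ where
  toFun a := Multiplicative.ofAdd a.f
  map_one' := rfl
  map_mul' _ _ := rfl

theorem p1_surj (hπ : Function.Surjective π) : Function.Surjective (p1 (F := F) (π := π) (e := e)) := by
  intro x
  obtain ⟨f, hf⟩ := hπ (F.p x)
  exact ⟨⟨x, f, hf.symm⟩, rfl⟩

theorem p2_surj : Function.Surjective (p2 (F := F) (π := π) (e := e)) := by
  intro f
  obtain ⟨x, hx⟩ := F.p_surj (π f.toAdd)
  exact ⟨⟨x, f.toAdd, hx⟩, rfl⟩

/-- The central series of the fibre product. -/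
def fac (F : Fac H P V W) (π : F₀ →+ V) (e : ∀ (h : H) (f : F₀), π (h • f) = h • π f) :
    Fac H (FP F π e) F₀ W where
  π := p2
  j := {
    toFun := fun w => ⟨F.i w.toAdd, 0, by rw [F.p_i, map_zero]⟩
    map_one' := FP.ext F.i_zero rfl
    map_mul' := fun a b => FP.ext (F.i_add _ _) (add_zero 0).symm }
  c := cmp F.c π π e e
  π_surj := p2_surj
  π_smul _ _ := rfl
  j_inj := by
    intro a b h
    have h1 : F.i a.toAdd = F.i b.toAdd := congrArg FP.x h
    exact congrArg Multiplicative.ofAdd (F.i_inj h1)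
  j_smul h w := FP.ext (F.i_smul h _) (smul_zero (A := F₀) h).symm
  j_cen w x := FP.ext (F.i_cen _ _) (by
    change 0 + x.f = x.f + 0
    rw [zero_add, add_zero])
  πj _ := rfl
  comm a b := by
    apply FP.ext
    · change F.i (F.c (π a.f) (π b.f)) = a.x * b.x * a.x⁻¹ * b.x⁻¹
      rw [← a.eq, ← b.eq, F.i_c]
    · change (0 : F₀) = a.f + b.f + -a.f + -b.f
      abel

theorem fac_c (f g : F₀) : (fac F π e).c f g = F.c (π f) (π g) := rfl

theorem fac_i (w : W) : ((fac F π e).i w).x = F.i w := rfl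

theorem fac_i' (w : W) : ((fac F π e).i w).f = 0 := rfl

theorem fac_p (a : FP F π e) : (fac F π e).p a = a.f := rfl

theorem mem {Z : Formation} [Finite H] [Finite P] [Finite F₀] (hπ : Function.Surjective π)
    (h1 : MemH Z H P) (h2 : MemA Z H F₀) : MemH Z H (FP F π e) :=
  mem_sub p1 p2 (p1_surj hπ) p2_surj (fun _ _ => rfl) (fun _ _ => rfl)
    (fun x k1 k2 => FP.ext k1 (congrArg Multiplicative.toAdd k2)) h1 h2

theorem mem' {Z : Formation} [Finite H] [Finite P] [Finite F₀] (hπ : Function.Surjective π)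
    (h : MemH Z H (FP F π e)) : MemH Z H P :=
  mem_surj p1 (p1_surj hπ) (fun _ _ => rfl) h

end FP

end Pool.Agent.Fcl2
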