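import Pool.Agent.Fcl2.KL
import Pool.Agent.Fcl2.TW
import Pool.Agent.Fcl2.AB
import Pool.Agent.Fcl2.FAC

/-!
# The theorem for `H`-groups of class two
-/

set_option autoImplicit false
set_option linter.unusedVariables false
set_option linter.style.haveILetI false

namespace Pool.Agent.Fcl2

open Pool.Agent.Formn Pool.Agent.Formn.Formation

/-- Let `P` be an `H`-group of prime power order `p ^ k` and class at most two, `H` abelian of
order prime to `p`, with three `H`-quotients `Q i` with central kernels which meet trivially in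
pairs. If `Q i` is in `X i` then `P` is in the join of the `X i ⊓ X j`. -/
theorem core (H : Type) [CommGroup H] [Finite H] (P : Type) [Group P] [Finite P]
    [MulDistribMulAction H P] (Q : Fin 3 → Type) [∀ i, Group (Q i)] [∀ i, Finite (Q i)]
    [∀ i, MulDistribMulAction H (Q i)] (q : ∀ i, P →* Q i) (X : Fin 3 → Formation)
    (p k : ℕ) (hp : p.Prime) (hH : ¬ p ∣ Nat.card H) (hP : Nat.card P = p ^ k)
    (hq : ∀ i, Function.Surjective (q i)) (hqe : ∀ i (h : H) (x : P), q i (h • x) = h • q i x)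
    (hqc : ∀ i x, q i x = 1 → ∀ y, x * y = y * x)
    (h2 : ∀ x y z : P, x * y * x⁻¹ * y⁻¹ * z = z * (x * y * x⁻¹ * y⁻¹))
    (hij : ∀ i j, i ≠ j → ∀ x, q i x = 1 → q j x = 1 → x = 1)
    (hX : ∀ i, MemH (X i) H (Q i)) :
    MemH ((X 0 ⊓ X 1) ⊔ (X 0 ⊓ X 2) ⊔ (X 1 ⊓ X 2)) H P := by
  obtain ⟨V, _, _, _, W, _, _, _, WQ, _, _, _, F, G, ψ, hψs, hψe, hqj, hqπ, hGc, hcc, hW⟩ :=
    p_FAC H P Q q hq hqe hqc h2
  letI : Fintype V := Fintype.ofFinite V
  -- the exponent
  have hWn : ∀ w : W, (p ^ k) • w = 0 := by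
    intro w
    have h1 : F.j (Multiplicative.ofAdd ((p ^ k) • w)) = F.j 1 := by
      rw [ofAdd_nsmul, map_pow, map_one, ← hP, pow_card_eq_one']
    exact Multiplicative.ofAdd.injective (F.j_inj h1)
  have hVn : ∀ v : V, p ^ k • v = 0 := by
    intro v
    obtain ⟨x, hx⟩ := F.π_surj (Multiplicative.ofAdd v)
    have h1 : Multiplicative.ofAdd ((p ^ k) • v) = 1 := by
      rw [ofAdd_nsmul, ← hx, ← map_pow, ← hP, pow_card_eq_one', map_one]
    exact Multiplicative.ofAdd.injective h1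
  have hψi : ∀ i j, i ≠ j → ∀ w, ψ i w = 0 → ψ j w = 0 → w = 0 := by
    intro i j hne w h1 h2
    have h3 : F.j (Multiplicative.ofAdd w) = 1 := by
      apply hij i j hne
      · rw [hqj, h1, ofAdd_zero, map_one]
      · rw [hqj, h2, ofAdd_zero, map_one]
    rw [← map_one F.j] at h3
    exact Multiplicative.ofAdd.injective (F.j_inj h3)
  -- the bilinear part
  have hL : ∀ i, L (X i) (G i).c := fun i => L_of_P (G i) (hX i)
  have hLJ := p_MAIN H V W F.c p k hp hH hVn hW WQ ψ (fun i => (G i).c) X hψs hψe hψi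
    hGc hL
  -- the form `γ`
  obtain ⟨γ, gγ, hγ⟩ := exists_gamma F.c hcc p k hp hH hWn
  obtain ⟨l, hl, hle⟩ := MAIN_.exists_l H V p k hp hH hVn
  set J : Formation := (X 0 ⊓ X 1) ⊔ (X 0 ⊓ X 2) ⊔ (X 1 ⊓ X 2) with hJ
  have hF0 : ∀ (Z : Formation) (W' : Type) [AddCommGroup W'] [Finite W'] [DistribMulAction H W']
      (c' : Bil H V V W'), L Z c' → MemA Z H (V → MAIN_.Rb H V) := by
    intro Z W' _ _ _ c' hc'
    exact MAIN_.memA_pi V (memA_surj l hl hle (memA_of_L hc').1)
  have hF0i := fun i => hF0 (X i) (WQ i) (G i).c (hL i)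
  have hF0J := hF0 J W F.c hLJ
  have hγi : ∀ i, MemH (X i) H (Gr (pst γ (ψ i) (hψe i))) := fun i =>
    L_diag _ (gγ (X i) (WQ i) (ψ i) (hψe i) (G i).c (hGc i) (hL i) (hF0i i))
  have hγJ : MemH J H (Gr γ) := by
    refine L_diag _ (L_congr (fun x y => ?_)
      (gγ J W (AddMonoidHom.id W) (fun _ _ => rfl) F.c (fun _ _ => rfl) hLJ hF0J))
    rfl
  -- the abelian part
  let M := Tw (FP.fac F (pi0 H V) (pi0_smul H V)) γ
  let MQ : Fin 3 → Type := fun i =>
    Tw (FP.fac (G i) (pi0 H V) (pi0_smul H V)) (pst γ (ψ i) (hψe i))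
  have hMQ : ∀ i, MemH (X i) H (MQ i) := fun i =>
    tw_of _ _ (FP.mem (pi0_surj H V) (hX i) (hF0i i)) (hγi i)
  have hp' : ∀ i x, (G i).p (q i x) = F.p x := fun i x => congrArg Multiplicative.toAdd (hqπ i x)
  have hi' : ∀ i w, q i (F.i w) = (G i).i (ψ i w) := fun i w => hqj i w
  let r : ∀ i, M →* MQ i := fun i =>
    { toFun := fun x => ⟨⟨q i x.val.x, x.val.f, by rw [hp', x.val.eq]⟩⟩
      map_one' := Tw.ext (FP.ext (map_one (q i)) rfl)
      map_mul' := fun x y => by
        apply Tw.ext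
        apply FP.ext
        · change q i (x.val.x * y.val.x * F.i (γ x.val.f y.val.f)) =
            q i x.val.x * q i y.val.x * (G i).i (ψ i (γ x.val.f y.val.f))
          rw [map_mul, map_mul, hi']
        · rfl }
  have hM : MemH J H M := by
    refine p_AB H M MQ r X (tw_comm _ _ (fun x y => ?_)) ?_ (fun i y => ?_) (fun i h x => ?_)
      (fun i j hne x h1 h2 => ?_) hMQ
    · rw [FP.fac_c]
      exact hγ x y
    · have h1 : Nat.card M = Nat.card (FP F (pi0 H V) (pi0_smul H V)) :=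
        Nat.card_congr ⟨fun a => a.val, fun x => ⟨x⟩, fun _ => rfl, fun _ => rfl⟩
      have h2 : Nat.card (FP F (pi0 H V) (pi0_smul H V)) ∣
          Nat.card (P × Multiplicative (V → MAIN_.Rb H V)) :=
        Subgroup.card_dvd_of_injective FP.pair FP.pair_inj
      have h3 : Nat.card V ∣ p ^ k := by
        rw [← hP]
        have h := Subgroup.card_dvd_of_surjective F.π F.π_surj
        exact h
      have h4 : Nat.card (MAIN_.Rb H V) ∣ p ^ k :=
        (AddSubgroup.card_dvd_of_surjective l hl).trans h3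
      have h5 : Nat.Coprime (p ^ k) (Nat.card H) :=
        Nat.Coprime.pow_left k ((Nat.Prime.coprime_iff_not_dvd hp).2 hH)
      have h6 : Nat.card (P × Multiplicative (V → MAIN_.Rb H V)) =
          p ^ k * Nat.card (MAIN_.Rb H V) ^ Nat.card V := by
        rw [Nat.card_prod, hP]
        congr 1
        change Nat.card (V → MAIN_.Rb H V) = _
        rw [Nat.card_fun]
      rw [h1]
      refine Nat.Coprime.coprime_dvd_left h2 ?_
      rw [h6]
      exact Nat.Coprime.mul_left h5 (Nat.Coprime.pow_left _ (Nat.Coprime.coprime_dvd_left h4 h5))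
    · obtain ⟨x, hx⟩ := hq i y.val.x
      refine ⟨⟨⟨x, y.val.f, ?_⟩⟩, Tw.ext (FP.ext hx rfl)⟩
      rw [← hp' i, hx, y.val.eq]
    · exact Tw.ext (FP.ext (hqe i h x.val.x) rfl)
    · exact Tw.ext (FP.ext (hij i j hne x.val.x (congrArg (fun z => z.val.x) h1)
        (congrArg (fun z => z.val.x) h2)) (congrArg (fun z => z.val.f) h1))
  exact FP.mem' (pi0_surj H V) (of_tw _ _ hM hγJ)

end Pool.Agent.Fcl2
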