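import Pool.Agent.Fcl2.Targets

/-!
# Closure properties
-/

set_option autoImplicit false
set_option linter.unusedSectionVars false
set_option linter.unusedVariables false

namespace Pool.Agent.Fcl2

open Pool.Agent.Formn Pool.Agent.Formn.Formation

section general

variable {Z : Formation} {H : Type} [Group H] [Finite H]

/-- The homomorphism of semidirect products. -/
def emap {P Q : Type} [Group P] [Group Q] [MulDistribMulAction H P] [MulDistribMulAction H Q]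
    (f : P →* Q) (he : ∀ (h : H) (x : P), f (h • x) = h • f x) : E H P →* E H Q :=
  SemidirectProduct.map f (MonoidHom.id H) (by
    intro h
    ext x
    exact he h x)

theorem emap_surj {P Q : Type} [Group P] [Group Q] [MulDistribMulAction H P]
    [MulDistribMulAction H Q] (f : P →* Q) (he : ∀ (h : H) (x : P), f (h • x) = h • f x)
    (hf : Function.Surjective f) : Function.Surjective (emap f he) := by
  rintro ⟨x, h⟩
  obtain ⟨y, hy⟩ := hf x
  refine ⟨⟨y, h⟩, ?_⟩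
  apply SemidirectProduct.ext
  · exact hy
  · rfl

theorem mem_surj {P Q : Type} [Group P] [Finite P] [Group Q] [Finite Q] [MulDistribMulAction H P]
    [MulDistribMulAction H Q] (f : P →* Q) (hf : Function.Surjective f)
    (he : ∀ (h : H) (x : P), f (h • x) = h • f x) (h : MemH Z H P) : MemH Z H Q :=
  Z.of_surj (emap f he) (emap_surj f he hf) h

theorem mem_sub {S P Q : Type} [Group S] [Finite S] [Group P] [Finite P] [Group Q] [Finite Q]
    [MulDistribMulAction H S] [MulDistribMulAction H P] [MulDistribMulAction H Q]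
    (f : S →* P) (g : S →* Q) (hf : Function.Surjective f) (hg : Function.Surjective g)
    (hef : ∀ (h : H) (x : S), f (h • x) = h • f x) (heg : ∀ (h : H) (x : S), g (h • x) = h • g x)
    (hfg : ∀ x, f x = 1 → g x = 1 → x = 1) (hP : MemH Z H P) (hQ : MemH Z H Q) :
    MemH Z H S := by
  have h1 : Z.q (emap f hef).ker := (q_hom _ (emap_surj f hef hf)).2 hP
  have h2 : Z.q (emap g heg).ker := (q_hom _ (emap_surj g heg hg)).2 hQ
  have h3 : (emap f hef).ker ⊓ (emap g heg).ker = ⊥ := by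
    rw [eq_bot_iff]
    rintro ⟨x, h⟩ ⟨k1, k2⟩
    have k1' : emap f hef ⟨x, h⟩ = 1 := k1
    have k2' : emap g heg ⟨x, h⟩ = 1 := k2
    have e1 : f x = 1 := congrArg SemidirectProduct.left k1'
    have e2 : g x = 1 := congrArg SemidirectProduct.left k2'
    have e3 : h = 1 := congrArg SemidirectProduct.right k1'
    rw [Subgroup.mem_bot]
    apply SemidirectProduct.ext
    · exact hfg x e1 e2
    · exact e3
  have h4 := q_inf h1 h2
  rw [h3] at h4
  exact q_bot.1 h4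

variable {V W V' W' V'' W'' : Type} [AddCommGroup V] [AddCommGroup W] [AddCommGroup V']
  [AddCommGroup W'] [AddCommGroup V''] [AddCommGroup W'']
  [DistribMulAction H V] [DistribMulAction H W] [DistribMulAction H V'] [DistribMulAction H W']
  [DistribMulAction H V''] [DistribMulAction H W'']
  [Finite V] [Finite W] [Finite V'] [Finite W'] [Finite V''] [Finite W'']

/-- Homomorphisms between the groups `Gr`. -/
def grHom {β : Bil H V V W} {β' : Bil H V' V' W'} (φ : V →+ V') (ψ : W →+ W') (χ : V →+ W')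
    (h : ∀ x y, ψ (β x y) = β' (φ x) (φ y)) : Gr β →* Gr β' where
  toFun a := ⟨φ a.v, ψ a.w + χ a.v⟩
  map_one' := by
    apply Gr.ext
    · change φ (1 : Gr β).v = (1 : Gr β').v
      rw [Gr.one_v, Gr.one_v, map_zero]
    · change ψ (1 : Gr β).w + χ (1 : Gr β).v = (1 : Gr β').w
      rw [Gr.one_v, Gr.one_w, Gr.one_w, map_zero, map_zero, add_zero]
  map_mul' a b := by
    apply Gr.ext
    · change φ (a * b).v = φ a.v + φ b.v
      rw [Gr.mul_v, map_add]
    · change ψ (a * b).w + χ (a * b).v = (ψ a.w + χ a.v) + (ψ b.w + χ b.v) + β' (φ a.v) (φ b.v)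
      rw [Gr.mul_v, Gr.mul_w, map_add, map_add, map_add, h]
      abel

theorem grHom_smul {β : Bil H V V W} {β' : Bil H V' V' W'} (φ : V →+ V') (ψ : W →+ W')
    (χ : V →+ W') (h : ∀ x y, ψ (β x y) = β' (φ x) (φ y)) (hφ : ∀ (k : H) x, φ (k • x) = k • φ x)
    (hψ : ∀ (k : H) x, ψ (k • x) = k • ψ x) (hχ : ∀ (k : H) x, χ (k • x) = k • χ x) (k : H)
    (a : Gr β) : grHom (β' := β') φ ψ χ h (k • a) = k • grHom (β' := β') φ ψ χ h a := by
  apply Gr.ext
  · exact hφ k a.v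
  · change ψ (k • a.w) + χ (k • a.v) = k • (ψ a.w + χ a.v)
    rw [hψ, hχ, smul_add]

/-- The projection of `Gr β` to `V` followed by a homomorphism, plus a homomorphism of `W`
which kills `β`. -/
def abHom {β : Bil H V V W} (φ : V →+ V') (ψ : W →+ V') (h : ∀ x y, ψ (β x y) = 0) :
    Gr β →* Multiplicative V' where
  toFun a := Multiplicative.ofAdd (φ a.v + ψ a.w)
  map_one' := by
    change Multiplicative.ofAdd (φ (0 : V) + ψ (0 : W)) = 1
    rw [map_zero, map_zero, add_zero]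
    rfl
  map_mul' a b := by
    change Multiplicative.ofAdd (φ (a * b).v + ψ (a * b).w) =
      Multiplicative.ofAdd ((φ a.v + ψ a.w) + (φ b.v + ψ b.w))
    rw [Gr.mul_v, Gr.mul_w, map_add φ, map_add ψ, map_add ψ, h, add_zero]
    congr 1
    abel

theorem abHom_smul {β : Bil H V V W} (φ : V →+ V') (ψ : W →+ V') (h : ∀ x y, ψ (β x y) = 0)
    (hφ : ∀ (k : H) x, φ (k • x) = k • φ x) (hψ : ∀ (k : H) x, ψ (k • x) = k • ψ x) (k : H)
    (a : Gr β) : abHom φ ψ h (k • a) = k • abHom φ ψ h a := by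
  change Multiplicative.ofAdd (φ (k • a.v) + ψ (k • a.w)) =
    Multiplicative.ofAdd (k • (φ a.v + ψ a.w))
  rw [hφ, hψ, smul_add]

/-- Quotients of modules. -/
theorem memA_surj (f : V →+ V') (hf : Function.Surjective f)
    (he : ∀ (h : H) (x : V), f (h • x) = h • f x) (h : MemA Z H V) : MemA Z H V' := by
  refine mem_surj (AddMonoidHom.toMultiplicative f) ?_ ?_ h
  · intro x
    obtain ⟨y, hy⟩ := hf x.toAdd
    exact ⟨Multiplicative.ofAdd y, congrArg Multiplicative.ofAdd hy⟩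
  · intro h x
    exact congrArg Multiplicative.ofAdd (he h x.toAdd)

theorem memA_sub (f : V →+ V') (g : V →+ V'') (hf : Function.Surjective f)
    (hg : Function.Surjective g) (hef : ∀ (h : H) (x : V), f (h • x) = h • f x)
    (heg : ∀ (h : H) (x : V), g (h • x) = h • g x) (hfg : ∀ x, f x = 0 → g x = 0 → x = 0)
    (h' : MemA Z H V') (h'' : MemA Z H V'') : MemA Z H V := by
  refine mem_sub (AddMonoidHom.toMultiplicative f) (AddMonoidHom.toMultiplicative g) ?_ ?_ ?_ ?_ ?_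
    h' h''
  · intro x
    obtain ⟨y, hy⟩ := hf x.toAdd
    exact ⟨Multiplicative.ofAdd y, congrArg Multiplicative.ofAdd hy⟩
  · intro x
    obtain ⟨y, hy⟩ := hg x.toAdd
    exact ⟨Multiplicative.ofAdd y, congrArg Multiplicative.ofAdd hy⟩
  · intro h x
    exact congrArg Multiplicative.ofAdd (hef h x.toAdd)
  · intro h x
    exact congrArg Multiplicative.ofAdd (heg h x.toAdd)
  · intro x h1 h2
    have e1 : f x.toAdd = 0 := congrArg Multiplicative.toAdd h1
    have e2 : g x.toAdd = 0 := congrArg Multiplicative.toAdd h2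
    exact congrArg Multiplicative.ofAdd (hfg x.toAdd e1 e2)

theorem memA_prod (h' : MemA Z H V) (h'' : MemA Z H V') : MemA Z H (V × V') :=
  memA_sub (AddMonoidHom.fst V V') (AddMonoidHom.snd V V') Prod.fst_surjective
    Prod.snd_surjective (fun _ _ => rfl) (fun _ _ => rfl) (fun x h1 h2 => Prod.ext h1 h2) h' h''

/-- Quotients of the groups `Gr`. -/
theorem gr_surj {β : Bil H V V W} {β' : Bil H V' V' W'} (φ : V →+ V') (ψ : W →+ W') (χ : V →+ W')
    (h : ∀ x y, ψ (β x y) = β' (φ x) (φ y)) (hφ : ∀ (k : H) x, φ (k • x) = k • φ x)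
    (hψ : ∀ (k : H) x, ψ (k • x) = k • ψ x) (hχ : ∀ (k : H) x, χ (k • x) = k • χ x)
    (hs : ∀ (v : V') (w : W'), ∃ (v' : V) (w' : W), φ v' = v ∧ ψ w' + χ v' = w)
    (hm : MemH Z H (Gr β)) : MemH Z H (Gr β') := by
  refine mem_surj (grHom (β' := β') φ ψ χ h) ?_ (grHom_smul φ ψ χ h hφ hψ hχ) hm
  rintro ⟨v, w⟩
  obtain ⟨v', w', h1, h2⟩ := hs v w
  exact ⟨⟨v', w'⟩, Gr.ext h1 h2⟩

theorem gr_surj_ab {β : Bil H V V W} (φ : V →+ V') (ψ : W →+ V') (h : ∀ x y, ψ (β x y) = 0)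
    (hφ : ∀ (k : H) x, φ (k • x) = k • φ x) (hψ : ∀ (k : H) x, ψ (k • x) = k • ψ x)
    (hs : ∀ v : V', ∃ (v' : V) (w' : W), φ v' + ψ w' = v) (hm : MemH Z H (Gr β)) :
    MemA Z H V' := by
  refine mem_surj (abHom φ ψ h) ?_ (abHom_smul φ ψ h hφ hψ) hm
  intro v
  obtain ⟨v', w', h1⟩ := hs v.toAdd
  exact ⟨⟨v', w'⟩, congrArg Multiplicative.ofAdd h1⟩

/-- Subdirect products of two groups `Gr`. -/
theorem gr_sub {β : Bil H V V W} {β' : Bil H V' V' W'} {β'' : Bil H V'' V'' W''}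
    (φ : V →+ V') (ψ : W →+ W') (χ : V →+ W') (φ' : V →+ V'') (ψ' : W →+ W'') (χ' : V →+ W'')
    (h : ∀ x y, ψ (β x y) = β' (φ x) (φ y)) (h' : ∀ x y, ψ' (β x y) = β'' (φ' x) (φ' y))
    (hφ : ∀ (k : H) x, φ (k • x) = k • φ x) (hψ : ∀ (k : H) x, ψ (k • x) = k • ψ x)
    (hχ : ∀ (k : H) x, χ (k • x) = k • χ x) (hφ' : ∀ (k : H) x, φ' (k • x) = k • φ' x)
    (hψ' : ∀ (k : H) x, ψ' (k • x) = k • ψ' x) (hχ' : ∀ (k : H) x, χ' (k • x) = k • χ' x)
    (hs : ∀ (v : V') (w : W'), ∃ (v' : V) (w' : W), φ v' = v ∧ ψ w' + χ v' = w)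
    (hs' : ∀ (v : V'') (w : W''), ∃ (v' : V) (w' : W), φ' v' = v ∧ ψ' w' + χ' v' = w)
    (hi : ∀ (v : V) (w : W), φ v = 0 → ψ w + χ v = 0 → φ' v = 0 → ψ' w + χ' v = 0 →
      v = 0 ∧ w = 0)
    (hm : MemH Z H (Gr β')) (hm' : MemH Z H (Gr β'')) : MemH Z H (Gr β) := by
  refine mem_sub (grHom (β' := β') φ ψ χ h) (grHom (β' := β'') φ' ψ' χ' h') ?_ ?_
    (grHom_smul φ ψ χ h hφ hψ hχ) (grHom_smul φ' ψ' χ' h' hφ' hψ' hχ') ?_ hm hm'
  · rintro ⟨v, w⟩
    obtain ⟨v', w', h1, h2⟩ := hs v w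
    exact ⟨⟨v', w'⟩, Gr.ext h1 h2⟩
  · rintro ⟨v, w⟩
    obtain ⟨v', w', h1, h2⟩ := hs' v w
    exact ⟨⟨v', w'⟩, Gr.ext h1 h2⟩
  · rintro ⟨v, w⟩ h1 h2
    obtain ⟨k1, k2⟩ := hi v w (congrArg Gr.v h1) (congrArg Gr.w h1) (congrArg Gr.v h2)
      (congrArg Gr.w h2)
    exact Gr.ext k1 k2

/-- Subdirect products of a group `Gr` and a module. -/
theorem gr_sub_ab {β : Bil H V V W} {β' : Bil H V' V' W'}
    (φ : V →+ V') (ψ : W →+ W') (χ : V →+ W') (φ' : V →+ V'')
    (h : ∀ x y, ψ (β x y) = β' (φ x) (φ y))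
    (hφ : ∀ (k : H) x, φ (k • x) = k • φ x) (hψ : ∀ (k : H) x, ψ (k • x) = k • ψ x)
    (hχ : ∀ (k : H) x, χ (k • x) = k • χ x) (hφ' : ∀ (k : H) x, φ' (k • x) = k • φ' x)
    (hs : ∀ (v : V') (w : W'), ∃ (v' : V) (w' : W), φ v' = v ∧ ψ w' + χ v' = w)
    (hs' : Function.Surjective φ')
    (hi : ∀ (v : V) (w : W), φ v = 0 → ψ w + χ v = 0 → φ' v = 0 → v = 0 ∧ w = 0)
    (hm : MemH Z H (Gr β')) (hm' : MemA Z H V'') : MemH Z H (Gr β) := by
  refine mem_sub (grHom (β' := β') φ ψ χ h) (abHom φ' 0 (fun _ _ => rfl)) ?_ ?_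
    (grHom_smul φ ψ χ h hφ hψ hχ) (abHom_smul φ' 0 (fun _ _ => rfl) hφ' (fun k _ => (smul_zero k).symm))
    ?_ hm hm'
  · rintro ⟨v, w⟩
    obtain ⟨v', w', h1, h2⟩ := hs v w
    exact ⟨⟨v', w'⟩, Gr.ext h1 h2⟩
  · intro v
    obtain ⟨v', h1⟩ := hs' v.toAdd
    refine ⟨⟨v', 0⟩, ?_⟩
    change Multiplicative.ofAdd (φ' v' + 0) = v
    rw [add_zero, h1]
    rfl
  · rintro ⟨v, w⟩ h1 h2
    have h3 : φ' v + 0 = 0 := congrArg Multiplicative.toAdd h2
    rw [add_zero] at h3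
    obtain ⟨k1, k2⟩ := hi v w (congrArg Gr.v h1) (congrArg Gr.w h1) h3
    exact Gr.ext k1 k2

theorem memA_of_gr {β : Bil H V V W} (hm : MemH Z H (Gr β)) : MemA Z H V := by
  refine gr_surj_ab (AddMonoidHom.id V) 0 (fun _ _ => rfl) (fun _ _ => rfl)
    (fun k _ => (smul_zero k).symm) (fun v => ⟨v, 0, ?_⟩) hm
  change v + 0 = v
  rw [add_zero]

/-- The pair of two biadditive maps. -/
def pr (β : Bil H V V' W) (β' : Bil H V V' W') : Bil H V V' (W × W') :=
  Bil.mk' (fun x y => (β x y, β' x y)) (fun x x' y => by rw [β.add_l, β'.add_l]; rfl)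
    (fun x y y' => by rw [β.add_r, β'.add_r]; rfl) (fun h x y => by rw [β.eqv, β'.eqv]; rfl)

theorem pr_apply (β : Bil H V V' W) (β' : Bil H V V' W') (x : V) (y : V') :
    pr β β' x y = (β x y, β' x y) := rfl

theorem memA_of_gr_w {β : Bil H V V W} (hm : MemH Z H (Gr β)) : MemA Z H W := by
  have h1 : MemH Z H (Gr (pr β β)) :=
    gr_sub (β' := β) (β'' := β) (AddMonoidHom.id V) (AddMonoidHom.fst W W) 0 (AddMonoidHom.id V)
      (AddMonoidHom.snd W W) 0 (fun _ _ => rfl) (fun _ _ => rfl) (fun _ _ => rfl) (fun _ _ => rfl)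
      (fun k _ => (smul_zero k).symm) (fun _ _ => rfl) (fun _ _ => rfl)
      (fun k _ => (smul_zero k).symm)
      (fun v w => ⟨v, (w, 0), rfl, add_zero w⟩) (fun v w => ⟨v, (0, w), rfl, add_zero w⟩)
      (fun v w h1 h2 _ h4 => ⟨h1, Prod.ext ((add_zero w.1).symm.trans h2)
        ((add_zero w.2).symm.trans h4)⟩) hm hm
  refine gr_surj_ab 0 (AddMonoidHom.fst W W - AddMonoidHom.snd W W) (fun x y => ?_)
    (fun k _ => (smul_zero k).symm) (fun k w => ?_) (fun v => ⟨0, (v, 0), ?_⟩) h1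
  · change β x y - β x y = 0
    rw [sub_self]
  · change k • w.1 - k • w.2 = k • (w.1 - w.2)
    rw [smul_sub]
  · change 0 + (v - 0) = v
    rw [zero_add, sub_zero]

end general

end Pool.Agent.Fcl2
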