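import Pool.Agent.Fcl2.Clo

/-!
# Closure properties of biadditive maps
-/

set_option autoImplicit false
set_option linter.unusedSectionVars false
set_option linter.unusedVariables false

namespace Pool.Agent.Fcl2

open Pool.Agent.Formn Pool.Agent.Formn.Formation

variable {Z : Formation} {H : Type} [Group H] [Finite H]

section

variable {X Y W X' Y' W' X'' Y'' W'' : Type} [AddCommGroup X] [AddCommGroup Y] [AddCommGroup W]
  [AddCommGroup X'] [AddCommGroup Y'] [AddCommGroup W']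
  [AddCommGroup X''] [AddCommGroup Y''] [AddCommGroup W'']
  [DistribMulAction H X] [DistribMulAction H Y] [DistribMulAction H W]
  [DistribMulAction H X'] [DistribMulAction H Y'] [DistribMulAction H W']
  [DistribMulAction H X''] [DistribMulAction H Y''] [DistribMulAction H W'']
  [Finite X] [Finite Y] [Finite W] [Finite X'] [Finite Y'] [Finite W']
  [Finite X''] [Finite Y''] [Finite W'']

theorem L_sur {f : Bil H X Y W} {g : Bil H X' Y' W'} (a : X →+ X') (b : Y →+ Y') (ψ : W →+ W')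
    (ha : Function.Surjective a) (hb : Function.Surjective b) (hψ : Function.Surjective ψ)
    (ea : ∀ (k : H) x, a (k • x) = k • a x) (eb : ∀ (k : H) x, b (k • x) = k • b x)
    (eψ : ∀ (k : H) x, ψ (k • x) = k • ψ x) (h : ∀ x y, ψ (f x y) = g (a x) (b y))
    (hf : L Z f) : L Z g := by
  refine gr_surj (β := D f) (β' := D g) (a.prodMap b) ψ 0 (fun x y => ?_) (fun k x => ?_) eψ
    (fun k _ => (smul_zero k).symm) (fun v w => ?_) hf
  · rw [D_apply, h]
    rfl
  · exact Prod.ext (ea k x.1) (eb k x.2)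
  · obtain ⟨x, hx⟩ := ha v.1
    obtain ⟨y, hy⟩ := hb v.2
    obtain ⟨w', hw⟩ := hψ w
    exact ⟨(x, y), w', Prod.ext hx hy, (add_zero _).trans hw⟩

theorem L_sub {f : Bil H X Y W} {g : Bil H X' Y' W'} {g' : Bil H X'' Y'' W''}
    (a : X →+ X') (b : Y →+ Y') (ψ : W →+ W') (a' : X →+ X'') (b' : Y →+ Y'') (ψ' : W →+ W'')
    (ha : Function.Surjective a) (hb : Function.Surjective b) (hψ : Function.Surjective ψ)
    (ha' : Function.Surjective a') (hb' : Function.Surjective b') (hψ' : Function.Surjective ψ')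
    (ea : ∀ (k : H) x, a (k • x) = k • a x) (eb : ∀ (k : H) x, b (k • x) = k • b x)
    (eψ : ∀ (k : H) x, ψ (k • x) = k • ψ x) (ea' : ∀ (k : H) x, a' (k • x) = k • a' x)
    (eb' : ∀ (k : H) x, b' (k • x) = k • b' x) (eψ' : ∀ (k : H) x, ψ' (k • x) = k • ψ' x)
    (h : ∀ x y, ψ (f x y) = g (a x) (b y)) (h' : ∀ x y, ψ' (f x y) = g' (a' x) (b' y))
    (ia : ∀ x, a x = 0 → a' x = 0 → x = 0) (ib : ∀ x, b x = 0 → b' x = 0 → x = 0)
    (iψ : ∀ x, ψ x = 0 → ψ' x = 0 → x = 0) (hg : L Z g) (hg' : L Z g') : L Z f := by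
  refine gr_sub (β := D f) (β' := D g) (β'' := D g') (a.prodMap b) ψ 0 (a'.prodMap b') ψ' 0
    (fun x y => ?_) (fun x y => ?_) (fun k x => Prod.ext (ea k x.1) (eb k x.2)) eψ
    (fun k _ => (smul_zero k).symm) (fun k x => Prod.ext (ea' k x.1) (eb' k x.2)) eψ'
    (fun k _ => (smul_zero k).symm) (fun v w => ?_) (fun v w => ?_) (fun v w h1 h2 h3 h4 => ?_)
    hg hg'
  · rw [D_apply, h]
    rfl
  · rw [D_apply, h']
    rfl
  · obtain ⟨x, hx⟩ := ha v.1
    obtain ⟨y, hy⟩ := hb v.2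
    obtain ⟨w', hw⟩ := hψ w
    exact ⟨(x, y), w', Prod.ext hx hy, (add_zero _).trans hw⟩
  · obtain ⟨x, hx⟩ := ha' v.1
    obtain ⟨y, hy⟩ := hb' v.2
    obtain ⟨w', hw⟩ := hψ' w
    exact ⟨(x, y), w', Prod.ext hx hy, (add_zero _).trans hw⟩
  · refine ⟨Prod.ext (ia _ (congrArg Prod.fst h1) (congrArg Prod.fst h3))
      (ib _ (congrArg Prod.snd h1) (congrArg Prod.snd h3)), iψ _ ?_ ?_⟩
    · exact (add_zero _).symm.trans h2
    · exact (add_zero _).symm.trans h4

theorem memA_of_L {f : Bil H X Y W} (h : L Z f) : MemA Z H X ∧ MemA Z H Y ∧ MemA Z H W := by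
  have h1 := memA_of_gr h
  exact ⟨memA_surj (AddMonoidHom.fst X Y) Prod.fst_surjective (fun _ _ => rfl) h1,
    memA_surj (AddMonoidHom.snd X Y) Prod.snd_surjective (fun _ _ => rfl) h1, memA_of_gr_w h⟩

/-- The pull-back of a biadditive map. -/
def cmp (f : Bil H X Y W) (a : X' →+ X) (b : Y' →+ Y) (ea : ∀ (k : H) x, a (k • x) = k • a x)
    (eb : ∀ (k : H) x, b (k • x) = k • b x) : Bil H X' Y' W :=
  Bil.mk' (fun x y => f (a x) (b y)) (fun x x' y => by rw [map_add, f.add_l])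
    (fun x y y' => by rw [map_add, f.add_r]) (fun h x y => by rw [ea, eb, f.eqv])

theorem cmp_apply (f : Bil H X Y W) (a : X' →+ X) (b : Y' →+ Y)
    (ea : ∀ (k : H) x, a (k • x) = k • a x) (eb : ∀ (k : H) x, b (k • x) = k • b x) (x : X')
    (y : Y') : cmp f a b ea eb x y = f (a x) (b y) := rfl

/-- The composition with a homomorphism. -/
def pst (f : Bil H X Y W) (ψ : W →+ W') (eψ : ∀ (k : H) x, ψ (k • x) = k • ψ x) : Bil H X Y W' :=
  Bil.mk' (fun x y => ψ (f x y)) (fun x x' y => by rw [f.add_l, map_add])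
    (fun x y y' => by rw [f.add_r, map_add]) (fun h x y => by rw [f.eqv, eψ])

theorem pst_apply (f : Bil H X Y W) (ψ : W →+ W') (eψ : ∀ (k : H) x, ψ (k • x) = k • ψ x) (x : X)
    (y : Y) : pst f ψ eψ x y = ψ (f x y) := rfl

/-- Restriction of the codomain. -/
theorem L_cod {f : Bil H X Y W} {g : Bil H X Y W'} (ι : W' →+ W) (hι : Function.Injective ι)
    (eι : ∀ (k : H) x, ι (k • x) = k • ι x) (h : ∀ x y, ι (g x y) = f x y) (hf : L Z f) :
    L Z g := by
  obtain ⟨hX, hY, hW⟩ := memA_of_L hf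
  let β : Bil H ((X × Y) × W) ((X × Y) × W) W' :=
    cmp (D g) (AddMonoidHom.fst (X × Y) W) (AddMonoidHom.fst (X × Y) W) (fun _ _ => rfl)
      (fun _ _ => rfl)
  have h1 : MemH Z H (Gr β) := by
    refine gr_sub_ab (β := β) (β' := D f) (AddMonoidHom.fst (X × Y) W) ι
      (AddMonoidHom.snd (X × Y) W) (AddMonoidHom.id ((X × Y) × W)) (fun x y => ?_)
      (fun _ _ => rfl) eι (fun _ _ => rfl) (fun _ _ => rfl) (fun v w => ⟨(v, w), 0, rfl, ?_⟩)
      (fun x => ⟨x, rfl⟩) (fun v w _ h2 h3 => ⟨h3, hι ?_⟩) hf (memA_prod (memA_prod hX hY) hW)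
    · change ι (g x.1.1 y.1.2) = f x.1.1 y.1.2
      rw [h]
    · change ι 0 + w = w
      rw [map_zero, zero_add]
    · have h3' : v = 0 := h3
      rw [h3'] at h2
      change ι w + 0 = 0 at h2
      rw [map_zero, ← h2, add_zero]
  refine gr_surj (β := β) (β' := D g) (AddMonoidHom.fst (X × Y) W) (AddMonoidHom.id W') 0
    (fun _ _ => rfl) (fun _ _ => rfl) (fun _ _ => rfl) (fun k _ => (smul_zero k).symm)
    (fun v w => ⟨(v, 0), w, rfl, add_zero w⟩) h1

/-- Extension of the codomain. -/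
theorem L_ext {f : Bil H X Y W} {g : Bil H X Y W'} (ψ : W' →+ W)
    (eψ : ∀ (k : H) x, ψ (k • x) = k • ψ x) (h : ∀ x y, ψ (g x y) = f x y) (hW : MemA Z H W)
    (hg : L Z g) : L Z f := by
  let β : Bil H ((X × Y) × W) ((X × Y) × W) W' :=
    cmp (D g) (AddMonoidHom.fst (X × Y) W) (AddMonoidHom.fst (X × Y) W) (fun _ _ => rfl)
      (fun _ _ => rfl)
  have h1 : MemH Z H (Gr β) := by
    refine gr_sub_ab (β := β) (β' := D g) (AddMonoidHom.fst (X × Y) W) (AddMonoidHom.id W') 0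
      (AddMonoidHom.snd (X × Y) W) (fun x y => rfl)
      (fun _ _ => rfl) (fun _ _ => rfl) (fun k _ => (smul_zero k).symm) (fun _ _ => rfl)
      (fun v w => ⟨(v, 0), w, rfl, add_zero w⟩)
      (fun x => ⟨(0, x), rfl⟩) (fun v w h1 h2 h3 => ⟨Prod.ext h1 h3, ?_⟩) hg hW
    exact (add_zero w).symm.trans h2
  refine gr_surj (β := β) (β' := D f) (AddMonoidHom.fst (X × Y) W) ψ (AddMonoidHom.snd (X × Y) W)
    (fun x y => ?_) (fun _ _ => rfl) eψ (fun k _ => rfl)
    (fun v w => ⟨(v, w), 0, rfl, ?_⟩) h1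
  · change ψ (g x.1.1 y.1.2) = f x.1.1 y.1.2
    rw [h]
  · change ψ 0 + w = w
    rw [map_zero, zero_add]

theorem L_pst {g : Bil H X Y W'} (ψ : W' →+ W)
    (eψ : ∀ (k : H) x, ψ (k • x) = k • ψ x) (hW : MemA Z H W)
    (hg : L Z g) : L Z (pst g ψ eψ) := L_ext ψ eψ (fun _ _ => rfl) hW hg

theorem D_add_aux (f g h : Bil H X Y W) (e : ∀ x y, h x y = f x y + g x y) (a b : X × Y) :
    D h a b = D f a b + D g a b := by
  rw [D_apply, D_apply, D_apply, e]

theorem L_add {f g h : Bil H X Y W} (e : ∀ x y, h x y = f x y + g x y) (hf : L Z f) (hg : L Z g) :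
    L Z h := by
  have h1 : MemH Z H (Gr (pr (D f) (D g))) :=
    gr_sub (β' := D f) (β'' := D g) (AddMonoidHom.id (X × Y)) (AddMonoidHom.fst W W) 0
      (AddMonoidHom.id (X × Y))
      (AddMonoidHom.snd W W) 0 (fun _ _ => rfl) (fun _ _ => rfl) (fun _ _ => rfl) (fun _ _ => rfl)
      (fun k _ => (smul_zero k).symm) (fun _ _ => rfl) (fun _ _ => rfl)
      (fun k _ => (smul_zero k).symm)
      (fun v w => ⟨v, (w, 0), rfl, add_zero w⟩) (fun v w => ⟨v, (0, w), rfl, add_zero w⟩)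
      (fun v w h1 h2 _ h4 => ⟨h1, Prod.ext ((add_zero w.1).symm.trans h2)
        ((add_zero w.2).symm.trans h4)⟩) hf hg
  refine gr_surj (β' := D h) (AddMonoidHom.id (X × Y))
    (AddMonoidHom.fst W W + AddMonoidHom.snd W W) 0 (fun x y => ?_) (fun _ _ => rfl)
    (fun k w => ?_) (fun k _ => (smul_zero k).symm) (fun v w => ⟨v, (w, 0), rfl, ?_⟩) h1
  · exact (D_add_aux f g h e x y).symm
  · exact (smul_add k w.1 w.2).symm
  · change w + 0 + 0 = w
    rw [add_zero, add_zero]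

theorem L_zero {f : Bil H X Y W} (h : ∀ x y, f x y = 0) (hX : MemA Z H X) (hY : MemA Z H Y)
    (hW : MemA Z H W) : L Z f := by
  have hD : ∀ x y, (AddMonoidHom.id W) (D f x y) = 0 := by
    intro x y
    change f x.1 y.2 = 0
    rw [h]
  refine mem_sub (abHom (β := D f) (AddMonoidHom.id (X × Y)) 0 (fun _ _ => rfl))
    (abHom (β := D f) 0 (AddMonoidHom.id W) hD) ?_ ?_
    (abHom_smul _ _ (fun _ _ => rfl) (fun _ _ => rfl) (fun k _ => (smul_zero k).symm))
    (abHom_smul _ _ hD (fun k _ => (smul_zero k).symm) (fun _ _ => rfl)) ?_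
    (memA_prod hX hY) hW
  · intro x
    refine ⟨⟨x.toAdd, 0⟩, ?_⟩
    change Multiplicative.ofAdd (x.toAdd + 0) = x
    rw [add_zero]
    rfl
  · intro x
    refine ⟨⟨0, x.toAdd⟩, ?_⟩
    change Multiplicative.ofAdd (0 + x.toAdd) = x
    rw [zero_add]
    rfl
  · rintro ⟨v, w⟩ h1 h2
    have e1 : v + 0 = 0 := congrArg Multiplicative.toAdd h1
    have e2 : 0 + w = 0 := congrArg Multiplicative.toAdd h2
    rw [add_zero] at e1
    rw [zero_add] at e2
    exact Gr.ext e1 e2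

theorem L_congr {f g : Bil H X Y W} (h : ∀ x y, f x y = g x y) (hf : L Z f) : L Z g := by
  refine L_sur (AddMonoidHom.id X) (AddMonoidHom.id Y) (AddMonoidHom.id W)
    Function.surjective_id Function.surjective_id Function.surjective_id (fun _ _ => rfl)
    (fun _ _ => rfl) (fun _ _ => rfl) h hf

/-- Pull-back in the first variable. -/
theorem L_pre_l {f : Bil H X Y W} {g : Bil H X' Y W} (a : X' →+ X)
    (ea : ∀ (k : H) x, a (k • x) = k • a x) (h : ∀ x y, g x y = f (a x) y) (hX : MemA Z H X')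
    (hf : L Z f) : L Z g := by
  let φ : X' × (X × Y) →+ X × Y :=
    { toFun := fun v => (v.2.1 + a v.1, v.2.2)
      map_zero' := by
        change ((0 : X) + a 0, (0 : Y)) = 0
        rw [map_zero, add_zero]
        rfl
      map_add' := fun v v' => by
        refine Prod.ext ?_ rfl
        change v.2.1 + v'.2.1 + a (v.1 + v'.1) = (v.2.1 + a v.1) + (v'.2.1 + a v'.1)
        rw [map_add]
        abel }
  have eφ : ∀ (k : H) v, φ (k • v) = k • φ v := by
    intro k v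
    refine Prod.ext ?_ rfl
    change k • v.2.1 + a (k • v.1) = k • (v.2.1 + a v.1)
    rw [ea, smul_add]
  let φ' : X' × (X × Y) →+ X × Y := AddMonoidHom.snd X' (X × Y)
  let β : Bil H (X' × (X × Y)) (X' × (X × Y)) (W × W) :=
    pr (cmp (D f) φ φ eφ eφ) (cmp (D f) φ' φ' (fun _ _ => rfl) (fun _ _ => rfl))
  let β₁ : Bil H (X × Y) (X × Y) W := D f
  -- the twisted product of `Gr (D f)` and `X'`
  have h1 : MemH Z H (Gr (cmp (D f) φ φ eφ eφ)) := by
    refine gr_sub_ab (β' := D f) φ (AddMonoidHom.id W) 0 (AddMonoidHom.fst X' (X × Y))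
      (fun _ _ => rfl) eφ (fun _ _ => rfl) (fun k _ => (smul_zero k).symm) (fun _ _ => rfl)
      (fun v w => ⟨(0, v), w, ?_, add_zero w⟩) (fun x => ⟨(x, 0), rfl⟩)
      (fun v w h1 h2 h3 => ?_) hf hX
    · refine Prod.ext ?_ rfl
      change v.1 + a 0 = v.1
      rw [map_zero, add_zero]
    · have h3' : v.1 = 0 := h3
      have h4 : v.2.1 + a v.1 = 0 := congrArg Prod.fst h1
      have h5 : v.2.2 = 0 := congrArg Prod.snd h1
      rw [h3', map_zero, add_zero] at h4
      exact ⟨Prod.ext h3' (Prod.ext h4 h5), (add_zero w).symm.trans h2⟩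
  have h2 : MemH Z H (Gr β) := by
    refine gr_sub (β := β) (β' := cmp (D f) φ φ eφ eφ) (β'' := D f) (AddMonoidHom.id _)
      (AddMonoidHom.fst W W) 0 φ' (AddMonoidHom.snd W W) 0 (fun _ _ => rfl) (fun _ _ => rfl)
      (fun _ _ => rfl) (fun _ _ => rfl) (fun k _ => (smul_zero k).symm) (fun _ _ => rfl)
      (fun _ _ => rfl) (fun k _ => (smul_zero k).symm)
      (fun v w => ⟨v, (w, 0), rfl, add_zero w⟩) (fun v w => ⟨(0, v), (0, w), rfl, add_zero w⟩)
      (fun v w h1 h2 _ h4 => ⟨h1, Prod.ext ((add_zero w.1).symm.trans h2)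
        ((add_zero w.2).symm.trans h4)⟩) h1 hf
  let φ'' : X' × (X × Y) →+ X' × Y :=
    (AddMonoidHom.fst X' (X × Y)).prod ((AddMonoidHom.snd X Y).comp (AddMonoidHom.snd X' (X × Y)))
  refine gr_surj (β := β) (β' := D g) φ'' (AddMonoidHom.fst W W - AddMonoidHom.snd W W) 0
    (fun x y => ?_) (fun _ _ => rfl) (fun k w => ?_) (fun k _ => (smul_zero k).symm)
    (fun v w => ⟨(v.1, (0, v.2)), (w, 0), rfl, ?_⟩) h2
  · change f (x.2.1 + a x.1) y.2.2 - f x.2.1 y.2.2 = g x.1 y.2.2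
    rw [h, f.add_l]
    abel
  · exact (smul_sub k w.1 w.2).symm
  · change w - 0 + 0 = w
    rw [add_zero, sub_zero]

/-- Pull-back in the second variable. -/
theorem L_pre_r {f : Bil H X Y W} {g : Bil H X Y' W} (a : Y' →+ Y)
    (ea : ∀ (k : H) x, a (k • x) = k • a x) (h : ∀ x y, g x y = f x (a y)) (hY : MemA Z H Y')
    (hf : L Z f) : L Z g := by
  let φ : Y' × (X × Y) →+ X × Y :=
    { toFun := fun v => (v.2.1, v.2.2 + a v.1)
      map_zero' := by
        change ((0 : X), (0 : Y) + a 0) = 0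
        rw [map_zero, add_zero]
        rfl
      map_add' := fun v v' => by
        refine Prod.ext rfl ?_
        change v.2.2 + v'.2.2 + a (v.1 + v'.1) = (v.2.2 + a v.1) + (v'.2.2 + a v'.1)
        rw [map_add]
        abel }
  have eφ : ∀ (k : H) v, φ (k • v) = k • φ v := by
    intro k v
    refine Prod.ext rfl ?_
    change k • v.2.2 + a (k • v.1) = k • (v.2.2 + a v.1)
    rw [ea, smul_add]
  let φ' : Y' × (X × Y) →+ X × Y := AddMonoidHom.snd Y' (X × Y)
  let β : Bil H (Y' × (X × Y)) (Y' × (X × Y)) (W × W) :=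
    pr (cmp (D f) φ φ eφ eφ) (cmp (D f) φ' φ' (fun _ _ => rfl) (fun _ _ => rfl))
  -- the twisted product of `Gr (D f)` and `Y'`
  have h1 : MemH Z H (Gr (cmp (D f) φ φ eφ eφ)) := by
    refine gr_sub_ab (β' := D f) φ (AddMonoidHom.id W) 0 (AddMonoidHom.fst Y' (X × Y))
      (fun _ _ => rfl) eφ (fun _ _ => rfl) (fun k _ => (smul_zero k).symm) (fun _ _ => rfl)
      (fun v w => ⟨(0, v), w, ?_, add_zero w⟩) (fun x => ⟨(x, 0), rfl⟩)
      (fun v w h1 h2 h3 => ?_) hf hY
    · refine Prod.ext rfl ?_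
      change v.2 + a 0 = v.2
      rw [map_zero, add_zero]
    · have h3' : v.1 = 0 := h3
      have h4 : v.2.1 = 0 := congrArg Prod.fst h1
      have h5 : v.2.2 + a v.1 = 0 := congrArg Prod.snd h1
      rw [h3', map_zero, add_zero] at h5
      exact ⟨Prod.ext h3' (Prod.ext h4 h5), (add_zero w).symm.trans h2⟩
  have h2 : MemH Z H (Gr β) := by
    refine gr_sub (β := β) (β' := cmp (D f) φ φ eφ eφ) (β'' := D f) (AddMonoidHom.id _)
      (AddMonoidHom.fst W W) 0 φ' (AddMonoidHom.snd W W) 0 (fun _ _ => rfl) (fun _ _ => rfl)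
      (fun _ _ => rfl) (fun _ _ => rfl) (fun k _ => (smul_zero k).symm) (fun _ _ => rfl)
      (fun _ _ => rfl) (fun k _ => (smul_zero k).symm)
      (fun v w => ⟨v, (w, 0), rfl, add_zero w⟩) (fun v w => ⟨(0, v), (0, w), rfl, add_zero w⟩)
      (fun v w h1 h2 _ h4 => ⟨h1, Prod.ext ((add_zero w.1).symm.trans h2)
        ((add_zero w.2).symm.trans h4)⟩) h1 hf
  let φ'' : Y' × (X × Y) →+ X × Y' :=
    ((AddMonoidHom.fst X Y).comp (AddMonoidHom.snd Y' (X × Y))).prod (AddMonoidHom.fst Y' (X × Y))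
  refine gr_surj (β := β) (β' := D g) φ'' (AddMonoidHom.fst W W - AddMonoidHom.snd W W) 0
    (fun x y => ?_) (fun _ _ => rfl) (fun k w => ?_) (fun k _ => (smul_zero k).symm)
    (fun v w => ⟨(v.2, (v.1, 0)), (w, 0), rfl, ?_⟩) h2
  · change f x.2.1 (y.2.2 + a y.1) - f x.2.1 y.2.2 = g x.2.1 y.1
    rw [h, f.add_r]
    abel
  · exact (smul_sub k w.1 w.2).symm
  · change w - 0 + 0 = w
    rw [add_zero, sub_zero]

theorem L_cmp {f : Bil H X Y W} {g : Bil H X' Y' W} (a : X' →+ X) (b : Y' →+ Y)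
    (ea : ∀ (k : H) x, a (k • x) = k • a x) (eb : ∀ (k : H) x, b (k • x) = k • b x)
    (h : ∀ x y, g x y = f (a x) (b y)) (hX : MemA Z H X') (hY : MemA Z H Y')
    (hf : L Z f) : L Z g :=
  L_pre_r (f := cmp f a (AddMonoidHom.id Y) ea (fun _ _ => rfl)) b eb h hY
    (L_pre_l a ea (fun _ _ => rfl) hX hf)

end

section

variable {V W : Type} [AddCommGroup V] [AddCommGroup W] [DistribMulAction H V]
  [DistribMulAction H W] [Finite V] [Finite W]

/-- The diagonal. -/
theorem L_diag (β : Bil H V V W) (h : L Z β) : MemH Z H (Gr β) := by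
  have h' : MemH Z H (Gr (D β)) := h
  let s : V × V →+ V × V :=
    (AddMonoidHom.fst V V).prod (AddMonoidHom.fst V V + AddMonoidHom.snd V V)
  have es : ∀ (k : H) x, s (k • x) = k • s x := fun k x =>
    Prod.ext rfl (smul_add k x.1 x.2).symm
  have m : MemH Z H (Gr (pr (cmp (D β) s s es es) (D β))) := by
    refine gr_sub (β' := D β) (β'' := D β) s (AddMonoidHom.fst W W) 0
      (AddMonoidHom.id (V × V))
      (AddMonoidHom.snd W W) 0 (fun _ _ => rfl) (fun _ _ => rfl) es (fun _ _ => rfl)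
      (fun k _ => (smul_zero k).symm) (fun _ _ => rfl) (fun _ _ => rfl)
      (fun k _ => (smul_zero k).symm)
      (fun v w => ⟨(v.1, v.2 - v.1), (w, 0), ?_, add_zero w⟩)
      (fun v w => ⟨v, (0, w), rfl, add_zero w⟩)
      (fun v w h1 h2 h3 h4 => ⟨h3, Prod.ext ((add_zero w.1).symm.trans h2)
        ((add_zero w.2).symm.trans h4)⟩) h' h'
    refine Prod.ext rfl ?_
    change v.1 + (v.2 - v.1) = v.2
    abel
  refine gr_surj (β' := β) (AddMonoidHom.fst V V) (AddMonoidHom.fst W W - AddMonoidHom.snd W W) 0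
    (fun x y => ?_) (fun _ _ => rfl) (fun k w => ?_) (fun k _ => (smul_zero k).symm)
    (fun v w => ⟨(v, 0), (w, 0), rfl, ?_⟩) m
  · change β x.1 (y.1 + y.2) - β x.1 y.2 = β x.1 y.1
    rw [β.add_r]
    abel
  · exact (smul_sub k w.1 w.2).symm
  · change w - 0 + 0 = w
    rw [add_zero, sub_zero]

end

end Pool.Agent.Fcl2
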