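import Pool.Agent.Formn.Basic

/-!
# Formations and groups with a normal Sylow subgroup of class two: definitions

`H` is a finite group (later abelian), `H`-groups are finite groups with an action of `H` by
automorphisms, `H`-modules are finite abelian groups with an action of `H`.
-/

set_option autoImplicit false

namespace Pool.Agent.Fcl2

open Pool.Agent.Formn

instance finite_sdp {N G : Type*} [Group N] [Group G] [Finite N] [Finite G] (φ : G →* MulAut N) :
    Finite (N ⋊[φ] G) :=
  Finite.of_equiv _ (SemidirectProduct.equivProd (φ := φ)).symm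

/-- The action of `H` on an `H`-module in multiplicative notation. -/
instance multAct {H V : Type*} [Monoid H] [AddMonoid V] [DistribMulAction H V] :
    MulDistribMulAction H (Multiplicative V) where
  smul h x := Multiplicative.ofAdd (h • x.toAdd)
  one_smul x := congrArg Multiplicative.ofAdd (one_smul H x.toAdd)
  mul_smul g h x := congrArg Multiplicative.ofAdd (mul_smul g h x.toAdd)
  smul_one h := congrArg Multiplicative.ofAdd (smul_zero (A := V) h)
  smul_mul h x y := congrArg Multiplicative.ofAdd (smul_add h x.toAdd y.toAdd)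

theorem toAdd_smul {H V : Type*} [Monoid H] [AddMonoid V] [DistribMulAction H V] (h : H)
    (x : Multiplicative V) : (h • x).toAdd = h • x.toAdd := rfl

/-- The semidirect product of the `H`-group `P` and `H`. -/
abbrev E (H P : Type) [Group H] [Group P] [MulDistribMulAction H P] : Type :=
  P ⋊[MulDistribMulAction.toMulAut H P] H

/-- The `H`-group `P` belongs to the formation `X`: the semidirect product does. -/
def MemH (X : Formation) (H P : Type) [Group H] [Finite H] [Group P] [Finite P]
    [MulDistribMulAction H P] : Prop :=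
  X.mem (E H P)

/-- The `H`-module `V` belongs to the formation `X`. -/
def MemA (X : Formation) (H V : Type) [Group H] [Finite H] [AddCommGroup V] [Finite V]
    [DistribMulAction H V] : Prop :=
  MemH X H (Multiplicative V)

/-- Biadditive maps `V × Y → W` which commute with the action of `H`. -/
structure Bil (H V Y W : Type) [Group H] [AddCommGroup V] [AddCommGroup Y] [AddCommGroup W]
    [DistribMulAction H V] [DistribMulAction H Y] [DistribMulAction H W] : Type where
  /-- the biadditive map -/
  f : V →+ Y →+ W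
  eq : ∀ (h : H) (x : V) (y : Y), f (h • x) (h • y) = h • f x y

variable {H V Y W : Type} [Group H] [AddCommGroup V] [AddCommGroup Y] [AddCommGroup W]
    [DistribMulAction H V] [DistribMulAction H Y] [DistribMulAction H W]

instance : CoeFun (Bil H V Y W) (fun _ => V → Y → W) := ⟨fun β x y => β.f x y⟩

namespace Bil

variable (β : Bil H V Y W)

theorem eqv (h : H) (x : V) (y : Y) : β (h • x) (h • y) = h • β x y := β.eq h x y
theorem add_l (x x' : V) (y : Y) : β (x + x') y = β x y + β x' y := by simp
theorem add_r (x : V) (y y' : Y) : β x (y + y') = β x y + β x y' := by simp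
theorem zero_l (y : Y) : β 0 y = 0 := by simp
theorem zero_r (x : V) : β x 0 = 0 := by simp
theorem neg_l (x : V) (y : Y) : β (-x) y = -β x y := by simp
theorem neg_r (x : V) (y : Y) : β x (-y) = -β x y := by simp
theorem sub_l (x x' : V) (y : Y) : β (x - x') y = β x y - β x' y := by simp
theorem sub_r (x : V) (y y' : Y) : β x (y - y') = β x y - β x y' := by simp

/-- A way to construct biadditive maps. -/
def mk' (g : V → Y → W) (h1 : ∀ x x' y, g (x + x') y = g x y + g x' y)
    (h2 : ∀ x y y', g x (y + y') = g x y + g x y') (h3 : ∀ (h : H) x y, g (h • x) (h • y) = h • g x y) :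
    Bil H V Y W where
  f := AddMonoidHom.mk' (fun x => AddMonoidHom.mk' (g x) (h2 x)) (fun x x' => by
    ext y
    exact h1 x x' y)
  eq := h3

@[simp]
theorem mk'_apply (g : V → Y → W) (h1 : ∀ x x' y, g (x + x') y = g x y + g x' y)
    (h2 : ∀ x y y', g x (y + y') = g x y + g x y') (h3 : ∀ (h : H) x y, g (h • x) (h • y) = h • g x y)
    (x : V) (y : Y) : (mk' g h1 h2 h3) x y = g x y := rfl

end Bil

/-- The group `V × W` with the multiplication `(v, w) (v', w') = (v + v', w + w' + β v v')`. -/
@[ext]
structure Gr (β : Bil H V V W) : Type where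
  /-- first component -/
  v : V
  /-- second component -/
  w : W

namespace Gr

variable {β : Bil H V V W}

instance : Mul (Gr β) := ⟨fun a b => ⟨a.v + b.v, a.w + b.w + β a.v b.v⟩⟩
instance : One (Gr β) := ⟨⟨0, 0⟩⟩
instance : Inv (Gr β) := ⟨fun a => ⟨-a.v, -a.w + β a.v a.v⟩⟩

theorem mul_v (a b : Gr β) : (a * b).v = a.v + b.v := rfl
theorem mul_w (a b : Gr β) : (a * b).w = a.w + b.w + β a.v b.v := rfl
theorem one_v : (1 : Gr β).v = 0 := rfl
theorem one_w : (1 : Gr β).w = 0 := rfl
theorem inv_v (a : Gr β) : (a⁻¹).v = -a.v := rfl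
theorem inv_w (a : Gr β) : (a⁻¹).w = -a.w + β a.v a.v := rfl

instance : Group (Gr β) := Group.ofLeftAxioms
  (fun a b c => by
    apply Gr.ext
    · simp only [mul_v]; abel
    · simp only [mul_v, mul_w, β.add_l, β.add_r]; abel)
  (fun a => by
    apply Gr.ext
    · simp only [mul_v, one_v]; abel
    · simp only [mul_w, one_w, one_v, β.zero_l]; abel)
  (fun a => by
    apply Gr.ext
    · simp only [mul_v, inv_v, one_v]; abel
    · simp only [mul_w, inv_w, inv_v, one_w, β.neg_l]; abel)

instance : SMul H (Gr β) := ⟨fun h a => ⟨h • a.v, h • a.w⟩⟩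

theorem smul_v (h : H) (a : Gr β) : (h • a).v = h • a.v := rfl
theorem smul_w (h : H) (a : Gr β) : (h • a).w = h • a.w := rfl

instance : MulDistribMulAction H (Gr β) where
  one_smul a := by
    apply Gr.ext
    · rw [smul_v, one_smul]
    · rw [smul_w, one_smul]
  mul_smul g h a := by
    apply Gr.ext
    · simp only [smul_v, mul_smul]
    · simp only [smul_w, mul_smul]
  smul_one h := by
    apply Gr.ext
    · rw [smul_v, one_v, smul_zero]
    · rw [smul_w, one_w, smul_zero]
  smul_mul h a b := by
    apply Gr.ext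
    · simp only [smul_v, mul_v, smul_add]
    · simp only [smul_w, smul_v, mul_w, smul_add, β.eqv]

/-- `Gr β` as a product. -/
def equivProd : Gr β ≃ V × W where
  toFun a := (a.v, a.w)
  invFun a := ⟨a.1, a.2⟩
  left_inv _ := rfl
  right_inv _ := rfl

instance [Finite V] [Finite W] : Finite (Gr β) := Finite.of_equiv _ equivProd.symm

end Gr

/-- The biadditive map on `V × Y` defined by `f`. -/
def D (f : Bil H V Y W) : Bil H (V × Y) (V × Y) W :=
  Bil.mk' (fun a b => f a.1 b.2)
    (fun a a' b => f.add_l a.1 a'.1 b.2)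
    (fun a b b' => f.add_r a.1 b.2 b'.2)
    (fun h a b => f.eqv h a.1 b.2)

theorem D_apply (f : Bil H V Y W) (a b : V × Y) : D f a b = f a.1 b.2 := rfl

/-- The group defined by the biadditive map `f` belongs to the formation `X`. -/
def L (X : Formation) [Finite H] [Finite V] [Finite Y] [Finite W] (f : Bil H V Y W) : Prop :=
  MemH X H (Gr (D f))

/-- The data of a central series of length two of the `H`-group `P`: an `H`-homomorphism `π` onto
the `H`-module `V` and an injective `H`-homomorphism `j` from the `H`-module `W` to the centre of `P`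
such that the commutator map of `P` is given by a biadditive map `c : V × V → W`. -/
structure Fac (H P V W : Type) [Group H] [Group P] [MulDistribMulAction H P] [AddCommGroup V]
    [AddCommGroup W] [DistribMulAction H V] [DistribMulAction H W] : Type where
  /-- the projection -/
  π : P →* Multiplicative V
  /-- the inclusion -/
  j : Multiplicative W →* P
  /-- the commutator map -/
  c : Bil H V V W
  π_surj : Function.Surjective π
  π_smul : ∀ (h : H) (x : P), π (h • x) = h • π x
  j_inj : Function.Injective j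
  j_smul : ∀ (h : H) (w : Multiplicative W), j (h • w) = h • j w
  j_cen : ∀ (w : Multiplicative W) (x : P), j w * x = x * j w
  πj : ∀ w : Multiplicative W, π (j w) = 1
  comm : ∀ x y : P, j (Multiplicative.ofAdd (c (π x).toAdd (π y).toAdd)) = x * y * x⁻¹ * y⁻¹

/-- Integer multiples of biadditive maps. -/
def Bil.zs (k : ℤ) (f : Bil H V Y W) : Bil H V Y W :=
  Bil.mk' (fun x y => k • f x y) (fun x x' y => by rw [f.add_l, smul_add])
    (fun x y y' => by rw [f.add_r, smul_add]) (fun h x y => by rw [f.eqv, smul_comm])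

theorem Bil.zs_apply (k : ℤ) (f : Bil H V Y W) (x : V) (y : Y) : f.zs k x y = k • f x y := rfl

/-- The group `P` with the new multiplication `x y j(γ (π x) (π y))`. -/
@[ext]
structure Tw {P : Type} [Group P] [MulDistribMulAction H P] (F : Fac H P V W) (γ : Bil H V V W) :
    Type where
  /-- the element of `P` -/
  val : P

namespace Tw

variable {P : Type} [Group P] [MulDistribMulAction H P] {F : Fac H P V W} {γ : Bil H V V W}

/-- The new factor. -/
def g (F : Fac H P V W) (γ : Bil H V V W) (x y : P) : P :=
  F.j (Multiplicative.ofAdd (γ (F.π x).toAdd (F.π y).toAdd))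

theorem g_cen (x y z : P) : g F γ x y * z = z * g F γ x y := F.j_cen _ z

theorem g_mul_l (x x' y : P) : g F γ (x * x') y = g F γ x y * g F γ x' y := by
  unfold g
  rw [map_mul, toAdd_mul, γ.add_l, ofAdd_add, map_mul]

theorem g_mul_r (x y y' : P) : g F γ x (y * y') = g F γ x y * g F γ x y' := by
  unfold g
  rw [map_mul, toAdd_mul, γ.add_r, ofAdd_add, map_mul]

theorem g_g_l (x y z : P) : g F γ (g F γ x y) z = 1 := by
  have h : F.π (g F γ x y) = 1 := F.πj _
  unfold g at h ⊢
  rw [h, toAdd_one, γ.zero_l, ofAdd_zero, map_one]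

theorem g_g_r (x y z : P) : g F γ z (g F γ x y) = 1 := by
  have h : F.π (g F γ x y) = 1 := F.πj _
  unfold g at h ⊢
  rw [h, toAdd_one, γ.zero_r, ofAdd_zero, map_one]

theorem g_one_l (y : P) : g F γ 1 y = 1 := by
  unfold g
  rw [map_one, toAdd_one, γ.zero_l, ofAdd_zero, map_one]

theorem g_inv_l (x y : P) : g F γ x⁻¹ y = (g F γ x y)⁻¹ := by
  rw [eq_inv_iff_mul_eq_one, ← g_mul_l, inv_mul_cancel, g_one_l]

theorem g_smul (h : H) (x y : P) : g F γ (h • x) (h • y) = h • g F γ x y := by
  unfold g
  rw [F.π_smul, F.π_smul, toAdd_smul, toAdd_smul, γ.eqv, ← F.j_smul]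
  rfl

instance : Mul (Tw F γ) := ⟨fun a b => ⟨a.val * b.val * g F γ a.val b.val⟩⟩
instance : One (Tw F γ) := ⟨⟨1⟩⟩
instance : Inv (Tw F γ) := ⟨fun a => ⟨a.val⁻¹ * g F γ a.val a.val⟩⟩

theorem mul_val (a b : Tw F γ) : (a * b).val = a.val * b.val * g F γ a.val b.val := rfl
theorem one_val : (1 : Tw F γ).val = 1 := rfl
theorem inv_val (a : Tw F γ) : (a⁻¹).val = a.val⁻¹ * g F γ a.val a.val := rfl

instance : Group (Tw F γ) := Group.ofLeftAxioms
  (fun a b c => by
    apply Tw.ext
    simp only [mul_val, g_mul_l, g_mul_r, g_g_l, g_g_r, mul_one]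
    have h1 := g_cen (F := F) (γ := γ) a.val b.val c.val
    have h2 := g_cen (F := F) (γ := γ) a.val b.val (g F γ a.val c.val)
    simp only [mul_assoc]
    congr 2
    rw [← mul_assoc, h1, mul_assoc]
    congr 1
    rw [← mul_assoc, h2, ← g_cen b.val c.val])
  (fun a => by
    apply Tw.ext
    rw [mul_val, one_val, g_one_l, one_mul, mul_one])
  (fun a => by
    apply Tw.ext
    rw [mul_val, inv_val, g_mul_l, g_g_l, g_inv_l, mul_one, one_val, mul_assoc a.val⁻¹,
      g_cen, ← mul_assoc, inv_mul_cancel, one_mul, mul_inv_cancel])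

instance : SMul H (Tw F γ) := ⟨fun h a => ⟨h • a.val⟩⟩

theorem smul_val (h : H) (a : Tw F γ) : (h • a).val = h • a.val := rfl

instance : MulDistribMulAction H (Tw F γ) where
  one_smul a := by
    apply Tw.ext
    rw [smul_val, one_smul]
  mul_smul g h a := by
    apply Tw.ext
    simp only [smul_val, mul_smul]
  smul_one h := by
    apply Tw.ext
    rw [smul_val, one_val, smul_one]
  smul_mul h a b := by
    apply Tw.ext
    simp only [smul_val, mul_val, smul_mul', g_smul]

instance [Finite P] : Finite (Tw F γ) :=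
  Finite.of_equiv P ⟨fun x => ⟨x⟩, fun a => a.val, fun _ => rfl, fun _ => rfl⟩

end Tw

/-! ## Supersoluble groups -/

/-- `G` is supersoluble: there is a chain of normal subgroups from `1` to `G` with cyclic factors. -/
def Supersol (G : Type) [Group G] : Prop :=
  ∃ (n : ℕ) (K : ℕ → Subgroup G), K 0 = ⊥ ∧ K n = ⊤ ∧ (∀ i, (K i).Normal) ∧
    ∀ i, ∃ g : G, K (i + 1) = K i ⊔ Subgroup.zpowers g

/-- `G` is supersoluble, its Sylow `p`-subgroups have class at most `c` and all its other Sylow
subgroups are abelian. -/
def UC (p c : ℕ) (G : Type) [Group G] : Prop :=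
  Supersol G ∧ (∀ P : Sylow p G, (P : Subgroup G).lowerCentralSeries c = ⊥) ∧
    ∀ q : ℕ, q.Prime → q ≠ p → ∀ Q : Sylow q G, ∀ x ∈ Q, ∀ y ∈ Q, x * y = y * x

end Pool.Agent.Fcl2
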