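import Pool.Agent.Fcl2.Targets

/-!
# Supersoluble groups
-/

set_option autoImplicit false

namespace Pool.Agent.Fcl2

open scoped commutatorElement

namespace U_

variable {G : Type} [Group G]

/-- a subgroup of a cyclic extension is a cyclic extension -/
theorem cyc_sub (N S : Subgroup G) [N.Normal] (g : G) (h : S ≤ N ⊔ Subgroup.zpowers g) :
    ∃ s ∈ S, S = (S ⊓ N) ⊔ Subgroup.zpowers s := by
  have h1 : S.map (QuotientGroup.mk' N) ≤ Subgroup.zpowers (QuotientGroup.mk' N g) := by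
    refine (Subgroup.map_mono h).trans ?_
    rw [Subgroup.map_sup, MonoidHom.map_zpowers]
    refine sup_le ?_ le_rfl
    rw [Subgroup.map_le_iff_le_comap]
    intro x hx
    rw [Subgroup.mem_comap]
    have : QuotientGroup.mk' N x = 1 := (QuotientGroup.eq_one_iff x).mpr hx
    rw [this]
    exact Subgroup.one_mem _
  have h2 : IsCyclic (S.map (QuotientGroup.mk' N)) := by
    have h3 : IsCyclic ((S.map (QuotientGroup.mk' N)).subgroupOf
        (Subgroup.zpowers (QuotientGroup.mk' N g))) := inferInstance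
    exact isCyclic_of_surjective (Subgroup.subgroupOfEquivOfLe h1)
      (Subgroup.subgroupOfEquivOfLe h1).surjective
  obtain ⟨⟨c, hc⟩, hgen⟩ := h2.exists_generator
  obtain ⟨s, hs, rfl⟩ := hc
  refine ⟨s, hs, le_antisymm ?_ ?_⟩
  · intro t ht
    have h4 := hgen ⟨QuotientGroup.mk' N t, Subgroup.mem_map_of_mem _ ht⟩
    obtain ⟨k, hk⟩ := Subgroup.mem_zpowers_iff.mp h4
    have h5 : (QuotientGroup.mk' N s) ^ k = QuotientGroup.mk' N t := by
      have := congrArg Subtype.val hk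
      simpa using this
    have h6 : t * (s ^ k)⁻¹ ∈ N := by
      rw [← QuotientGroup.eq_one_iff]
      change QuotientGroup.mk' N (t * (s ^ k)⁻¹) = 1
      rw [map_mul, map_inv, map_zpow, h5, mul_inv_cancel]
    have h7 : t * (s ^ k)⁻¹ ∈ S := S.mul_mem ht (S.inv_mem (S.zpow_mem hs k))
    have h8 : t = t * (s ^ k)⁻¹ * s ^ k := by rw [inv_mul_cancel_right]
    rw [h8]
    exact Subgroup.mul_mem_sup ⟨h7, h6⟩ (Subgroup.zpow_mem _ (Subgroup.mem_zpowers s) k)
  · refine sup_le inf_le_left ?_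
    rw [Subgroup.zpowers_le]
    exact hs

theorem supersol_map {G' : Type} [Group G'] (f : G →* G') (hf : Function.Surjective f)
    (h : Supersol G) : Supersol G' := by
  obtain ⟨n, K, h0, hn, hN, hc⟩ := h
  refine ⟨n, fun i => (K i).map f, ?_, ?_, fun i => (hN i).map f hf, fun i => ?_⟩
  · simp only [h0, Subgroup.map_bot]
  · simp only [hn, Subgroup.map_top_of_surjective f hf]
  · obtain ⟨g, hg⟩ := hc i
    refine ⟨f g, ?_⟩
    simp only [hg]
    rw [Subgroup.map_sup, MonoidHom.map_zpowers]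

theorem comap_step {G' : Type} [Group G'] (f : G →* G') (hf : Function.Surjective f)
    (K K' : Subgroup G') (g : G') (h : K' = K ⊔ Subgroup.zpowers g) :
    ∃ x : G, K'.comap f = K.comap f ⊔ Subgroup.zpowers x := by
  obtain ⟨x, rfl⟩ := hf g
  refine ⟨x, ?_⟩
  rw [h]
  apply le_antisymm
  · rw [← Subgroup.comap_sup_eq f K (Subgroup.zpowers (f x)) hf]
    refine sup_le le_sup_left ?_
    intro y hy
    rw [Subgroup.mem_comap, Subgroup.mem_zpowers_iff] at hy
    obtain ⟨k, hk⟩ := hy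
    have h1 : y * (x ^ k)⁻¹ ∈ K.comap f := by
      rw [Subgroup.mem_comap, map_mul, map_inv, map_zpow, hk, mul_inv_cancel]
      exact K.one_mem
    have h8 : y = y * (x ^ k)⁻¹ * x ^ k := by rw [inv_mul_cancel_right]
    rw [h8]
    exact Subgroup.mul_mem_sup h1 (Subgroup.zpow_mem _ (Subgroup.mem_zpowers x) k)
  · refine sup_le (Subgroup.comap_mono le_sup_left) ?_
    rw [Subgroup.zpowers_le, Subgroup.mem_comap]
    exact Subgroup.mem_sup_right (Subgroup.mem_zpowers _)

theorem supersol_sub {G₁ G₂ : Type} [Group G₁] [Group G₂] (f₁ : G →* G₁) (f₂ : G →* G₂)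
    (hf₁ : Function.Surjective f₁) (hf₂ : Function.Surjective f₂)
    (hk : ∀ x, f₁ x = 1 → f₂ x = 1 → x = 1) (h₁ : Supersol G₁) (h₂ : Supersol G₂) :
    Supersol G := by
  obtain ⟨n₁, K₁, h0₁, hn₁, hN₁, hc₁⟩ := h₁
  obtain ⟨n₂, K₂, h0₂, hn₂, hN₂, hc₂⟩ := h₂
  have hA : ∀ i, ((K₁ i).comap f₁).Normal := fun i => (hN₁ i).comap f₁
  have hB : ∀ i, (f₁.ker ⊓ (K₂ i).comap f₂).Normal := fun i => by
    have := (hN₂ i).comap f₂
    infer_instance
  have hker : (K₁ 0).comap f₁ = f₁.ker := by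
    rw [h0₁, MonoidHom.comap_bot]
  have hkerB : f₁.ker ⊓ (K₂ n₂).comap f₂ = f₁.ker := by
    rw [hn₂, Subgroup.comap_top, inf_top_eq]
  refine ⟨n₂ + n₁, fun i => if i ≤ n₂ then f₁.ker ⊓ (K₂ i).comap f₂ else (K₁ (i - n₂)).comap f₁,
    ?_, ?_, ?_, ?_⟩
  · simp only [Nat.zero_le, if_true, h0₂, MonoidHom.comap_bot]
    rw [eq_bot_iff]
    rintro x ⟨h3, h4⟩
    exact Subgroup.mem_bot.mpr (hk x h3 h4)
  · by_cases h : n₂ + n₁ ≤ n₂
    · have h5 : n₁ = 0 := by omega
      subst h5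
      simp only [add_zero, le_refl, if_true]
      rw [hkerB, ← hker, hn₁, Subgroup.comap_top]
    · simp only [if_neg h, Nat.add_sub_cancel_left, hn₁, Subgroup.comap_top]
  · intro i
    by_cases h : i ≤ n₂
    · simp only [if_pos h]
      exact hB i
    · simp only [if_neg h]
      exact hA _
  · intro i
    rcases lt_trichotomy i n₂ with h | h | h
    · have h6 : i + 1 ≤ n₂ := h
      simp only [if_pos h6, if_pos h.le]
      obtain ⟨g, hg⟩ := hc₂ i
      obtain ⟨x, hx⟩ := comap_step f₂ hf₂ (K₂ i) (K₂ (i + 1)) g hg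
      have := (hN₂ i).comap f₂
      obtain ⟨s, _, hs⟩ := cyc_sub ((K₂ i).comap f₂) (f₁.ker ⊓ (K₂ (i + 1)).comap f₂) x
        (by rw [← hx]; exact inf_le_right)
      refine ⟨s, ?_⟩
      have h7 : f₁.ker ⊓ (K₂ (i + 1)).comap f₂ ⊓ (K₂ i).comap f₂ =
          f₁.ker ⊓ (K₂ i).comap f₂ := by
        rw [inf_assoc]
        congr 1
        apply inf_eq_right.mpr
        rw [hx]
        exact le_sup_left
      rw [h7] at hs
      exact hs
    · subst h
      have h6 : ¬ i + 1 ≤ i := by omega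
      simp only [if_neg h6, le_refl, if_true, Nat.add_sub_cancel_left]
      rw [hkerB, ← hker]
      obtain ⟨g, hg⟩ := hc₁ 0
      exact comap_step f₁ hf₁ _ _ g hg
    · have h6 : ¬ i + 1 ≤ n₂ := by omega
      have h7 : ¬ i ≤ n₂ := by omega
      simp only [if_neg h6, if_neg h7]
      have h8 : i + 1 - n₂ = (i - n₂) + 1 := by omega
      rw [h8]
      obtain ⟨g, hg⟩ := hc₁ (i - n₂)
      exact comap_step f₁ hf₁ _ _ g hg

/-- the derived subgroup centralises the cyclic factors -/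
theorem comm_fac (N M : Subgroup G) (hN : N.Normal) (hM : M.Normal) (g : G)
    (h : M = N ⊔ Subgroup.zpowers g) : ⁅M, commutator G⁆ ≤ N := by
  have hmk : ∀ x ∈ M, ∃ k : ℤ, QuotientGroup.mk' N x = (QuotientGroup.mk' N g) ^ k := by
    intro x hx
    rw [h, ← SetLike.mem_coe, Subgroup.normal_mul] at hx
    obtain ⟨n, hn, y, hy, rfl⟩ := hx
    rw [SetLike.mem_coe] at hn hy
    obtain ⟨k, rfl⟩ := Subgroup.mem_zpowers_iff.mp hy
    refine ⟨k, ?_⟩
    rw [map_mul, map_zpow]
    have : QuotientGroup.mk' N n = 1 := (QuotientGroup.eq_one_iff n).mpr hn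
    rw [this, one_mul]
  set γ := QuotientGroup.mk' N g with hγ
  have hgM : g ∈ M := by
    rw [h]
    exact Subgroup.mem_sup_right (Subgroup.mem_zpowers g)
  have hconj : ∀ a : G ⧸ N, ∃ k : ℤ, a * γ * a⁻¹ = γ ^ k := by
    intro a
    obtain ⟨b, rfl⟩ := QuotientGroup.mk'_surjective N a
    obtain ⟨k, hk⟩ := hmk (b * g * b⁻¹) (hM.conj_mem g hgM b)
    refine ⟨k, ?_⟩
    rw [← hk, map_mul, map_mul, map_inv]
  have hswap : ∀ a b : G ⧸ N, (a * b) * γ * (a * b)⁻¹ = (b * a) * γ * (b * a)⁻¹ := by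
    intro a b
    obtain ⟨k, hk⟩ := hconj a
    obtain ⟨l, hl⟩ := hconj b
    have e1 : (a * b) * γ * (a * b)⁻¹ = γ ^ (k * l) := by
      have : (a * b) * γ * (a * b)⁻¹ = a * (b * γ * b⁻¹) * a⁻¹ := by group
      rw [this, hl, ← conj_zpow, hk, ← zpow_mul]
    have e2 : (b * a) * γ * (b * a)⁻¹ = γ ^ (l * k) := by
      have : (b * a) * γ * (b * a)⁻¹ = b * (a * γ * a⁻¹) * b⁻¹ := by group
      rw [this, hk, ← conj_zpow, hl, ← zpow_mul]
    rw [e1, e2, mul_comm]
  have hcen : commutator G ≤ (Subgroup.centralizer {γ}).comap (QuotientGroup.mk' N) := by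
    rw [commutator_def, Subgroup.commutator_le]
    intro a _ b _
    rw [Subgroup.mem_comap, Subgroup.mem_centralizer_singleton_iff]
    set a' := QuotientGroup.mk' N a with ha'
    set b' := QuotientGroup.mk' N b with hb'
    have h1 := hswap a'⁻¹ b'⁻¹
    have h2 : QuotientGroup.mk' N ⁅a, b⁆ = a' * b' * a'⁻¹ * b'⁻¹ := by
      rw [map_commutatorElement, commutatorElement_def]
    rw [h2]
    have h3 : γ = (b' * a')⁻¹⁻¹ * ((a'⁻¹ * b'⁻¹) * γ * (a'⁻¹ * b'⁻¹)⁻¹) * (b' * a')⁻¹ := by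
      group
    have h4 : a' * b' * a'⁻¹ * b'⁻¹ * γ * (a' * b' * a'⁻¹ * b'⁻¹)⁻¹ = γ := by
      have h5 : a' * b' * a'⁻¹ * b'⁻¹ * γ * (a' * b' * a'⁻¹ * b'⁻¹)⁻¹ =
          (a' * b') * ((a'⁻¹ * b'⁻¹) * γ * (a'⁻¹ * b'⁻¹)⁻¹) * (a' * b')⁻¹ := by group
      rw [h5, h1]
      group
    exact (mul_inv_eq_iff_eq_mul.mp h4)
  rw [Subgroup.commutator_le]
  intro x hx y hy
  obtain ⟨k, hk⟩ := hmk x hx
  have h6 := hcen hy
  rw [Subgroup.mem_comap, Subgroup.mem_centralizer_singleton_iff] at h6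
  rw [← QuotientGroup.eq_one_iff]
  change QuotientGroup.mk' N ⁅x, y⁆ = 1
  rw [map_commutatorElement, hk, commutatorElement_eq_one_iff_commute]
  have h7 : Commute γ (QuotientGroup.mk' N y) := h6.symm
  exact h7.zpow_left k

theorem nil_comm (h : Supersol G) : Group.IsNilpotent (commutator G) := by
  obtain ⟨n, K, h0, hn, hN, hc⟩ := h
  have key : ∀ j ≤ n, (commutator G).lowerCentralSeries j ≤ K (n - j) := by
    intro j
    induction j with
    | zero =>
      intro _
      rw [Nat.sub_zero, hn]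
      exact le_top
    | succ j ih =>
      intro hj
      rw [Subgroup.lowerCentralSeries_succ]
      obtain ⟨g, hg⟩ := hc (n - (j + 1))
      have h1 : n - (j + 1) + 1 = n - j := by omega
      rw [h1] at hg
      exact (Subgroup.commutator_mono (ih (by omega)) le_rfl).trans
        (comm_fac _ _ (hN _) (hN _) g hg)
  have h2 := key n le_rfl
  rw [Nat.sub_self, h0, le_bot_iff] at h2
  exact Subgroup.isNilpotent_of_lowerCentralSeries_eq_bot h2

/-- In a finite nilpotent group the elements of order prime to `p` form a subgroup. -/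
theorem coprime_mul {D : Type} [Group D] [Finite D] [Group.IsNilpotent D] {p : ℕ}
    (hp : p.Prime) (x y : D) (hx : (orderOf x).Coprime p) (hy : (orderOf y).Coprime p) :
    (orderOf (x * y)).Coprime p := by
  by_contra hcon
  have hdvd : p ∣ orderOf (x * y) := by
    by_contra h
    exact hcon ((Nat.Prime.coprime_iff_not_dvd hp).mpr h).symm
  have hFp : Fact p.Prime := ⟨hp⟩
  have hn : ∀ {q : ℕ} [Fact q.Prime] (P : Sylow q D), (P : Subgroup D).Normal :=
    fun P => inferInstance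
  let e := (Sylow.directProductOfNormal hn).symm
  have hpm : p ∈ (Nat.card D).primeFactors := by
    rw [Nat.mem_primeFactors]
    exact ⟨hp, hdvd.trans (orderOf_dvd_natCard _), Nat.card_pos.ne'⟩
  have key : ∀ w : D, (orderOf w).Coprime p → e w ⟨p, hpm⟩ = 1 := by
    intro w hw
    funext P
    have h1 : orderOf (e w ⟨p, hpm⟩ P) ∣ orderOf w := by
      apply orderOf_dvd_of_pow_eq_one
      have h2 : e (w ^ orderOf w) = 1 := by rw [pow_orderOf_eq_one, map_one]
      rw [map_pow] at h2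
      exact congrFun (congrFun h2 ⟨p, hpm⟩) P
    obtain ⟨k, hk⟩ := (IsPGroup.iff_orderOf.mp P.isPGroup') (e w ⟨p, hpm⟩ P)
    rw [hk] at h1
    have h3 : (p ^ k).Coprime p := Nat.Coprime.coprime_dvd_left h1 hw
    have h4 : k = 0 := by
      by_contra hk0
      have : p ∣ Nat.gcd (p ^ k) p := Nat.dvd_gcd (dvd_pow_self p hk0) dvd_rfl
      rw [h3] at this
      exact hp.one_lt.ne' (Nat.dvd_one.mp this)
    rw [h4, pow_zero, orderOf_eq_one_iff] at hk
    exact hk
  set z := (x * y) ^ (orderOf (x * y) / p) with hz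
  have hoz : orderOf z = p := by
    have hpos : 0 < orderOf (x * y) := orderOf_pos _
    rw [hz, orderOf_pow_of_dvd (Nat.div_pos (Nat.le_of_dvd hpos hdvd) hp.pos).ne'
      (Nat.div_dvd_of_dvd hdvd)]
    exact Nat.div_div_self hdvd hpos.ne'
  have hz1 : z = 1 := by
    have h5 : e z = 1 := by
      funext q P
      by_cases hq : q = ⟨p, hpm⟩
      · subst hq
        have h6 : e z ⟨p, hpm⟩ = 1 := by
          rw [hz, map_pow, map_mul, Pi.pow_apply, Pi.mul_apply, key x hx, key y hy, one_mul,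
            one_pow]
        rw [h6]
        rfl
      · have hqp : q.1.Prime := Nat.prime_of_mem_primeFactors q.2
        have hFq : Fact q.1.Prime := ⟨hqp⟩
        obtain ⟨k, hk⟩ := (IsPGroup.iff_orderOf.mp P.isPGroup') (e z q P)
        have h7 : orderOf (e z q P) ∣ p := by
          apply orderOf_dvd_of_pow_eq_one
          have h8 : e (z ^ p) = 1 := by
            rw [← hoz, pow_orderOf_eq_one, map_one]
          rw [map_pow] at h8
          exact congrFun (congrFun h8 q) P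
        rcases (Nat.dvd_prime hp).mp h7 with h8 | h8
        · exact orderOf_eq_one_iff.mp h8
        · exfalso
          rw [hk] at h8
          apply hq
          apply Subtype.ext
          have h9 : p ∣ q.1 ^ k := by rw [h8]
          exact ((Nat.prime_dvd_prime_iff_eq hp hqp).mp (hp.dvd_of_dvd_pow h9)).symm
    have h6 : z = e.symm (e z) := (e.symm_apply_apply z).symm
    rw [h6, h5, map_one]
  rw [hz1, orderOf_one] at hoz
  exact hp.one_lt.ne hoz

end U_

open U_

theorem p_UQ : T_UQ := by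
  intro p c hp G G' _ _ _ _ f hf ⟨h1, h2, h3⟩
  refine ⟨supersol_map f hf h1, ?_, ?_⟩
  · intro P
    have hFp : Fact p.Prime := ⟨hp⟩
    obtain ⟨Q, rfl⟩ := Sylow.mapSurjective_surjective hf p P
    rw [Sylow.coe_mapSurjective, ← Subgroup.map_lowerCentralSeries, h2 Q, Subgroup.map_bot]
  · intro q hq hqp P x hx y hy
    have hFq : Fact q.Prime := ⟨hq⟩
    obtain ⟨Q, rfl⟩ := Sylow.mapSurjective_surjective hf q P
    obtain ⟨a, ha, rfl⟩ := hx
    obtain ⟨b, hb, rfl⟩ := hy
    rw [← map_mul, h3 q hq hqp Q a ha b hb, map_mul]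

theorem p_US : T_US := by
  intro p c hp G G₁ G₂ _ _ _ _ _ _ f₁ f₂ hf₁ hf₂ hk ⟨a1, a2, a3⟩ ⟨b1, b2, b3⟩
  refine ⟨supersol_sub f₁ f₂ hf₁ hf₂ hk a1 b1, ?_, ?_⟩
  · intro P
    have hFp : Fact p.Prime := ⟨hp⟩
    rw [eq_bot_iff]
    intro x hx
    apply Subgroup.mem_bot.mpr
    have e1 := a2 (P.mapSurjective hf₁)
    have e2 := b2 (P.mapSurjective hf₂)
    rw [Sylow.coe_mapSurjective, ← Subgroup.map_lowerCentralSeries] at e1 e2
    apply hk
    · have := Subgroup.mem_map_of_mem f₁ hx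
      rw [e1] at this
      exact Subgroup.mem_bot.mp this
    · have := Subgroup.mem_map_of_mem f₂ hx
      rw [e2] at this
      exact Subgroup.mem_bot.mp this
  · intro q hq hqp P x hx y hy
    have hFq : Fact q.Prime := ⟨hq⟩
    have e1 := a3 q hq hqp (P.mapSurjective hf₁) (f₁ x) (Subgroup.mem_map_of_mem f₁ hx)
      (f₁ y) (Subgroup.mem_map_of_mem f₁ hy)
    have e2 := b3 q hq hqp (P.mapSurjective hf₂) (f₂ x) (Subgroup.mem_map_of_mem f₂ hx)
      (f₂ y) (Subgroup.mem_map_of_mem f₂ hy)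
    rw [← mul_inv_eq_one]
    apply hk
    · rw [map_mul, map_inv, map_mul, map_mul, e1, mul_inv_cancel]
    · rw [map_mul, map_inv, map_mul, map_mul, e2, mul_inv_cancel]

theorem p_SS : T_SS := by
  intro G _ _ hG p hp
  have hnil := nil_comm hG
  have hFp : Fact p.Prime := ⟨hp⟩
  let K : Subgroup G :=
    { carrier := {x | x ∈ commutator G ∧ (orderOf x).Coprime p}
      one_mem' := ⟨Subgroup.one_mem _, by rw [orderOf_one]; exact Nat.coprime_one_left p⟩
      mul_mem' := by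
        rintro x y ⟨hx, hx'⟩ ⟨hy, hy'⟩
        refine ⟨Subgroup.mul_mem _ hx hy, ?_⟩
        have h1 := coprime_mul hp (⟨x, hx⟩ : commutator G) ⟨y, hy⟩
          (by rw [Subgroup.orderOf_mk]; exact hx') (by rw [Subgroup.orderOf_mk]; exact hy')
        rw [← Subgroup.orderOf_coe] at h1
        exact h1
      inv_mem' := by
        rintro x ⟨hx, hx'⟩
        exact ⟨Subgroup.inv_mem _ hx, by rw [orderOf_inv]; exact hx'⟩ }
  refine ⟨K, ⟨?_⟩, ?_, ?_⟩
  · rintro x ⟨hx, hx'⟩ g
    have hD : (commutator G).Normal := inferInstance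
    refine ⟨hD.conj_mem x hx g, ?_⟩
    have h1 : orderOf (g * x * g⁻¹) = orderOf x :=
      orderOf_injective (MulAut.conj g).toMonoidHom (MulAut.conj g).injective x
    rw [h1]
    exact hx'
  · intro hdvd
    obtain ⟨x, hx⟩ := exists_prime_orderOf_dvd_card' p hdvd
    have h1 := x.2.2
    rw [Subgroup.orderOf_coe, hx, Nat.coprime_self] at h1
    exact hp.one_lt.ne' h1
  · intro x hx
    obtain ⟨k, m, hm, hk⟩ := Nat.exists_eq_pow_mul_and_not_dvd (orderOf_pos x).ne' p hp.one_lt.ne'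
    refine ⟨k, Subgroup.pow_mem _ hx _, ?_⟩
    rw [orderOf_pow_of_dvd (pow_pos hp.pos k).ne' (by rw [hk]; exact dvd_mul_right _ _), hk,
      Nat.mul_div_cancel_left _ (pow_pos hp.pos k)]
    exact ((Nat.Prime.coprime_iff_not_dvd hp).mpr hm).symm

end Pool.Agent.Fcl2
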