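import Pool.Agent.Fcl2.Targets

/-!
# FC2, Y: the obstruction

A supersoluble group of order `(p - 1) p ^ 9` with Sylow `p`-subgroups of class three, such that the
lattice of subformations of a formation which contains it is never distributive.
-/

set_option autoImplicit false

namespace Pool.Agent.Fcl2

open Pool.Agent.Formn Pool.Agent.Formn.Formation
open scoped commutatorElement

namespace Y_

/-- The coordinates of the elements of the group. -/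
@[ext]
structure Yg (p : ℕ) : Type where
  /-- torus -/
  t : (ZMod p)ˣ
  /-- degree one -/
  x : ZMod p
  /-- degree one -/
  y : ZMod p
  /-- degree one -/
  z : ZMod p
  /-- degree two -/
  xy : ZMod p
  /-- degree two -/
  xz : ZMod p
  /-- degree two -/
  yz : ZMod p
  /-- degree two -/
  zy : ZMod p
  /-- degree three -/
  xyz : ZMod p
  /-- degree three -/
  xzy : ZMod p

variable {p : ℕ}

namespace Yg

instance : Mul (Yg p) := ⟨fun a b =>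
  { t := a.t * b.t
    x := a.x + b.x
    y := a.y + a.t * b.y
    z := a.z + a.t ^ 2 * b.z
    xy := a.xy + a.t * b.xy + a.x * (a.t * b.y)
    xz := a.xz + a.t ^ 2 * b.xz + a.x * (a.t ^ 2 * b.z)
    yz := a.yz + a.t ^ 3 * b.yz + a.y * (a.t ^ 2 * b.z)
    zy := a.zy + a.t ^ 3 * b.zy + a.z * (a.t * b.y)
    xyz := a.xyz + a.t ^ 3 * b.xyz + a.x * (a.t ^ 3 * b.yz) + a.xy * (a.t ^ 2 * b.z)
    xzy := a.xzy + a.t ^ 3 * b.xzy + a.x * (a.t ^ 3 * b.zy) + a.xz * (a.t * b.y) }⟩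

instance : One (Yg p) := ⟨⟨1, 0, 0, 0, 0, 0, 0, 0, 0, 0⟩⟩

instance : Inv (Yg p) := ⟨fun a =>
  { t := a.t⁻¹
    x := -a.x
    y := (a.t⁻¹ : (ZMod p)ˣ) * (-a.y)
    z := (a.t⁻¹ : (ZMod p)ˣ) ^ 2 * (-a.z)
    xy := (a.t⁻¹ : (ZMod p)ˣ) * (-a.xy + a.x * a.y)
    xz := (a.t⁻¹ : (ZMod p)ˣ) ^ 2 * (-a.xz + a.x * a.z)
    yz := (a.t⁻¹ : (ZMod p)ˣ) ^ 3 * (-a.yz + a.y * a.z)
    zy := (a.t⁻¹ : (ZMod p)ˣ) ^ 3 * (-a.zy + a.z * a.y)
    xyz := (a.t⁻¹ : (ZMod p)ˣ) ^ 3 * (-a.xyz + a.x * a.yz + a.xy * a.z - a.x * a.y * a.z)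
    xzy := (a.t⁻¹ : (ZMod p)ˣ) ^ 3 * (-a.xzy + a.x * a.zy + a.xz * a.y - a.x * a.z * a.y) }⟩

variable (a b : Yg p)

theorem mul_t : (a * b).t = a.t * b.t := rfl
theorem mul_x : (a * b).x = a.x + b.x := rfl
theorem mul_y : (a * b).y = a.y + a.t * b.y := rfl
theorem mul_z : (a * b).z = a.z + a.t ^ 2 * b.z := rfl
theorem mul_xy : (a * b).xy = a.xy + a.t * b.xy + a.x * (a.t * b.y) := rfl
theorem mul_xz : (a * b).xz = a.xz + a.t ^ 2 * b.xz + a.x * (a.t ^ 2 * b.z) := rfl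
theorem mul_yz : (a * b).yz = a.yz + a.t ^ 3 * b.yz + a.y * (a.t ^ 2 * b.z) := rfl
theorem mul_zy : (a * b).zy = a.zy + a.t ^ 3 * b.zy + a.z * (a.t * b.y) := rfl
theorem mul_xyz : (a * b).xyz =
    a.xyz + a.t ^ 3 * b.xyz + a.x * (a.t ^ 3 * b.yz) + a.xy * (a.t ^ 2 * b.z) := rfl
theorem mul_xzy : (a * b).xzy =
    a.xzy + a.t ^ 3 * b.xzy + a.x * (a.t ^ 3 * b.zy) + a.xz * (a.t * b.y) := rfl

theorem one_t : (1 : Yg p).t = 1 := rfl
theorem one_x : (1 : Yg p).x = 0 := rfl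
theorem one_y : (1 : Yg p).y = 0 := rfl
theorem one_z : (1 : Yg p).z = 0 := rfl
theorem one_xy : (1 : Yg p).xy = 0 := rfl
theorem one_xz : (1 : Yg p).xz = 0 := rfl
theorem one_yz : (1 : Yg p).yz = 0 := rfl
theorem one_zy : (1 : Yg p).zy = 0 := rfl
theorem one_xyz : (1 : Yg p).xyz = 0 := rfl
theorem one_xzy : (1 : Yg p).xzy = 0 := rfl

theorem inv_t : (a⁻¹).t = a.t⁻¹ := rfl
theorem inv_x : (a⁻¹).x = -a.x := rfl
theorem inv_y : (a⁻¹).y = (a.t⁻¹ : (ZMod p)ˣ) * (-a.y) := rfl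
theorem inv_z : (a⁻¹).z = (a.t⁻¹ : (ZMod p)ˣ) ^ 2 * (-a.z) := rfl
theorem inv_xy : (a⁻¹).xy = (a.t⁻¹ : (ZMod p)ˣ) * (-a.xy + a.x * a.y) := rfl
theorem inv_xz : (a⁻¹).xz = (a.t⁻¹ : (ZMod p)ˣ) ^ 2 * (-a.xz + a.x * a.z) := rfl
theorem inv_yz : (a⁻¹).yz = (a.t⁻¹ : (ZMod p)ˣ) ^ 3 * (-a.yz + a.y * a.z) := rfl
theorem inv_zy : (a⁻¹).zy = (a.t⁻¹ : (ZMod p)ˣ) ^ 3 * (-a.zy + a.z * a.y) := rfl
theorem inv_xyz : (a⁻¹).xyz =
    (a.t⁻¹ : (ZMod p)ˣ) ^ 3 * (-a.xyz + a.x * a.yz + a.xy * a.z - a.x * a.y * a.z) := rfl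
theorem inv_xzy : (a⁻¹).xzy =
    (a.t⁻¹ : (ZMod p)ˣ) ^ 3 * (-a.xzy + a.x * a.zy + a.xz * a.y - a.x * a.z * a.y) := rfl

instance : Group (Yg p) := Group.ofLeftAxioms
  (fun a b c => by
    apply Yg.ext
    · simp only [mul_t, mul_assoc]
    all_goals
      simp only [mul_t, mul_x, mul_y, mul_z, mul_xy, mul_xz, mul_yz, mul_zy, mul_xyz, mul_xzy,
        Units.val_mul]
      ring)
  (fun a => by
    apply Yg.ext
    · simp only [mul_t, one_t, one_mul]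
    all_goals
      simp only [mul_x, mul_y, mul_z, mul_xy, mul_xz, mul_yz, mul_zy, mul_xyz, mul_xzy, one_t,
        one_x, one_y, one_z, one_xy, one_xz, one_yz, one_zy, one_xyz, one_xzy, Units.val_one]
      ring)
  (fun a => by
    apply Yg.ext
    · simp only [mul_t, inv_t, one_t, inv_mul_cancel]
    all_goals
      simp only [mul_x, mul_y, mul_z, mul_xy, mul_xz, mul_yz, mul_zy, mul_xyz, mul_xzy,
        one_x, one_y, one_z, one_xy, one_xz, one_yz, one_zy, one_xyz, one_xzy, inv_t, inv_x, inv_y,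
        inv_z, inv_xy, inv_xz, inv_yz, inv_zy, inv_xyz, inv_xzy]
      ring)

/-- Tuples. -/
def equivProd (p : ℕ) : Yg p ≃ (ZMod p)ˣ × ZMod p × ZMod p × ZMod p × ZMod p × ZMod p × ZMod p ×
    ZMod p × ZMod p × ZMod p where
  toFun a := (a.t, a.x, a.y, a.z, a.xy, a.xz, a.yz, a.zy, a.xyz, a.xzy)
  invFun a := ⟨a.1, a.2.1, a.2.2.1, a.2.2.2.1, a.2.2.2.2.1, a.2.2.2.2.2.1, a.2.2.2.2.2.2.1,
    a.2.2.2.2.2.2.2.1, a.2.2.2.2.2.2.2.2.1, a.2.2.2.2.2.2.2.2.2⟩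
  left_inv _ := rfl
  right_inv _ := rfl

instance [Fact p.Prime] : Finite (Yg p) := Finite.of_equiv _ (equivProd p).symm

end Yg

open Yg

/-! ### Computations in the normal Sylow subgroup -/

theorem pow_t (a : Yg p) (n : ℕ) : (a ^ n).t = a.t ^ n := by
  induction n with
  | zero => rw [pow_zero, pow_zero]; rfl
  | succ n ih => rw [pow_succ, pow_succ, mul_t, ih]

theorem pow_L (a : Yg p) (ha : a.t = 1) (n : ℕ) :
    (a ^ n).t = 1 ∧ (a ^ n).x = n * a.x ∧ (a ^ n).y = n * a.y ∧ (a ^ n).z = n * a.z := by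
  induction n with
  | zero => simp [one_t, one_x, one_y, one_z]
  | succ n ih =>
    obtain ⟨h1, h2, h3, h4⟩ := ih
    rw [pow_succ, mul_t, mul_x, mul_y, mul_z, h1, h2, h3, h4, ha]
    push_cast
    refine ⟨by simp, ?_, ?_, ?_⟩ <;> ring

theorem pow_L2 (a : Yg p) (ha : a.t = 1) (hy : a.y = 0) (hz : a.z = 0) (n : ℕ) :
    (a ^ n).xy = n * a.xy ∧ (a ^ n).xz = n * a.xz ∧ (a ^ n).yz = n * a.yz ∧
      (a ^ n).zy = n * a.zy := by
  induction n with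
  | zero => simp [one_xy, one_xz, one_yz, one_zy]
  | succ n ih =>
    obtain ⟨h1, h2, h3, h4⟩ := ih
    obtain ⟨g1, -, -, -⟩ := pow_L a ha n
    rw [pow_succ, mul_xy, mul_xz, mul_yz, mul_zy, h1, h2, h3, h4, g1, hy, hz]
    push_cast
    refine ⟨?_, ?_, ?_, ?_⟩ <;> ring

theorem pow_L3 (a : Yg p) (ha : a.t = 1) (hy : a.y = 0) (hz : a.z = 0)
    (hyz : a.yz = 0) (hzy : a.zy = 0) (n : ℕ) :
    (a ^ n).xyz = n * a.xyz ∧ (a ^ n).xzy = n * a.xzy := by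
  induction n with
  | zero => simp [one_xyz, one_xzy]
  | succ n ih =>
    obtain ⟨h1, h2⟩ := ih
    obtain ⟨g1, -, -, -⟩ := pow_L a ha n
    rw [pow_succ, mul_xyz, mul_xzy, h1, h2, g1, hy, hz, hyz, hzy]
    push_cast
    refine ⟨?_, ?_⟩ <;> ring

theorem comm_t (a b : Yg p) : ⁅a, b⁆.t = 1 := by
  rw [commutatorElement_def, mul_t, mul_t, mul_t, inv_t, inv_t, mul_comm a.t b.t]
  group

theorem comm_1 (a b : Yg p) (ha : a.t = 1) (hb : b.t = 1) :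
    ⁅a, b⁆.x = 0 ∧ ⁅a, b⁆.y = 0 ∧ ⁅a, b⁆.z = 0 := by
  rw [commutatorElement_def]
  refine ⟨?_, ?_, ?_⟩ <;>
  · simp only [mul_t, mul_x, mul_y, mul_z, inv_t, inv_x, inv_y, inv_z, ha, hb, inv_one, mul_one,
      Units.val_one]
    ring

theorem comm_2 (a b : Yg p) (ha : a.t = 1) (hb : b.t = 1) :
    ⁅a, b⁆.xy = a.x * b.y - b.x * a.y ∧ ⁅a, b⁆.xz = a.x * b.z - b.x * a.z ∧
      ⁅a, b⁆.yz = a.y * b.z - b.y * a.z ∧ ⁅a, b⁆.zy = a.z * b.y - b.z * a.y := by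
  rw [commutatorElement_def]
  refine ⟨?_, ?_, ?_, ?_⟩ <;>
  · simp only [mul_t, mul_x, mul_y, mul_z, mul_xy, mul_xz, mul_yz, mul_zy, inv_t, inv_x, inv_y,
      inv_z, inv_xy, inv_xz, inv_yz, inv_zy, ha, hb, inv_one, mul_one, Units.val_one]
    ring

/-- Commutators with an element whose coordinates of degree one vanish. -/
theorem comm_3 (a b : Yg p) (ha : a.t = 1) (hb : b.t = 1) (hx : a.x = 0) (hy : a.y = 0)
    (hz : a.z = 0) :
    ⁅a, b⁆ = ⟨1, 0, 0, 0, 0, 0, 0, 0, a.xy * b.z - b.x * a.yz, a.xz * b.y - b.x * a.zy⟩ := by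
  obtain ⟨h1, h2, h3⟩ := comm_1 a b ha hb
  obtain ⟨h4, h5, h6, h7⟩ := comm_2 a b ha hb
  simp only [hx, hy, hz] at h4 h5 h6 h7
  apply Yg.ext
  · exact comm_t a b
  · exact h1
  · exact h2
  · exact h3
  · rw [h4]; ring
  · rw [h5]; ring
  · rw [h6]; ring
  · rw [h7]; ring
  all_goals
    rw [commutatorElement_def]
    simp only [mul_t, mul_x, mul_xy, mul_xz, mul_xyz, mul_xzy,
      inv_t, inv_x, inv_y, inv_z, inv_xy, inv_xz, inv_yz, inv_zy, inv_xyz, inv_xzy, ha, hb, hx, hy,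
      hz, inv_one, mul_one, Units.val_one]
    ring

/-- The triple commutator. -/
theorem comm_4 (a b c : Yg p) (ha : a.t = 1) (hb : b.t = 1) (hc : c.t = 1) :
    ⁅⁅a, b⁆, c⁆ = ⟨1, 0, 0, 0, 0, 0, 0, 0,
      (a.x * b.y - b.x * a.y) * c.z - c.x * (a.y * b.z - b.y * a.z),
      (a.x * b.z - b.x * a.z) * c.y - c.x * (a.z * b.y - b.z * a.y)⟩ := by
  obtain ⟨h1, h2, h3⟩ := comm_1 a b ha hb
  obtain ⟨h4, h5, h6, h7⟩ := comm_2 a b ha hb
  rw [comm_3 _ c (comm_t a b) hc h1 h2 h3, h4, h5, h6, h7]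

/-! ### Words -/

section Words

variable {G H : Type} [Group G] [Group H]

/-- `T g T⁻¹ g ^ (-s)`. -/
def E1 (T g : G) (s : ℕ) : G := T * g * T⁻¹ * (g ^ s)⁻¹

/-- Iterated. -/
def P1 (T g : G) : List ℕ → G
  | [] => g
  | s :: l => E1 T (P1 T g l) s

theorem map_P1 (φ : G →* H) (T g : G) (l : List ℕ) : φ (P1 T g l) = P1 (φ T) (φ g) l := by
  induction l with
  | nil => rfl
  | cons s l ih => rw [P1, P1, E1, E1, map_mul, map_mul, map_mul, map_inv, map_inv, map_pow, ih]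

/-- The triple commutator. -/
def W1 (p : ℕ) (l₁ l₂ l₃ : List ℕ) (T g₁ g₂ g₃ : G) : G :=
  ⁅⁅P1 T (g₁ ^ (p - 1)) l₁, P1 T (g₂ ^ (p - 1)) l₂⁆, P1 T (g₃ ^ (p - 1)) l₃⁆

theorem map_W1 (φ : G →* H) (l₁ l₂ l₃ : List ℕ) (T g₁ g₂ g₃ : G) :
    φ (W1 p l₁ l₂ l₃ T g₁ g₂ g₃) = W1 p l₁ l₂ l₃ (φ T) (φ g₁) (φ g₂) (φ g₃) := by
  rw [W1, W1, map_commutatorElement, map_commutatorElement, map_P1, map_P1, map_P1, map_pow,
    map_pow, map_pow]

end Words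

theorem E1_L (T g : Yg p) (hg : g.t = 1) (s : ℕ) : (E1 T g s).t = 1 ∧
    (E1 T g s).x = (1 - (s : ZMod p)) * g.x ∧ (E1 T g s).y = ((T.t : ZMod p) - s) * g.y ∧
    (E1 T g s).z = ((T.t : ZMod p) ^ 2 - s) * g.z := by
  obtain ⟨h1, h2, h3, h4⟩ := pow_L g hg s
  have e : (T * g * T⁻¹).t = 1 := by rw [mul_t, mul_t, inv_t, hg]; group
  have hi : ((T.t⁻¹ : (ZMod p)ˣ) : ZMod p) * T.t = 1 := T.t.inv_mul
  rw [E1]
  refine ⟨?_, ?_, ?_, ?_⟩
  · rw [mul_t, e, inv_t, h1]; simp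
  · rw [mul_x, mul_x, mul_x, inv_x, inv_x, h2]
    ring
  · rw [mul_y, mul_y, mul_y, inv_y, inv_y, h1, h3, e, mul_t, hg, mul_one]
    simp only [inv_one, Units.val_one]
    linear_combination (-T.y) * hi
  · rw [mul_z, mul_z, mul_z, inv_z, inv_z, h1, h4, e, mul_t, hg, mul_one]
    simp only [inv_one, Units.val_one]
    linear_combination (-T.z) * (((T.t⁻¹ : (ZMod p)ˣ) : ZMod p) * T.t + 1) * hi

theorem P1_L (T g : Yg p) (hg : g.t = 1) (l : List ℕ) : (P1 T g l).t = 1 ∧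
    (P1 T g l).x = (l.map (fun s : ℕ => (1 : ZMod p) - s)).prod * g.x ∧
    (P1 T g l).y = (l.map (fun s : ℕ => (T.t : ZMod p) - s)).prod * g.y ∧
    (P1 T g l).z = (l.map (fun s : ℕ => (T.t : ZMod p) ^ 2 - s)).prod * g.z := by
  induction l with
  | nil => simp [P1, hg]
  | cons s l ih =>
    obtain ⟨h1, h2, h3, h4⟩ := ih
    obtain ⟨g1, g2, g3, g4⟩ := E1_L T (P1 T g l) h1 s
    rw [P1]
    refine ⟨g1, ?_, ?_, ?_⟩
    · rw [g2, h2, List.map_cons, List.prod_cons, mul_assoc]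
    · rw [g3, h3, List.map_cons, List.prod_cons, mul_assoc]
    · rw [g4, h4, List.map_cons, List.prod_cons, mul_assoc]

/-- The residues different from `0` and `a`. -/
def lst (p : ℕ) (a : (ZMod p)ˣ) : List ℕ :=
  (List.range p).filter (fun s : ℕ => (s : ZMod p) ≠ 0 ∧ (s : ZMod p) ≠ a)

theorem prod_eq_zero [Fact p.Prime] (a m : (ZMod p)ˣ) (h : m ≠ a) :
    ((lst p a).map (fun s : ℕ => (m : ZMod p) - s)).prod = 0 := by
  rw [List.prod_eq_zero_iff, List.mem_map]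
  refine ⟨(m : ZMod p).val, ?_, ?_⟩
  · rw [lst, List.mem_filter, List.mem_range]
    refine ⟨ZMod.val_lt _, ?_⟩
    rw [ZMod.natCast_zmod_val, decide_eq_true_iff]
    refine ⟨m.ne_zero, fun h1 => h (Units.ext h1)⟩
  · rw [ZMod.natCast_zmod_val, sub_self]

theorem prod_ne_zero [Fact p.Prime] (a : (ZMod p)ˣ) :
    ((lst p a).map (fun s : ℕ => (a : ZMod p) - s)).prod ≠ 0 := by
  rw [Ne, List.prod_eq_zero_iff, List.mem_map]
  rintro ⟨s, hs, h⟩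
  rw [lst, List.mem_filter, decide_eq_true_iff] at hs
  exact hs.2.2 (sub_eq_zero.1 h).symm

/-! ### The words -/

/-- `[[x, y], z]`. -/
def u1 (a : (ZMod p)ˣ) {G : Type} [Group G] (f : Fin 4 → G) : G :=
  W1 p (lst p 1) (lst p a) (lst p (a ^ 2)) (f 0) (f 1) (f 2) (f 3)

/-- `[[x, z], y]`. -/
def u2 (a : (ZMod p)ˣ) {G : Type} [Group G] (f : Fin 4 → G) : G :=
  W1 p (lst p 1) (lst p (a ^ 2)) (lst p a) (f 0) (f 1) (f 3) (f 2)

theorem map_u1 (a : (ZMod p)ˣ) {G H : Type} [Group G] [Group H] (φ : G →* H) (f : Fin 4 → G) :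
    φ (u1 a f) = u1 a (fun i => φ (f i)) := map_W1 φ _ _ _ _ _ _ _

theorem map_u2 (a : (ZMod p)ˣ) {G H : Type} [Group G] [Group H] (φ : G →* H) (f : Fin 4 → G) :
    φ (u2 a f) = u2 a (fun i => φ (f i)) := map_W1 φ _ _ _ _ _ _ _

/-- The common value. -/
noncomputable def kk (a : (ZMod p)ˣ) (f : Fin 4 → Yg p) : ZMod p :=
  (P1 (f 0) (f 1 ^ (p - 1)) (lst p 1)).x * (P1 (f 0) (f 2 ^ (p - 1)) (lst p a)).y *
    (P1 (f 0) (f 3 ^ (p - 1)) (lst p (a ^ 2))).z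

section Prime1

variable [Fact p.Prime]

theorem pow_mem_L (g : Yg p) : (g ^ (p - 1)).t = 1 := by
  rw [pow_t, ← ZMod.card_units p]
  exact pow_card_eq_one

theorem values (a : (ZMod p)ˣ) (ha : ∀ m : (ZMod p)ˣ, m ^ 2 ≠ a) (ha1 : a ^ 2 ≠ 1)
    (f : Fin 4 → Yg p) :
    u1 a f = ⟨1, 0, 0, 0, 0, 0, 0, 0, kk a f, 0⟩ ∧ u2 a f = ⟨1, 0, 0, 0, 0, 0, 0, 0, 0, kk a f⟩ := by
  obtain ⟨a0, a1, a2, a3⟩ := P1_L (f 0) (f 1 ^ (p - 1)) (pow_mem_L _) (lst p 1)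
  obtain ⟨b0, b1, b2, b3⟩ := P1_L (f 0) (f 2 ^ (p - 1)) (pow_mem_L _) (lst p a)
  obtain ⟨c0, c1, c2, c3⟩ := P1_L (f 0) (f 3 ^ (p - 1)) (pow_mem_L _) (lst p (a ^ 2))
  have hb1 : (P1 (f 0) (f 2 ^ (p - 1)) (lst p a)).x = 0 := by
    rw [b1, ← Units.val_one, prod_eq_zero a 1 (fun h => ha 1 (by rw [one_pow, h])), zero_mul]
  have hb3 : (P1 (f 0) (f 2 ^ (p - 1)) (lst p a)).z = 0 := by
    rw [b3, ← Units.val_pow_eq_pow_val, prod_eq_zero a _ (ha _), zero_mul]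
  have hc1 : (P1 (f 0) (f 3 ^ (p - 1)) (lst p (a ^ 2))).x = 0 := by
    rw [c1, ← Units.val_one, prod_eq_zero (a ^ 2) 1 (Ne.symm ha1), zero_mul]
  rw [u1, u2, W1, W1, comm_4 _ _ _ a0 b0 c0, comm_4 _ _ _ a0 c0 b0, kk, hb1, hb3, hc1]
  by_cases h : (f 0).t = a
  · have ha2 : (P1 (f 0) (f 1 ^ (p - 1)) (lst p 1)).y = 0 := by
      rw [a2, prod_eq_zero 1 _ (by rw [h]; exact fun h => ha 1 (by rw [one_pow, h])), zero_mul]
    have ha3 : (P1 (f 0) (f 1 ^ (p - 1)) (lst p 1)).z = 0 := by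
      rw [a3, ← Units.val_pow_eq_pow_val, prod_eq_zero 1 _ (by rw [h]; exact ha1), zero_mul]
    have hc2 : (P1 (f 0) (f 3 ^ (p - 1)) (lst p (a ^ 2))).y = 0 := by
      rw [c2, prod_eq_zero (a ^ 2) _ (by rw [h]; exact fun h => ha a h.symm), zero_mul]
    rw [ha2, ha3, hc2]
    constructor <;> apply Yg.ext <;> first | rfl | (dsimp only; ring)
  · have hb2 : (P1 (f 0) (f 2 ^ (p - 1)) (lst p a)).y = 0 := by
      rw [b2, prod_eq_zero a _ h, zero_mul]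
    rw [hb2]
    constructor <;> apply Yg.ext <;> first | rfl | (dsimp only; ring)

theorem exists_value (a : (ZMod p)ˣ) : ∃ f : Fin 4 → Yg p, kk a f ≠ 0 := by
  refine ⟨![⟨a, 0, 0, 0, 0, 0, 0, 0, 0, 0⟩, ⟨1, 1, 0, 0, 0, 0, 0, 0, 0, 0⟩,
    ⟨1, 0, 1, 0, 0, 0, 0, 0, 0, 0⟩, ⟨1, 0, 0, 1, 0, 0, 0, 0, 0, 0⟩], ?_⟩
  have h1 : ((p - 1 : ℕ) : ZMod p) ≠ 0 := by
    rw [Nat.cast_sub (Fact.out : p.Prime).one_lt.le]
    simp
  obtain ⟨-, a1, -, -⟩ := P1_L (⟨a, 0, 0, 0, 0, 0, 0, 0, 0, 0⟩ : Yg p)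
    ((⟨1, 1, 0, 0, 0, 0, 0, 0, 0, 0⟩ : Yg p) ^ (p - 1)) (pow_mem_L _) (lst p 1)
  obtain ⟨-, -, b2, -⟩ := P1_L (⟨a, 0, 0, 0, 0, 0, 0, 0, 0, 0⟩ : Yg p)
    ((⟨1, 0, 1, 0, 0, 0, 0, 0, 0, 0⟩ : Yg p) ^ (p - 1)) (pow_mem_L _) (lst p a)
  obtain ⟨-, -, -, c3⟩ := P1_L (⟨a, 0, 0, 0, 0, 0, 0, 0, 0, 0⟩ : Yg p)
    ((⟨1, 0, 0, 1, 0, 0, 0, 0, 0, 0⟩ : Yg p) ^ (p - 1)) (pow_mem_L _) (lst p (a ^ 2))
  obtain ⟨-, a4, -, -⟩ := pow_L (⟨1, 1, 0, 0, 0, 0, 0, 0, 0, 0⟩ : Yg p) rfl (p - 1)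
  obtain ⟨-, -, b4, -⟩ := pow_L (⟨1, 0, 1, 0, 0, 0, 0, 0, 0, 0⟩ : Yg p) rfl (p - 1)
  obtain ⟨-, -, -, c4⟩ := pow_L (⟨1, 0, 0, 1, 0, 0, 0, 0, 0, 0⟩ : Yg p) rfl (p - 1)
  have n1 := prod_ne_zero (p := p) 1
  have n2 := prod_ne_zero a
  have n3 := prod_ne_zero (a ^ 2)
  rw [Units.val_one] at n1
  rw [Units.val_pow_eq_pow_val] at n3
  change (P1 (⟨a, 0, 0, 0, 0, 0, 0, 0, 0, 0⟩ : Yg p)
    ((⟨1, 1, 0, 0, 0, 0, 0, 0, 0, 0⟩ : Yg p) ^ (p - 1)) (lst p 1)).x *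
    (P1 (⟨a, 0, 0, 0, 0, 0, 0, 0, 0, 0⟩ : Yg p)
    ((⟨1, 0, 1, 0, 0, 0, 0, 0, 0, 0⟩ : Yg p) ^ (p - 1)) (lst p a)).y *
    (P1 (⟨a, 0, 0, 0, 0, 0, 0, 0, 0, 0⟩ : Yg p)
    ((⟨1, 0, 0, 1, 0, 0, 0, 0, 0, 0⟩ : Yg p) ^ (p - 1)) (lst p (a ^ 2))).z ≠ 0
  rw [a1, b2, c3, a4, b4, c4]
  simp only [mul_one]
  exact mul_ne_zero (mul_ne_zero (mul_ne_zero n1 h1) (mul_ne_zero n2 h1)) (mul_ne_zero n3 h1)

end Prime1

/-! ### Formations given by a law in four variables -/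

theorem lift_nat {G H : Type} [Group G] [Group H] (φ : G →* H) (f : Fin 4 → G)
    (w : FreeGroup (Fin 4)) : φ (FreeGroup.lift f w) = FreeGroup.lift (fun b => φ (f b)) w := by
  have h : φ.comp (FreeGroup.lift f) = FreeGroup.lift (fun b => φ (f b)) := by
    ext b
    simp
  rw [← h]
  rfl

theorem lift_surj {G H : Type} [Group G] [Group H] (φ : G →* H) (hφ : Function.Surjective φ)
    (w : FreeGroup (Fin 4)) (h : ∀ f : Fin 4 → G, FreeGroup.lift f w = 1) (f : Fin 4 → H) :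
    FreeGroup.lift f w = 1 := by
  choose g hg using fun b => hφ (f b)
  have h1 := lift_nat φ g w
  rw [h g, map_one] at h1
  have h2 : (fun b => φ (g b)) = f := funext hg
  rw [h2] at h1
  exact h1.symm

/-- The formation of the finite groups which satisfy the law `w = 1` in four variables. -/
def law (w : FreeGroup (Fin 4)) : Formation where
  mem G _ _ := ∀ f : Fin 4 → G, FreeGroup.lift f w = 1
  iso := by
    intro G H _ _ _ _ e h
    exact lift_surj e.toMonoidHom e.surjective w h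
  quot := by
    intro G _ _ N _ h
    exact lift_surj (QuotientGroup.mk' N) (QuotientGroup.mk'_surjective N) w h
  sub := by
    intro G _ _ N₁ N₂ _ _ h1 h2 f
    let β₁ : G ⧸ (N₁ ⊓ N₂) →* G ⧸ N₁ :=
      QuotientGroup.map (N₁ ⊓ N₂) N₁ (MonoidHom.id G) inf_le_left
    let β₂ : G ⧸ (N₁ ⊓ N₂) →* G ⧸ N₂ :=
      QuotientGroup.map (N₁ ⊓ N₂) N₂ (MonoidHom.id G) inf_le_right
    have e1 : β₁ (FreeGroup.lift f w) = 1 := by rw [lift_nat]; exact h1 _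
    have e2 : β₂ (FreeGroup.lift f w) = 1 := by rw [lift_nat]; exact h2 _
    obtain ⟨z, hz⟩ := QuotientGroup.mk_surjective (FreeGroup.lift f w)
    rw [← hz] at e1 e2 ⊢
    have e1' : (QuotientGroup.mk z : G ⧸ N₁) = 1 := e1
    have e2' : (QuotientGroup.mk z : G ⧸ N₂) = 1 := e2
    rw [QuotientGroup.eq_one_iff] at e1' e2' ⊢
    exact ⟨e1', e2'⟩

/-- Quotients which satisfy a law. -/
theorem law_quot {G : Type} [Group G] [Finite G] (N : Subgroup G) [N.Normal]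
    (w : FreeGroup (Fin 4)) : (law w).mem (G ⧸ N) ↔ ∀ f : Fin 4 → G, FreeGroup.lift f w ∈ N := by
  constructor
  · intro h f
    have h1 := h (fun i => QuotientGroup.mk' N (f i))
    rw [← lift_nat] at h1
    exact (QuotientGroup.eq_one_iff _).1 h1
  · intro h f
    choose g hg using fun i => QuotientGroup.mk'_surjective N (f i)
    have h1 : f = fun i => QuotientGroup.mk' N (g i) := (funext hg).symm
    rw [h1, ← lift_nat]
    exact (QuotientGroup.eq_one_iff _).2 (h g)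

/-- The words. -/
def w1 (a : (ZMod p)ˣ) : FreeGroup (Fin 4) := u1 a FreeGroup.of

/-- The words. -/
def w2 (a : (ZMod p)ˣ) : FreeGroup (Fin 4) := u2 a FreeGroup.of

theorem lift_w1 (a : (ZMod p)ˣ) {G : Type} [Group G] (f : Fin 4 → G) :
    FreeGroup.lift f (w1 a) = u1 a f := by
  rw [w1, map_u1]
  simp

theorem lift_w2 (a : (ZMod p)ˣ) {G : Type} [Group G] (f : Fin 4 → G) :
    FreeGroup.lift f (w2 a) = u2 a f := by
  rw [w2, map_u2]
  simp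

/-! ### The normal subgroups of order `p` -/

/-- A subgroup of the part of degree three. -/
def N (a b : ZMod p) : Subgroup (Yg p) where
  carrier := {g | ∃ k, g = ⟨1, 0, 0, 0, 0, 0, 0, 0, a * k, b * k⟩}
  mul_mem' := by
    rintro _ _ ⟨k, rfl⟩ ⟨l, rfl⟩
    refine ⟨k + l, ?_⟩
    apply Yg.ext
    · rw [mul_t]; simp
    all_goals
      simp only [mul_x, mul_y, mul_z, mul_xy, mul_xz, mul_yz, mul_zy, mul_xyz, mul_xzy,
        Units.val_one]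
      ring
  one_mem' := ⟨0, by rw [mul_zero, mul_zero]; rfl⟩
  inv_mem' := by
    rintro _ ⟨k, rfl⟩
    refine ⟨-k, ?_⟩
    apply Yg.ext
    · rw [inv_t]; simp
    all_goals
      simp only [inv_x, inv_y, inv_z, inv_xy, inv_xz, inv_yz, inv_zy, inv_xyz, inv_xzy, inv_one,
        Units.val_one]
      ring

theorem mem_N {a b : ZMod p} {g : Yg p} :
    g ∈ N a b ↔ ∃ k, g = ⟨1, 0, 0, 0, 0, 0, 0, 0, a * k, b * k⟩ := Iff.rfl

instance N_normal (a b : ZMod p) : (N a b).Normal := by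
  constructor
  rintro _ ⟨k, rfl⟩ g
  refine ⟨g.t ^ 3 * k, ?_⟩
  rw [mul_inv_eq_iff_eq_mul]
  apply Yg.ext
  · rw [mul_t, mul_t]; simp
  all_goals
    simp only [mul_x, mul_y, mul_z, mul_xy, mul_xz, mul_yz, mul_zy, mul_xyz, mul_xzy,
      Units.val_one]
    ring

theorem N_inf : N (1 : ZMod p) 0 ⊓ N 0 1 = ⊥ := by
  rw [eq_bot_iff]
  rintro g ⟨⟨k, h1⟩, ⟨l, h2⟩⟩
  rw [Subgroup.mem_bot, h1]
  rw [h1] at h2
  have h3 := congrArg Yg.xyz h2
  dsimp only at h3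
  rw [zero_mul, one_mul] at h3
  rw [h3, mul_zero, mul_zero]
  rfl

section Prime2

variable [Fact p.Prime]

/-- A formation which contains the group does not have a distributive lattice of subformations. -/
theorem obstruction (a : (ZMod p)ˣ) (ha : ∀ m : (ZMod p)ˣ, m ^ 2 ≠ a) (ha1 : a ^ 2 ≠ 1)
    (F : Formation) (hF : F.mem (Yg p)) :
    ¬ ∀ x y z : Set.Iic F, x ⊓ (y ⊔ z) = (x ⊓ y) ⊔ (x ⊓ z) := by
  intro hd
  have hle : ∀ Y : Formation, F ⊓ Y ∈ Set.Iic F := fun Y => (inf_le_left : F ⊓ Y ≤ F)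
  have h := hd ⟨F ⊓ law (w1 a * (w2 a)⁻¹), hle _⟩ ⟨F ⊓ law (w1 a), hle _⟩
    ⟨F ⊓ law (w2 a), hle _⟩
  have h' : (F ⊓ law (w1 a * (w2 a)⁻¹)) ⊓ ((F ⊓ law (w1 a)) ⊔ (F ⊓ law (w2 a))) =
      ((F ⊓ law (w1 a * (w2 a)⁻¹)) ⊓ (F ⊓ law (w1 a))) ⊔
        ((F ⊓ law (w1 a * (w2 a)⁻¹)) ⊓ (F ⊓ law (w2 a))) := congrArg Subtype.val h
  have hE : F.mem (Yg p ⧸ N (1 : ZMod p) (-1)) := F.quot _ _ hF
  have m1 : (law (w1 a)).mem (Yg p ⧸ N (1 : ZMod p) 0) := by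
    rw [law_quot]
    intro f
    rw [lift_w1, (values a ha ha1 f).1]
    exact ⟨kk a f, by rw [one_mul, zero_mul]⟩
  have m2 : (law (w2 a)).mem (Yg p ⧸ N (0 : ZMod p) 1) := by
    rw [law_quot]
    intro f
    rw [lift_w2, (values a ha ha1 f).2]
    exact ⟨kk a f, by rw [one_mul, zero_mul]⟩
  have m3 : (law (w1 a * (w2 a)⁻¹)).mem (Yg p ⧸ N (1 : ZMod p) (-1)) := by
    rw [law_quot]
    intro f
    rw [map_mul, map_inv, lift_w1, lift_w2, (values a ha ha1 f).1, (values a ha ha1 f).2]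
    refine ⟨kk a f, ?_⟩
    rw [mul_inv_eq_iff_eq_mul]
    apply Yg.ext
    · rw [mul_t]; simp
    all_goals
      simp only [mul_x, mul_y, mul_z, mul_xy, mul_xz, mul_yz, mul_zy, mul_xyz, mul_xzy,
        Units.val_one]
      ring
  have h1 : ((F ⊓ law (w1 a)) ⊔ (F ⊓ law (w2 a))).mem (Yg p ⧸ N (1 : ZMod p) (-1)) := by
    refine mem_sup_of (QuotientGroup.mk' _) (QuotientGroup.mk'_surjective _) (N_inf (p := p)) ?_ ?_
    · exact ⟨inferInstance, F.quot _ _ hF, m1⟩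
    · exact ⟨inferInstance, F.quot _ _ hF, m2⟩
  have h2 : ((F ⊓ law (w1 a * (w2 a)⁻¹)) ⊓ ((F ⊓ law (w1 a)) ⊔ (F ⊓ law (w2 a)))).mem
      (Yg p ⧸ N (1 : ZMod p) (-1)) := ⟨⟨hE, m3⟩, h1⟩
  rw [h'] at h2
  have h3 : ((F ⊓ law (w1 a * (w2 a)⁻¹)) ⊓ (F ⊓ law (w1 a))) ⊔
        ((F ⊓ law (w1 a * (w2 a)⁻¹)) ⊓ (F ⊓ law (w2 a))) ≤ law (w1 a) := by
    refine sup_le ?_ ?_
    · intro G _ _ hG
      exact hG.2.2
    · intro G _ _ hG f
      have e1 := hG.1.2 f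
      have e2 := hG.2.2 f
      rw [map_mul, map_inv, e2, inv_one, mul_one] at e1
      exact e1
  have h4 := h3 _ h2
  rw [law_quot] at h4
  obtain ⟨f, hf⟩ := exists_value a
  obtain ⟨k, hk⟩ := h4 f
  rw [lift_w1, (values a ha ha1 f).1] at hk
  have k1 := congrArg Yg.xyz hk
  have k2 := congrArg Yg.xzy hk
  dsimp only at k1 k2
  rw [one_mul] at k1
  rw [← k1, neg_one_mul] at k2
  exact hf (neg_eq_zero.1 k2.symm)

end Prime2

/-! ### The group is supersoluble -/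

/-- The chief series. -/
def K (p n : ℕ) : Subgroup (Yg p) where
  carrier := {g | (n < 10 → g.t = 1) ∧ (n < 9 → g.x = 0) ∧ (n < 8 → g.y = 0) ∧ (n < 7 → g.z = 0) ∧
    (n < 6 → g.xy = 0) ∧ (n < 5 → g.xz = 0) ∧ (n < 4 → g.yz = 0) ∧ (n < 3 → g.zy = 0) ∧
    (n < 2 → g.xyz = 0) ∧ (n < 1 → g.xzy = 0)}
  mul_mem' := by
    rintro a b ⟨a0, a1, a2, a3, a4, a5, a6, a7, a8, a9⟩ ⟨b0, b1, b2, b3, b4, b5, b6, b7, b8, b9⟩
    refine ⟨fun h => ?_, fun h => ?_, fun h => ?_, fun h => ?_, fun h => ?_, fun h => ?_,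
      fun h => ?_, fun h => ?_, fun h => ?_, fun h => ?_⟩
    · rw [mul_t, a0 h, b0 h, one_mul]
    · rw [mul_x, a1 h, b1 h]; ring
    · rw [mul_y, a2 h, b2 h]; ring
    · rw [mul_z, a3 h, b3 h]; ring
    · rw [mul_xy, a4 h, b4 h, b2 (by omega)]; ring
    · rw [mul_xz, a5 h, b5 h, b3 (by omega)]; ring
    · rw [mul_yz, a6 h, b6 h, b3 (by omega)]; ring
    · rw [mul_zy, a7 h, b7 h, b2 (by omega)]; ring
    · rw [mul_xyz, a8 h, b8 h, b6 (by omega), b3 (by omega)]; ring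
    · rw [mul_xzy, a9 h, b9 h, b7 (by omega), b2 (by omega)]; ring
  one_mem' := by
    refine ⟨fun _ => ?_, fun _ => ?_, fun _ => ?_, fun _ => ?_, fun _ => ?_, fun _ => ?_,
      fun _ => ?_, fun _ => ?_, fun _ => ?_, fun _ => ?_⟩ <;> rfl
  inv_mem' := by
    rintro a ⟨a0, a1, a2, a3, a4, a5, a6, a7, a8, a9⟩
    refine ⟨fun h => ?_, fun h => ?_, fun h => ?_, fun h => ?_, fun h => ?_, fun h => ?_,
      fun h => ?_, fun h => ?_, fun h => ?_, fun h => ?_⟩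
    · rw [inv_t, a0 h, inv_one]
    · rw [inv_x, a1 h]; ring
    · rw [inv_y, a2 h]; ring
    · rw [inv_z, a3 h]; ring
    · rw [inv_xy, a4 h, a2 (by omega)]; ring
    · rw [inv_xz, a5 h, a3 (by omega)]; ring
    · rw [inv_yz, a6 h, a3 (by omega)]; ring
    · rw [inv_zy, a7 h, a2 (by omega)]; ring
    · rw [inv_xyz, a8 h, a6 (by omega), a3 (by omega)]; ring
    · rw [inv_xzy, a9 h, a7 (by omega), a2 (by omega)]; ring

theorem mem_K {p n : ℕ} {g : Yg p} : g ∈ K p n ↔ (n < 10 → g.t = 1) ∧ (n < 9 → g.x = 0) ∧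
    (n < 8 → g.y = 0) ∧ (n < 7 → g.z = 0) ∧ (n < 6 → g.xy = 0) ∧ (n < 5 → g.xz = 0) ∧
    (n < 4 → g.yz = 0) ∧ (n < 3 → g.zy = 0) ∧ (n < 2 → g.xyz = 0) ∧ (n < 1 → g.xzy = 0) :=
  Iff.rfl

theorem K_le {m n : ℕ} (h : m ≤ n) : K p m ≤ K p n := by
  rintro a ⟨a0, a1, a2, a3, a4, a5, a6, a7, a8, a9⟩
  exact ⟨fun _ => a0 (by omega), fun _ => a1 (by omega), fun _ => a2 (by omega),
    fun _ => a3 (by omega), fun _ => a4 (by omega), fun _ => a5 (by omega),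
    fun _ => a6 (by omega), fun _ => a7 (by omega), fun _ => a8 (by omega),
    fun _ => a9 (by omega)⟩

theorem K_bot : K p 0 = ⊥ := by
  rw [eq_bot_iff]
  rintro a ⟨a0, a1, a2, a3, a4, a5, a6, a7, a8, a9⟩
  rw [Subgroup.mem_bot]
  apply Yg.ext
  · exact a0 (by norm_num)
  · exact a1 (by norm_num)
  · exact a2 (by norm_num)
  · exact a3 (by norm_num)
  · exact a4 (by norm_num)
  · exact a5 (by norm_num)
  · exact a6 (by norm_num)
  · exact a7 (by norm_num)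
  · exact a8 (by norm_num)
  · exact a9 (by norm_num)

theorem K_top {n : ℕ} (h : 10 ≤ n) : K p n = ⊤ := by
  rw [eq_top_iff]
  intro a _
  exact ⟨fun _ => by omega, fun _ => by omega, fun _ => by omega, fun _ => by omega,
    fun _ => by omega, fun _ => by omega, fun _ => by omega, fun _ => by omega,
    fun _ => by omega, fun _ => by omega⟩

theorem K_normal (n : ℕ) : (K p n).Normal := by
  constructor
  rintro a ⟨a0, a1, a2, a3, a4, a5, a6, a7, a8, a9⟩ g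
  have h1 : ((g.t⁻¹ : (ZMod p)ˣ) : ZMod p) * g.t = 1 := g.t.inv_mul
  have h2 : ((g.t⁻¹ : (ZMod p)ˣ) : ZMod p) ^ 2 * (g.t : ZMod p) ^ 2 = 1 := by
    rw [← mul_pow, h1, one_pow]
  have h3 : ((g.t⁻¹ : (ZMod p)ˣ) : ZMod p) ^ 3 * (g.t : ZMod p) ^ 3 = 1 := by
    rw [← mul_pow, h1, one_pow]
  refine ⟨fun h => ?_, fun h => ?_, fun h => ?_, fun h => ?_, fun h => ?_, fun h => ?_,
    fun h => ?_, fun h => ?_, fun h => ?_, fun h => ?_⟩
  · rw [mul_t, mul_t, inv_t, a0 h]; simp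
  · simp only [mul_x, inv_x, a1 h]; ring
  · simp only [mul_y, inv_y, mul_t, a0 (by omega), a2 h, Units.val_mul, Units.val_one]
    linear_combination (-g.y) * h1
  · simp only [mul_z, inv_z, mul_t, a0 (by omega), a3 h, Units.val_mul, Units.val_one]
    linear_combination (-g.z) * h2
  · simp only [mul_xy, mul_x, inv_xy, inv_y, mul_t, a0 (by omega), a1 (by omega),
      a2 (by omega), a4 h, Units.val_mul, Units.val_one]
    linear_combination (-g.xy) * h1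
  · simp only [mul_xz, mul_x, inv_xz, inv_z, mul_t, a0 (by omega), a1 (by omega),
      a3 (by omega), a5 h, Units.val_mul, Units.val_one]
    linear_combination (-g.xz) * h2
  · simp only [mul_yz, mul_y, inv_yz, inv_z, mul_t, a0 (by omega), a2 (by omega),
      a3 (by omega), a6 h, Units.val_mul, Units.val_one]
    linear_combination (-g.yz + g.y * g.z) * h3 - (g.y * g.z) * h2
  · simp only [mul_zy, mul_z, inv_zy, inv_y, mul_t, a0 (by omega), a2 (by omega),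
      a3 (by omega), a7 h, Units.val_mul, Units.val_one]
    linear_combination (-g.zy + g.z * g.y) * h3 - (g.z * g.y) * h1
  · simp only [mul_xyz, mul_x, mul_xy, inv_xyz, inv_yz, inv_z, mul_t, a0 (by omega),
      a1 (by omega), a2 (by omega), a3 (by omega), a4 (by omega), a6 (by omega), a8 h,
      Units.val_mul, Units.val_one]
    linear_combination (-g.xyz + g.x * g.yz + g.xy * g.z - g.x * g.y * g.z) * h3 +
      g.x * (-g.yz + g.y * g.z) * h3 - g.xy * g.z * h2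
  · simp only [mul_xzy, mul_x, mul_xz, inv_xzy, inv_zy, inv_y, mul_t, a0 (by omega),
      a1 (by omega), a2 (by omega), a3 (by omega), a5 (by omega), a7 (by omega), a9 h,
      Units.val_mul, Units.val_one]
    linear_combination (-g.xzy + g.x * g.zy + g.xz * g.y - g.x * g.z * g.y) * h3 +
      g.x * (-g.zy + g.z * g.y) * h3 - g.xz * g.y * h1

/-- The step of the series. -/
theorem K_succ {n : ℕ} {c : Yg p} (hc : c ∈ K p (n + 1))
    (h : ∀ g ∈ K p (n + 1), ∃ d ∈ Subgroup.zpowers c, g * d⁻¹ ∈ K p n) :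
    K p (n + 1) = K p n ⊔ Subgroup.zpowers c := by
  apply le_antisymm
  · intro g hg
    obtain ⟨d, hd, hgd⟩ := h g hg
    have e : g = (g * d⁻¹) * d := by group
    rw [e]
    exact Subgroup.mul_mem_sup hgd hd
  · refine sup_le (K_le (Nat.le_succ n)) ?_
    rw [Subgroup.zpowers_le]
    exact hc

/-- The elements of a cyclic group of order `p`. -/
theorem mem_zp [Fact p.Prime] (e : ZMod p → Yg p) (he : ∀ c d, e (c + d) = e c * e d) (c : ZMod p) :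
    e c ∈ Subgroup.zpowers (e 1) := by
  have h0 : e 0 = 1 := by
    have h := he 0 0
    rw [add_zero] at h
    exact left_eq_mul.1 h
  have h1 : ∀ n : ℕ, e n = e 1 ^ n := by
    intro n
    induction n with
    | zero => rw [Nat.cast_zero, h0, pow_zero]
    | succ n ih => rw [Nat.cast_succ, he, ih, pow_succ]
  have h2 := h1 c.val
  rw [ZMod.natCast_zmod_val] at h2
  rw [h2]
  exact Subgroup.npow_mem_zpowers _ _

theorem step0 [Fact p.Prime] :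
    K p 1 = K p 0 ⊔ Subgroup.zpowers (⟨1, 0, 0, 0, 0, 0, 0, 0, 0, 1⟩ : Yg p) := by
  refine K_succ (by simp [mem_K]) (fun g hg => ?_)
  refine ⟨_, mem_zp (fun c => ⟨1, 0, 0, 0, 0, 0, 0, 0, 0, c⟩) (fun c d => ?_) g.xzy, ?_⟩
  · apply Yg.ext <;>
      simp [mul_t, mul_x, mul_y, mul_z, mul_xy, mul_xz, mul_yz, mul_zy, mul_xyz, mul_xzy]
  · simp [mem_K] at hg
    simp [mem_K, mul_t, mul_x, mul_y, mul_z, mul_xy, mul_xz, mul_yz, mul_zy, mul_xyz, mul_xzy,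
      inv_t, inv_x, inv_y, inv_z, inv_xy, inv_xz, inv_yz, inv_zy, inv_xyz, inv_xzy, hg]

theorem step1 [Fact p.Prime] :
    K p 2 = K p 1 ⊔ Subgroup.zpowers (⟨1, 0, 0, 0, 0, 0, 0, 0, 1, 0⟩ : Yg p) := by
  refine K_succ (by simp [mem_K]) (fun g hg => ?_)
  refine ⟨_, mem_zp (fun c => ⟨1, 0, 0, 0, 0, 0, 0, 0, c, 0⟩) (fun c d => ?_) g.xyz, ?_⟩
  · apply Yg.ext <;>
      simp [mul_t, mul_x, mul_y, mul_z, mul_xy, mul_xz, mul_yz, mul_zy, mul_xyz, mul_xzy]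
  · simp [mem_K] at hg
    simp [mem_K, mul_t, mul_x, mul_y, mul_z, mul_xy, mul_xz, mul_yz, mul_zy, mul_xyz, mul_xzy,
      inv_t, inv_x, inv_y, inv_z, inv_xy, inv_xz, inv_yz, inv_zy, inv_xyz, inv_xzy, hg]

theorem step2 [Fact p.Prime] :
    K p 3 = K p 2 ⊔ Subgroup.zpowers (⟨1, 0, 0, 0, 0, 0, 0, 1, 0, 0⟩ : Yg p) := by
  refine K_succ (by simp [mem_K]) (fun g hg => ?_)
  refine ⟨_, mem_zp (fun c => ⟨1, 0, 0, 0, 0, 0, 0, c, 0, 0⟩) (fun c d => ?_) g.zy, ?_⟩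
  · apply Yg.ext <;>
      simp [mul_t, mul_x, mul_y, mul_z, mul_xy, mul_xz, mul_yz, mul_zy, mul_xyz, mul_xzy]
  · simp [mem_K] at hg
    simp [mem_K, mul_t, mul_x, mul_y, mul_z, mul_xy, mul_xz, mul_yz, mul_zy, mul_xyz, mul_xzy,
      inv_t, inv_x, inv_y, inv_z, inv_xy, inv_xz, inv_yz, inv_zy, inv_xyz, inv_xzy, hg]

theorem step3 [Fact p.Prime] :
    K p 4 = K p 3 ⊔ Subgroup.zpowers (⟨1, 0, 0, 0, 0, 0, 1, 0, 0, 0⟩ : Yg p) := by
  refine K_succ (by simp [mem_K]) (fun g hg => ?_)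
  refine ⟨_, mem_zp (fun c => ⟨1, 0, 0, 0, 0, 0, c, 0, 0, 0⟩) (fun c d => ?_) g.yz, ?_⟩
  · apply Yg.ext <;>
      simp [mul_t, mul_x, mul_y, mul_z, mul_xy, mul_xz, mul_yz, mul_zy, mul_xyz, mul_xzy]
  · simp [mem_K] at hg
    simp [mem_K, mul_t, mul_x, mul_y, mul_z, mul_xy, mul_xz, mul_yz, mul_zy, mul_xyz, mul_xzy,
      inv_t, inv_x, inv_y, inv_z, inv_xy, inv_xz, inv_yz, inv_zy, inv_xyz, inv_xzy, hg]

theorem step4 [Fact p.Prime] :
    K p 5 = K p 4 ⊔ Subgroup.zpowers (⟨1, 0, 0, 0, 0, 1, 0, 0, 0, 0⟩ : Yg p) := by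
  refine K_succ (by simp [mem_K]) (fun g hg => ?_)
  refine ⟨_, mem_zp (fun c => ⟨1, 0, 0, 0, 0, c, 0, 0, 0, 0⟩) (fun c d => ?_) g.xz, ?_⟩
  · apply Yg.ext <;>
      simp [mul_t, mul_x, mul_y, mul_z, mul_xy, mul_xz, mul_yz, mul_zy, mul_xyz, mul_xzy]
  · simp [mem_K] at hg
    simp [mem_K, mul_t, mul_x, mul_y, mul_z, mul_xy, mul_xz, mul_yz, mul_zy, mul_xyz, mul_xzy,
      inv_t, inv_x, inv_y, inv_z, inv_xy, inv_xz, inv_yz, inv_zy, inv_xyz, inv_xzy, hg]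

theorem step5 [Fact p.Prime] :
    K p 6 = K p 5 ⊔ Subgroup.zpowers (⟨1, 0, 0, 0, 1, 0, 0, 0, 0, 0⟩ : Yg p) := by
  refine K_succ (by simp [mem_K]) (fun g hg => ?_)
  refine ⟨_, mem_zp (fun c => ⟨1, 0, 0, 0, c, 0, 0, 0, 0, 0⟩) (fun c d => ?_) g.xy, ?_⟩
  · apply Yg.ext <;>
      simp [mul_t, mul_x, mul_y, mul_z, mul_xy, mul_xz, mul_yz, mul_zy, mul_xyz, mul_xzy]
  · simp [mem_K] at hg
    simp [mem_K, mul_t, mul_x, mul_y, mul_z, mul_xy, mul_xz, mul_yz, mul_zy, mul_xyz, mul_xzy,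
      inv_t, inv_x, inv_y, inv_z, inv_xy, inv_xz, inv_yz, inv_zy, inv_xyz, inv_xzy, hg]

theorem step6 [Fact p.Prime] :
    K p 7 = K p 6 ⊔ Subgroup.zpowers (⟨1, 0, 0, 1, 0, 0, 0, 0, 0, 0⟩ : Yg p) := by
  refine K_succ (by simp [mem_K]) (fun g hg => ?_)
  refine ⟨_, mem_zp (fun c => ⟨1, 0, 0, c, 0, 0, 0, 0, 0, 0⟩) (fun c d => ?_) g.z, ?_⟩
  · apply Yg.ext <;>
      simp [mul_t, mul_x, mul_y, mul_z, mul_xy, mul_xz, mul_yz, mul_zy, mul_xyz, mul_xzy]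
  · simp [mem_K] at hg
    simp [mem_K, mul_t, mul_x, mul_y, mul_z, mul_xy, mul_xz, mul_yz, mul_zy, mul_xyz, mul_xzy,
      inv_t, inv_x, inv_y, inv_z, inv_xy, inv_xz, inv_yz, inv_zy, inv_xyz, inv_xzy, hg]

theorem step7 [Fact p.Prime] :
    K p 8 = K p 7 ⊔ Subgroup.zpowers (⟨1, 0, 1, 0, 0, 0, 0, 0, 0, 0⟩ : Yg p) := by
  refine K_succ (by simp [mem_K]) (fun g hg => ?_)
  refine ⟨_, mem_zp (fun c => ⟨1, 0, c, 0, 0, 0, 0, 0, 0, 0⟩) (fun c d => ?_) g.y, ?_⟩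
  · apply Yg.ext <;>
      simp [mul_t, mul_x, mul_y, mul_z, mul_xy, mul_xz, mul_yz, mul_zy, mul_xyz, mul_xzy]
  · simp [mem_K] at hg
    simp [mem_K, mul_t, mul_x, mul_y, mul_z, mul_xy, mul_xz, mul_yz, mul_zy, mul_xyz, mul_xzy,
      inv_t, inv_x, inv_y, inv_z, inv_xy, inv_xz, inv_yz, inv_zy, inv_xyz, inv_xzy, hg]

theorem step8 [Fact p.Prime] :
    K p 9 = K p 8 ⊔ Subgroup.zpowers (⟨1, 1, 0, 0, 0, 0, 0, 0, 0, 0⟩ : Yg p) := by
  refine K_succ (by simp [mem_K]) (fun g hg => ?_)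
  refine ⟨_, mem_zp (fun c => ⟨1, c, 0, 0, 0, 0, 0, 0, 0, 0⟩) (fun c d => ?_) g.x, ?_⟩
  · apply Yg.ext <;>
      simp [mul_t, mul_x, mul_y, mul_z, mul_xy, mul_xz, mul_yz, mul_zy, mul_xyz, mul_xzy]
  · simp [mem_K] at hg
    simp [mem_K, mul_t, mul_x, mul_y, mul_z, mul_xy, mul_xz, mul_yz, mul_zy, mul_xyz, mul_xzy,
      inv_t, inv_x, inv_y, inv_z, inv_xy, inv_xz, inv_yz, inv_zy, inv_xyz, inv_xzy, hg]


/-- The torus. -/
def tor (p : ℕ) : (ZMod p)ˣ →* Yg p where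
  toFun t := ⟨t, 0, 0, 0, 0, 0, 0, 0, 0, 0⟩
  map_one' := rfl
  map_mul' s t := by
    apply Yg.ext <;>
      simp [mul_t, mul_x, mul_y, mul_z, mul_xy, mul_xz, mul_yz, mul_zy, mul_xyz, mul_xzy]

theorem step9 (a : (ZMod p)ˣ) (ha : ∀ m, m ∈ Subgroup.zpowers a) :
    K p 10 = K p 9 ⊔ Subgroup.zpowers (tor p a) := by
  refine K_succ (by rw [K_top (le_refl 10)]; trivial) (fun g _ => ?_)
  refine ⟨tor p g.t, ?_, ?_⟩
  · rw [← MonoidHom.map_zpowers]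
    exact ⟨g.t, ha _, rfl⟩
  · rw [mem_K]
    refine ⟨fun _ => ?_, fun h => absurd h (by norm_num), fun h => absurd h (by norm_num),
      fun h => absurd h (by norm_num), fun h => absurd h (by norm_num),
      fun h => absurd h (by norm_num), fun h => absurd h (by norm_num),
      fun h => absurd h (by norm_num), fun h => absurd h (by norm_num),
      fun h => absurd h (by norm_num)⟩
    rw [mul_t, inv_t]
    exact mul_inv_cancel g.t

theorem supersol [Fact p.Prime] (a : (ZMod p)ˣ) (ha : ∀ m, m ∈ Subgroup.zpowers a) :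
    Supersol (Yg p) := by
  refine ⟨10, K p, K_bot, K_top le_rfl, K_normal, fun i => ?_⟩
  match i with
  | 0 => exact ⟨_, step0⟩
  | 1 => exact ⟨_, step1⟩
  | 2 => exact ⟨_, step2⟩
  | 3 => exact ⟨_, step3⟩
  | 4 => exact ⟨_, step4⟩
  | 5 => exact ⟨_, step5⟩
  | 6 => exact ⟨_, step6⟩
  | 7 => exact ⟨_, step7⟩
  | 8 => exact ⟨_, step8⟩
  | 9 => exact ⟨_, step9 a ha⟩
  | i + 10 =>
    refine ⟨1, ?_⟩
    rw [K_top (by omega), K_top (by omega)]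
    simp

/-! ### Sylow subgroups -/

theorem comm_K9 {a b : Yg p} (ha : a ∈ K p 9) (hb : b ∈ K p 9) : ⁅a, b⁆ ∈ K p 6 := by
  obtain ⟨h1, h2, h3⟩ := comm_1 a b (ha.1 (by norm_num)) (hb.1 (by norm_num))
  refine ⟨fun _ => comm_t a b, fun _ => h1, fun _ => h2, fun _ => h3,
      fun h => absurd h (by norm_num), fun h => absurd h (by norm_num),
      fun h => absurd h (by norm_num), fun h => absurd h (by norm_num),
      fun h => absurd h (by norm_num), fun h => absurd h (by norm_num)⟩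

theorem comm_K6 {a b : Yg p} (ha : a ∈ K p 6) (hb : b ∈ K p 9) : ⁅a, b⁆ ∈ K p 2 := by
  obtain ⟨a0, a1, a2, a3, -⟩ := ha
  rw [comm_3 a b (a0 (by norm_num)) (hb.1 (by norm_num)) (a1 (by norm_num)) (a2 (by norm_num))
    (a3 (by norm_num))]
  simp [mem_K]

theorem comm_K2 {a b : Yg p} (ha : a ∈ K p 2) (hb : b ∈ K p 9) : ⁅a, b⁆ = 1 := by
  obtain ⟨a0, a1, a2, a3, a4, a5, a6, a7, -⟩ := ha
  rw [comm_3 a b (a0 (by norm_num)) (hb.1 (by norm_num)) (a1 (by norm_num)) (a2 (by norm_num))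
    (a3 (by norm_num)), a4 (by norm_num), a5 (by norm_num), a6 (by norm_num), a7 (by norm_num),
    zero_mul, zero_mul, mul_zero, sub_zero]
  rfl

theorem pow_K9 {a : Yg p} (ha : a ∈ K p 9) : a ^ p ∈ K p 6 := by
  obtain ⟨h1, h2, h3, h4⟩ := pow_L a (ha.1 (by norm_num)) p
  rw [CharP.cast_eq_zero, zero_mul] at h2 h3 h4
  refine ⟨fun _ => h1, fun _ => h2, fun _ => h3, fun _ => h4,
      fun h => absurd h (by norm_num), fun h => absurd h (by norm_num),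
      fun h => absurd h (by norm_num), fun h => absurd h (by norm_num),
      fun h => absurd h (by norm_num), fun h => absurd h (by norm_num)⟩

theorem pow_K6 {a : Yg p} (ha : a ∈ K p 6) : a ^ p ∈ K p 2 := by
  obtain ⟨h1, h2, h3, h4⟩ := pow_L a (ha.1 (by norm_num)) p
  obtain ⟨a0, a1, a2, a3, -⟩ := ha
  obtain ⟨h5, h6, h7, h8⟩ := pow_L2 a (a0 (by norm_num)) (a2 (by norm_num)) (a3 (by norm_num)) p
  rw [CharP.cast_eq_zero, zero_mul] at h2 h3 h4 h5 h6 h7 h8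
  refine ⟨fun _ => h1, fun _ => h2, fun _ => h3, fun _ => h4, fun _ => h5, fun _ => h6,
      fun _ => h7, fun _ => h8, fun h => absurd h (by norm_num), fun h => absurd h (by norm_num)⟩

theorem pow_K2 {a : Yg p} (ha : a ∈ K p 2) : a ^ p = 1 := by
  obtain ⟨h1, h2, h3, h4⟩ := pow_L a (ha.1 (by norm_num)) p
  obtain ⟨a0, a1, a2, a3, a4, a5, a6, a7, -⟩ := ha
  obtain ⟨h5, h6, h7, h8⟩ := pow_L2 a (a0 (by norm_num)) (a2 (by norm_num)) (a3 (by norm_num)) p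
  obtain ⟨h9, h10⟩ := pow_L3 a (a0 (by norm_num)) (a2 (by norm_num)) (a3 (by norm_num))
    (a6 (by norm_num)) (a7 (by norm_num)) p
  rw [CharP.cast_eq_zero, zero_mul] at h2 h3 h4 h5 h6 h7 h8 h9 h10
  exact Yg.ext h1 h2 h3 h4 h5 h6 h7 h8 h9 h10

theorem mem_K9 {a : Yg p} (ha : a.t = 1) : a ∈ K p 9 :=
  ⟨fun _ => ha, fun h => absurd h (by norm_num), fun h => absurd h (by norm_num),
      fun h => absurd h (by norm_num), fun h => absurd h (by norm_num),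
      fun h => absurd h (by norm_num), fun h => absurd h (by norm_num),
      fun h => absurd h (by norm_num), fun h => absurd h (by norm_num),
      fun h => absurd h (by norm_num)⟩

theorem pow_t1 {a : Yg p} (ha : a.t = 1) : a ^ p ^ 3 = 1 := by
  have h := pow_K2 (pow_K6 (pow_K9 (mem_K9 ha)))
  rw [← pow_mul, ← pow_mul] at h
  rw [← h]
  congr 1
  ring

section Prime4

variable [Fact p.Prime]

theorem sylow_le (P : Sylow p (Yg p)) : (P : Subgroup (Yg p)) ≤ K p 9 := by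
  intro g hg
  apply mem_K9
  obtain ⟨k, hk⟩ := P.2 ⟨g, hg⟩
  have hk' : g ^ p ^ k = 1 := congrArg Subtype.val hk
  have h1 : g.t ^ p ^ k = 1 := by rw [← pow_t, hk']; rfl
  have h2 : g.t ^ (p - 1) = 1 := by
    rw [← ZMod.card_units p]
    exact pow_card_eq_one
  have h3 : orderOf g.t ∣ Nat.gcd (p ^ k) (p - 1) :=
    Nat.dvd_gcd (orderOf_dvd_of_pow_eq_one h1) (orderOf_dvd_of_pow_eq_one h2)
  have h4 : Nat.gcd (p ^ k) (p - 1) = 1 := by
    apply Nat.Coprime.pow_left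
    have := (Fact.out : p.Prime).one_lt
    rw [Nat.Prime.coprime_iff_not_dvd Fact.out]
    intro h
    have := Nat.le_of_dvd (by omega) h
    omega
  rw [h4, Nat.dvd_one, orderOf_eq_one_iff] at h3
  exact h3

theorem class3 (P : Sylow p (Yg p)) : (P : Subgroup (Yg p)).lowerCentralSeries 3 = ⊥ := by
  have h0 := sylow_le P
  have h1 : (P : Subgroup (Yg p)).lowerCentralSeries 1 ≤ K p 6 := by
    rw [Subgroup.lowerCentralSeries_succ, Subgroup.commutator_le]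
    intro a ha b hb
    exact comm_K9 (h0 ha) (h0 hb)
  have h2 : (P : Subgroup (Yg p)).lowerCentralSeries 2 ≤ K p 2 := by
    rw [Subgroup.lowerCentralSeries_succ, Subgroup.commutator_le]
    intro a ha b hb
    exact comm_K6 (h1 ha) (h0 hb)
  rw [eq_bot_iff, Subgroup.lowerCentralSeries_succ, Subgroup.commutator_le]
  intro a ha b hb
  rw [comm_K2 (h2 ha) (h0 hb)]
  exact Subgroup.one_mem _

theorem other (q : ℕ) (hq : q.Prime) (hqp : q ≠ p) (Q : Sylow q (Yg p)) (x : Yg p) (hx : x ∈ Q)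
    (y : Yg p) (hy : y ∈ Q) : x * y = y * x := by
  have hc : ⁅x, y⁆ ∈ (Q : Subgroup (Yg p)) := by
    rw [commutatorElement_def]
    exact mul_mem (mul_mem (mul_mem hx hy) (inv_mem hx)) (inv_mem hy)
  obtain ⟨k, hk⟩ := Q.2 ⟨_, hc⟩
  have hk' : ⁅x, y⁆ ^ q ^ k = 1 := congrArg Subtype.val hk
  have h1 := pow_t1 (comm_t x y)
  have h3 : orderOf ⁅x, y⁆ ∣ Nat.gcd (q ^ k) (p ^ 3) :=
    Nat.dvd_gcd (orderOf_dvd_of_pow_eq_one hk') (orderOf_dvd_of_pow_eq_one h1)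
  have h4 : Nat.gcd (q ^ k) (p ^ 3) = 1 :=
    Nat.Coprime.pow _ _ ((Nat.coprime_primes hq Fact.out).2 hqp)
  rw [h4, Nat.dvd_one, orderOf_eq_one_iff, commutatorElement_eq_one_iff_mul_comm] at h3
  exact h3

end Prime4

end Y_

/-- The obstruction. -/
theorem p_Y : T_Y := by
  intro p hp hp5
  have : Fact p.Prime := ⟨hp⟩
  obtain ⟨a, ha⟩ := IsCyclic.exists_generator (α := (ZMod p)ˣ)
  have hcard : Nat.card (ZMod p)ˣ = p - 1 := by
    rw [Nat.card_eq_fintype_card, ZMod.card_units]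
  have ho : orderOf a = p - 1 := by
    rw [← hcard]
    exact orderOf_eq_card_of_forall_mem_zpowers ha
  have h1 : a ^ 2 ≠ 1 := by
    intro h
    have h2 := orderOf_dvd_of_pow_eq_one h
    rw [ho] at h2
    have := Nat.le_of_dvd (by norm_num) h2
    omega
  have h2 : ∀ m : (ZMod p)ˣ, m ^ 2 ≠ a := by
    intro m hm
    have h3 : a ^ ((p - 1) / 2) = 1 := by
      rw [← hm, ← pow_mul, Nat.mul_div_cancel' , ← ZMod.card_units p]
      · exact pow_card_eq_one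
      · exact (hp.even_sub_one (by omega)).two_dvd
    have h4 := orderOf_dvd_of_pow_eq_one h3
    rw [ho] at h4
    have := Nat.le_of_dvd (by omega) h4
    omega
  exact ⟨Y_.Yg p, inferInstance, inferInstance,
    ⟨Y_.supersol a ha, Y_.class3, fun q hq hqp Q x hx y hy => Y_.other q hq hqp Q x hx y hy⟩,
    fun F hF => Y_.obstruction a h2 h1 F hF⟩

end Pool.Agent.Fcl2
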