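import Pool.Agent.Fcl2.FIN
import Pool.Agent.Fcl2.U
import Pool.Agent.Fcl2.Y

/-!
# Supersoluble groups with Sylow subgroups of bounded class
-/

set_option autoImplicit false
set_option linter.unusedVariables false

namespace Pool.Agent.Fcl2

open Pool.Agent.Formn Pool.Agent.Formn.Formation
open scoped commutatorElement

/-- `G` is supersoluble and its Sylow `q`-subgroups have class at most `c q`, for all primes `q`. -/
def SC (c : ℕ → ℕ) (G : Type) [Group G] : Prop :=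
  Supersol G ∧ ∀ q : ℕ, q.Prime → ∀ Q : Sylow q G, (Q : Subgroup G).lowerCentralSeries (c q) = ⊥

theorem SC_map {c : ℕ → ℕ} {G G' : Type} [Group G] [Finite G] [Group G'] [Finite G']
    (f : G →* G') (hf : Function.Surjective f) (h : SC c G) : SC c G' := by
  obtain ⟨h1, h2⟩ := h
  refine ⟨U_.supersol_map f hf h1, ?_⟩
  intro q hq P
  have hFq : Fact q.Prime := ⟨hq⟩
  obtain ⟨Q, rfl⟩ := Sylow.mapSurjective_surjective hf q P
  rw [Sylow.coe_mapSurjective, ← Subgroup.map_lowerCentralSeries, h2 q hq Q, Subgroup.map_bot]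

theorem SC_sub {c : ℕ → ℕ} {G G₁ G₂ : Type} [Group G] [Finite G] [Group G₁] [Finite G₁] [Group G₂]
    [Finite G₂] (f₁ : G →* G₁) (f₂ : G →* G₂) (hf₁ : Function.Surjective f₁)
    (hf₂ : Function.Surjective f₂) (hk : ∀ x, f₁ x = 1 → f₂ x = 1 → x = 1) (h₁ : SC c G₁)
    (h₂ : SC c G₂) : SC c G := by
  obtain ⟨a1, a2⟩ := h₁
  obtain ⟨b1, b2⟩ := h₂
  refine ⟨U_.supersol_sub f₁ f₂ hf₁ hf₂ hk a1 b1, ?_⟩
  intro q hq P
  have hFq : Fact q.Prime := ⟨hq⟩
  rw [eq_bot_iff]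
  intro x hx
  apply Subgroup.mem_bot.mpr
  have e1 := a2 q hq (P.mapSurjective hf₁)
  have e2 := b2 q hq (P.mapSurjective hf₂)
  rw [Sylow.coe_mapSurjective, ← Subgroup.map_lowerCentralSeries] at e1 e2
  apply hk
  · have := Subgroup.mem_map_of_mem f₁ hx
    rw [e1] at this
    exact Subgroup.mem_bot.mp this
  · have := Subgroup.mem_map_of_mem f₂ hx
    rw [e2] at this
    exact Subgroup.mem_bot.mp this

/-- The formation of the supersoluble groups whose Sylow `q`-subgroups have class at most `c q` for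
all primes `q`. -/
def UF (c : ℕ → ℕ) : Formation where
  mem G _ _ := SC c G
  iso G H _ _ _ _ e h := SC_map e.toMonoidHom e.surjective h
  quot G _ _ N _ h := SC_map (QuotientGroup.mk' N) (QuotientGroup.mk'_surjective N) h
  sub G _ _ N₁ N₂ _ _ h₁ h₂ := by
    let g₁ : G ⧸ (N₁ ⊓ N₂) →* G ⧸ N₁ :=
      QuotientGroup.map (N₁ ⊓ N₂) N₁ (MonoidHom.id G) (fun x hx => hx.1)
    let g₂ : G ⧸ (N₁ ⊓ N₂) →* G ⧸ N₂ :=
      QuotientGroup.map (N₁ ⊓ N₂) N₂ (MonoidHom.id G) (fun x hx => hx.2)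
    refine SC_sub g₁ g₂ ?_ ?_ ?_ h₁ h₂
    · intro y
      obtain ⟨x, rfl⟩ := QuotientGroup.mk_surjective y
      exact ⟨QuotientGroup.mk x, rfl⟩
    · intro y
      obtain ⟨x, rfl⟩ := QuotientGroup.mk_surjective y
      exact ⟨QuotientGroup.mk x, rfl⟩
    · intro y k1 k2
      obtain ⟨x, rfl⟩ := QuotientGroup.mk_surjective y
      have k1' : (QuotientGroup.mk x : G ⧸ N₁) = 1 := k1
      have k2' : (QuotientGroup.mk x : G ⧸ N₂) = 1 := k2
      rw [QuotientGroup.eq_one_iff] at k1' k2' ⊢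
      exact ⟨k1', k2'⟩

theorem lcs_mono {G : Type} [Group G] (S : Subgroup G) {m n : ℕ} (h : m ≤ n)
    (hm : S.lowerCentralSeries m = ⊥) : S.lowerCentralSeries n = ⊥ := by
  induction n, h using Nat.le_induction with
  | base => exact hm
  | succ n hn ih =>
    rw [Subgroup.lowerCentralSeries_succ, ih, Subgroup.commutator_bot_left]

/-- The dichotomy. -/
theorem dichotomy (c : ℕ → ℕ) (h1 : ∀ q : ℕ, q.Prime → 1 ≤ c q) (h2 : c 2 ≤ 2) (h3 : c 3 ≤ 2) :
    (∀ x y z : Set.Iic (UF c), x ⊓ (y ⊔ z) = (x ⊓ y) ⊔ (x ⊓ z)) ↔ ∀ q : ℕ, q.Prime → c q ≤ 2 := by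
  constructor
  · intro hD p hp
    by_contra hc
    have hp5 : 5 ≤ p := by
      have h4 := hp.two_le
      by_contra h5
      interval_cases p
      · omega
      · omega
      · exact absurd hp (by decide)
    obtain ⟨Y, _, _, hY, hYF⟩ := p_Y p hp hp5
    refine hYF (UF c) ⟨hY.1, fun q hq Q => ?_⟩ hD
    by_cases hqp : q = p
    · subst hqp
      exact lcs_mono _ (by omega) (hY.2.1 Q)
    · refine lcs_mono (m := 1) _ (h1 q hq) ?_
      rw [Subgroup.lowerCentralSeries_succ, Subgroup.lowerCentralSeries_zero, eq_bot_iff,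
        Subgroup.commutator_le]
      intro x hx y hy
      rw [Subgroup.mem_bot, commutatorElement_eq_one_iff_mul_comm]
      exact hY.2.2 q hq hqp Q x hx y hy
  · intro hc
    have hcrit : Crit (UF c) := by
      refine crit_two (UF c) (fun G _ _ hG p hp _ => Or.inr ?_)
      exact ⟨fun P => lcs_mono _ (hc p hp) (hG.2 p hp P), p_SS G hG.1 p hp⟩
    rintro ⟨X, hX⟩ ⟨Y, hY⟩ ⟨Z, hZ⟩
    exact Subtype.ext ((crit_iff (UF c)).2 hcrit X Y Z hX hY hZ)

end Pool.Agent.Fcl2
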