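import Pool.Agent.Fcl2.CORE2

/-!
# The criterion
-/

set_option autoImplicit false
set_option linter.unusedVariables false

namespace Pool.Agent.Fcl2

open Pool.Agent.Formn Pool.Agent.Formn.Formation
open scoped commutatorElement

/-- The action on a quotient. -/
@[reducible]
def quotAct {H P : Type} [Group H] [Group P] [MulDistribMulAction H P] (K : Subgroup P) [K.Normal]
    (hK : ∀ (h : H), ∀ x ∈ K, h • x ∈ K) : MulDistribMulAction H (P ⧸ K) where
  smul h := QuotientGroup.map K K (MulDistribMulAction.toMonoidHom P h) (fun x hx => hK h x hx)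
  one_smul := by
    rintro ⟨x⟩
    exact congrArg (QuotientGroup.mk (s := K)) (one_smul H x)
  mul_smul := by
    rintro g h ⟨x⟩
    exact congrArg (QuotientGroup.mk (s := K)) (mul_smul g h x)
  smul_one h := map_one (QuotientGroup.map K K (MulDistribMulAction.toMonoidHom P h) _)
  smul_mul h x y := map_mul (QuotientGroup.map K K (MulDistribMulAction.toMonoidHom P h) _) x y

/-- The action by conjugation of a subgroup on a normal subgroup. -/
@[reducible]
def conjAct' {A : Type} [Group A] (P H : Subgroup A) [P.Normal] : MulDistribMulAction H P where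
  smul h x := ⟨(h : A) * x * (h : A)⁻¹, (inferInstance : P.Normal).conj_mem _ x.2 _⟩
  one_smul x := by
    apply Subtype.ext
    change (1 : A) * x * (1 : A)⁻¹ = x
    group
  mul_smul g h x := by
    apply Subtype.ext
    change ((g : A) * h) * x * ((g : A) * h)⁻¹ = g * (h * x * (h : A)⁻¹) * (g : A)⁻¹
    group
  smul_one h := by
    apply Subtype.ext
    change (h : A) * 1 * (h : A)⁻¹ = 1
    group
  smul_mul h x y := by
    apply Subtype.ext
    change (h : A) * (x * y) * (h : A)⁻¹ = (h * x * (h : A)⁻¹) * (h * y * (h : A)⁻¹)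
    group

theorem case_b {A : Type} [Group A] [Finite A] (p : ℕ) (hp : p.Prime)
    {D : Subgroup A} (hD : socle A = D) (hDp : ∀ x ∈ D, x ^ p = 1) (P : Sylow p A)
    (h2 : (P : Subgroup A).lowerCentralSeries 2 = ⊥)
    (hK : ∃ K : Subgroup A, K.Normal ∧ ¬ p ∣ Nat.card K ∧ ∀ x ∈ commutator A, ∃ k : ℕ, x ^ p ^ k ∈ K)
    (N : Fin 3 → Subgroup A) [∀ i, (N i).Normal] (hN : ∀ i, IsMinNormal (N i))
    (hinf : ∀ i j, i ≠ j → N i ⊓ N j = ⊥) :
    ((gen (A ⧸ N 0) ⊓ gen (A ⧸ N 1)) ⊔ (gen (A ⧸ N 0) ⊓ gen (A ⧸ N 2)) ⊔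
      (gen (A ⧸ N 1) ⊓ gen (A ⧸ N 2))).mem A := by
  classical
  have hfact : Fact p.Prime := ⟨hp⟩
  -- `K = 1`
  obtain ⟨K, hKn, hKp, hKc⟩ := hK
  have hK0 : K = ⊥ := by
    by_contra hK0
    obtain ⟨M, hM, hMK⟩ := AbSyl.exists_min K hKn hK0
    have hMD : M ≤ D := by
      rw [← hD]
      exact le_sSup hM
    obtain ⟨⟨x, hx⟩, hx0⟩ := Subgroup.ne_bot_iff_exists_ne_one.1 hM.2.1
    have hx1 : x ≠ 1 := fun h => hx0 (Subtype.ext h)
    apply hKp
    have h3 : orderOf x = p := orderOf_eq_prime (hDp x (hMD hx)) hx1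
    rw [← h3]
    have h4 : orderOf (⟨x, hMK hx⟩ : K) = orderOf x := by
      rw [← Subgroup.orderOf_coe]
    rw [← h4]
    exact orderOf_dvd_natCard _
  have hCp : IsPGroup p (commutator A) := by
    rintro ⟨x, hx⟩
    obtain ⟨k, hk⟩ := hKc x hx
    rw [hK0, Subgroup.mem_bot] at hk
    exact ⟨k, Subtype.ext hk⟩
  have hCP : commutator A ≤ P := hCp.le_sylow_of_normal P
  have hPn : (P : Subgroup A).Normal := Subgroup.Normal.of_commutator_le (G := A) hCP
  obtain ⟨H, hH⟩ := Subgroup.exists_right_complement'_of_coprime P.card_coprime_index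
  have hPH : (P : Subgroup A) ⊓ H = ⊥ := disjoint_iff.1 hH.disjoint
  have hHcomm : ∀ x ∈ H, ∀ y ∈ H, x * y = y * x := by
    intro x hx y hy
    have h3 : x * y * x⁻¹ * y⁻¹ ∈ (P : Subgroup A) ⊓ H :=
      ⟨hCP (Subgroup.commutator_mem_commutator (Subgroup.mem_top x) (Subgroup.mem_top y)),
        H.mul_mem (H.mul_mem (H.mul_mem hx hy) (H.inv_mem hx)) (H.inv_mem hy)⟩
    rw [hPH, Subgroup.mem_bot, mul_inv_eq_one, mul_inv_eq_iff_eq_mul] at h3
    exact h3
  have hHc : ¬ p ∣ Nat.card H := by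
    rw [← hH.symm.index_eq_card]
    exact P.not_dvd_index
  let instH : CommGroup H :=
    { (inferInstance : Group H) with mul_comm := fun x y => Subtype.ext (hHcomm x x.2 y y.2) }
  let act : MulDistribMulAction H (P : Subgroup A) := conjAct' (P : Subgroup A) H
  have hact : ∀ (h : H) (x : (P : Subgroup A)), ((h • x : (P : Subgroup A)) : A) = h * x * (h : A)⁻¹ :=
    fun _ _ => rfl
  -- the isomorphism
  let Φ : E H (P : Subgroup A) →* A :=
    { toFun := fun x => (x.left : A) * (x.right : A)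
      map_one' := by
        change (1 : A) * 1 = 1
        rw [one_mul]
      map_mul' := fun x y => by
        change ((x.left : A) * ((x.right : A) * y.left * (x.right : A)⁻¹)) * ((x.right : A) * y.right) =
          x.left * x.right * (y.left * y.right)
        group }
  have hΦ : Function.Bijective Φ := by
    constructor
    · rw [injective_iff_map_eq_one]
      rintro ⟨x, h⟩ hx
      have h3 : (x : A) * (h : A) = 1 := hx
      have h4 : (x : A) ∈ (P : Subgroup A) ⊓ H := by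
        refine ⟨x.2, ?_⟩
        rw [eq_inv_of_mul_eq_one_left h3]
        exact H.inv_mem h.2
      rw [hPH, Subgroup.mem_bot] at h4
      rw [h4, one_mul] at h3
      apply SemidirectProduct.ext
      · exact Subtype.ext h4
      · exact Subtype.ext h3
    · intro g
      have h3 : g ∈ (((P : Subgroup A) ⊔ H : Subgroup A) : Set A) := by
        rw [hH.sup_eq_top]; trivial
      rw [Subgroup.normal_mul] at h3
      obtain ⟨a, ha, b, hb, rfl⟩ := h3
      exact ⟨⟨⟨a, ha⟩, ⟨b, hb⟩⟩, rfl⟩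
  let e : E H (P : Subgroup A) ≃* A := MulEquiv.ofBijective Φ hΦ
  -- class two
  have hcl : ⁅⁅(P : Subgroup A), (P : Subgroup A)⁆, (P : Subgroup A)⁆ = ⊥ := h2
  have hcl2 : ∀ x y z : (P : Subgroup A), x * y * x⁻¹ * y⁻¹ * z = z * (x * y * x⁻¹ * y⁻¹) := by
    intro x y z
    have h3 : ⁅⁅(x : A), (y : A)⁆, (z : A)⁆ ∈ ⁅⁅(P : Subgroup A), (P : Subgroup A)⁆, (P : Subgroup A)⁆ :=
      Subgroup.commutator_mem_commutator (Subgroup.commutator_mem_commutator x.2 y.2) z.2
    rw [hcl, Subgroup.mem_bot, commutatorElement_eq_one_iff_mul_comm] at h3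
    exact Subtype.ext h3
  -- the minimal normal subgroups
  have hND : ∀ i, N i ≤ D := fun i => by
    rw [← hD]
    exact le_sSup (hN i)
  have hNp : ∀ i, IsPGroup p (N i) := fun i x => ⟨1, by
    rw [pow_one]
    exact Subtype.ext (hDp x (hND i x.2))⟩
  have hNP : ∀ i, N i ≤ P := fun i => (hNp i).le_sylow_of_normal P
  have hNc : ∀ i, ∀ x ∈ N i, ∀ y ∈ (P : Subgroup A), x * y = y * x := by
    intro i
    have h3 : ⁅N i, (P : Subgroup A)⁆ ≤ N i := Subgroup.commutator_le_left _ _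
    rcases (hN i).2.2 ⁅N i, (P : Subgroup A)⁆ inferInstance h3 with h4 | h4
    · intro x hx y hy
      have h5 : ⁅x, y⁆ ∈ ⁅N i, (P : Subgroup A)⁆ := Subgroup.commutator_mem_commutator hx hy
      rw [h4, Subgroup.mem_bot, commutatorElement_eq_one_iff_mul_comm] at h5
      exact h5
    · exfalso
      apply (hN i).2.1
      rw [eq_bot_iff, ← hcl]
      calc N i = ⁅⁅N i, (P : Subgroup A)⁆, (P : Subgroup A)⁆ := by rw [h4, h4]
        _ ≤ _ := Subgroup.commutator_mono (Subgroup.commutator_mono (hNP i) le_rfl) le_rfl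
  -- the quotients
  let R : Fin 3 → Subgroup (P : Subgroup A) := fun i => (N i).subgroupOf P
  have hRn : ∀ i, (R i).Normal := fun i => Subgroup.Normal.subgroupOf inferInstance _
  have hRi : ∀ i (h : H), ∀ x ∈ R i, h • x ∈ R i := by
    intro i h x hx
    exact (inferInstance : (N i).Normal).conj_mem _ hx _
  let instQ : ∀ i, MulDistribMulAction H ((P : Subgroup A) ⧸ R i) := fun i => quotAct (R i) (hRi i)
  have hmem : ∀ i, MemH (gen (A ⧸ N i)) H ((P : Subgroup A) ⧸ R i) := by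
    intro i
    have he : ∀ (h : H) (x : (P : Subgroup A)), QuotientGroup.mk' (R i) (h • x) =
        h • QuotientGroup.mk' (R i) x := fun _ _ => rfl
    let ρ : A →* E H ((P : Subgroup A) ⧸ R i) :=
      (emap (QuotientGroup.mk' (R i)) he).comp e.symm.toMonoidHom
    have hρ : Function.Surjective ρ :=
      (emap_surj (QuotientGroup.mk' (R i)) he (QuotientGroup.mk'_surjective (R i))).comp
        e.symm.surjective
    have hker : ∀ x ∈ N i, ρ x = 1 := by
      intro x hx
      have h3 : e.symm x = ⟨⟨x, hNP i hx⟩, 1⟩ := by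
        rw [MulEquiv.symm_apply_eq]
        exact (mul_one x).symm
      change emap (QuotientGroup.mk' (R i)) he (e.symm x) = 1
      rw [h3]
      apply SemidirectProduct.ext
      · exact (QuotientGroup.eq_one_iff _).2 hx
      · rfl
    exact (gen (A ⧸ N i)).of_surj (QuotientGroup.lift (N i) ρ hker) (by
      intro y
      obtain ⟨x, hx⟩ := hρ y
      exact ⟨QuotientGroup.mk x, hx⟩) (mem_gen _)
  obtain ⟨k, hk⟩ := IsPGroup.iff_card.1 P.isPGroup'
  have hfin := core H (P : Subgroup A) (fun i => (P : Subgroup A) ⧸ R i) (fun i => QuotientGroup.mk' (R i))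
    (fun i => gen (A ⧸ N i)) p k hp hHc hk (fun i => QuotientGroup.mk'_surjective (R i))
    (fun _ _ _ => rfl) (fun i x hx y => by
      have hx' : x ∈ R i := (QuotientGroup.eq_one_iff x).1 hx
      exact Subtype.ext (hNc i x hx' y y.2)) hcl2 (fun i j hij x h3 h4 => by
      have h3' : x ∈ R i := (QuotientGroup.eq_one_iff x).1 h3
      have h4' : x ∈ R j := (QuotientGroup.eq_one_iff x).1 h4
      have h5 : (x : A) ∈ N i ⊓ N j := ⟨h3', h4'⟩
      rw [hinf i j hij, Subgroup.mem_bot] at h5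
      exact Subtype.ext h5) hmem
  exact Formation.iso _ _ _ e hfin

open AbSyl in
/-- The condition of the criterion. -/
theorem crit_two (F : Formation)
    (hF : ∀ (G : Type) [Group G] [Finite G], F.mem G → ∀ p : ℕ, p.Prime →
      p ∣ Nat.card (frattini G) → (∀ P : Sylow p G, ∀ x ∈ P, ∀ y ∈ P, x * y = y * x) ∨
      ((∀ P : Sylow p G, (P : Subgroup G).lowerCentralSeries 2 = ⊥) ∧
        ∃ K : Subgroup G, K.Normal ∧ ¬ p ∣ Nat.card K ∧
          ∀ x ∈ commutator G, ∃ k : ℕ, x ^ p ^ k ∈ K)) :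
    Crit F := by
  intro A _ _ N₁ N₂ N₃ _ _ _ hA m1 m2 m3 n12 n13 n23 hsoc hfr
  set D := socle A with hD
  -- the lattice relations
  have a1 := (isMinNormal_iff (⟨N₁, m1.1⟩ : NS A)).2 m1
  have a2 := (isMinNormal_iff (⟨N₂, m2.1⟩ : NS A)).2 m2
  have a3 := (isMinNormal_iff (⟨N₃, m3.1⟩ : NS A)).2 m3
  have inf0 : ∀ {N N' : Subgroup A}, IsMinNormal N → IsMinNormal N' → N ≠ N' → N ⊓ N' = ⊥ := by
    intro N N' hN hN' hne
    have h1 := hN.1
    have h2 := hN'.1
    rcases hN.2.2 _ (inferInstance : (N ⊓ N').Normal) inf_le_left with h | h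
    · exact h
    · rcases hN'.2.2 _ h1 (inf_eq_left.1 h) with h' | h'
      · exact absurd h' hN.2.1
      · exact absurd h' hne
  have l3 : N₃ ≤ D := le_sSup m3
  have s12 : N₁ ⊔ N₂ = D := hsoc.symm
  have s13 : N₁ ⊔ N₃ = D := by
    rw [← s12]
    exact congrArg Subtype.val (atom_sup a1 a2 a3 (fun h => n13 (congrArg Subtype.val h))
      (show N₃ ≤ N₁ ⊔ N₂ by rw [s12]; exact l3))
  have s23 : N₂ ⊔ N₃ = D := by
    rw [← s12, sup_comm N₁]
    exact congrArg Subtype.val (atom_sup a2 a1 a3 (fun h => n23 (congrArg Subtype.val h))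
      (show N₃ ≤ N₂ ⊔ N₁ by rw [sup_comm, s12]; exact l3))
  have i12 := inf0 m1 m2 n12
  have i13 := inf0 m1 m3 n13
  have i23 := inf0 m2 m3 n23
  -- `D` is elementary abelian
  have c1 := comm_of m1.1 m2.1 m3.1 i12 i13 s23 (s12 ▸ le_sup_left)
  have c2 := comm_of m2.1 m1.1 m3.1 (inf_comm N₁ N₂ ▸ i12) i23 s13 (s12 ▸ le_sup_right)
  have cD : ∀ x ∈ D, ∀ y ∈ D, x * y = y * x := by
    rw [← s12]
    exact sup_comm_of m1.1 m2.1 i12 c1 c2
  have hDn : D.Normal := by
    rw [← s12]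
    infer_instance
  obtain ⟨p, hp, hpd⟩ : ∃ p : ℕ, p.Prime ∧ p ∣ Nat.card N₁ := by
    apply Nat.exists_prime_and_dvd
    have := (Subgroup.one_lt_card_iff_ne_bot N₁).2 m1.2.1
    omega
  have hfact : Fact p.Prime := ⟨hp⟩
  let E : Subgroup A :=
    { carrier := {x | x ∈ D ∧ x ^ p = 1}
      mul_mem' := by
        rintro x y ⟨hx, hx'⟩ ⟨hy, hy'⟩
        refine ⟨D.mul_mem hx hy, ?_⟩
        have hc : Commute x y := cD x hx y hy
        rw [hc.mul_pow, hx', hy', one_mul]
      one_mem' := ⟨D.one_mem, one_pow _⟩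
      inv_mem' := by
        rintro x ⟨hx, hx'⟩
        exact ⟨D.inv_mem hx, by rw [inv_pow, hx', inv_one]⟩ }
  have hEn : E.Normal := by
    constructor
    rintro x ⟨hx, hx'⟩ g
    refine ⟨hDn.conj_mem x hx g, ?_⟩
    rw [conj_pow, hx', mul_one, mul_inv_cancel]
  have hE1 : N₁ ≤ E := by
    obtain ⟨x, hx⟩ := exists_prime_orderOf_dvd_card' (G := N₁) p hpd
    rcases m1.2.2 (N₁ ⊓ E) inferInstance inf_le_left with h | h
    · exfalso
      have h1 : (x : A) ∈ N₁ ⊓ E := by
        refine ⟨x.2, (s12 ▸ le_sup_left : N₁ ≤ D) x.2, ?_⟩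
        have := pow_orderOf_eq_one x
        rw [hx] at this
        exact congrArg Subtype.val this
      rw [h, Subgroup.mem_bot] at h1
      have h2 : x = 1 := Subtype.ext h1
      rw [h2, orderOf_one] at hx
      exact hp.one_lt.ne hx
    · exact inf_eq_left.1 h
  have hE3 : N₃ ≤ E := by
    intro x hx
    refine ⟨l3 hx, ?_⟩
    have h1 : x ∈ ((N₁ ⊔ N₂ : Subgroup A) : Set A) := by
      rw [s12]; exact l3 hx
    rw [Subgroup.normal_mul] at h1
    obtain ⟨a, ha, b, hb, hab⟩ := h1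
    have hab' : a * b = x := hab
    have hc : Commute a b := cD a ((s12 ▸ le_sup_left : N₁ ≤ D) ha) b
      ((s12 ▸ le_sup_right : N₂ ≤ D) hb)
    have h2 : x ^ p = b ^ p := by
      rw [← hab', hc.mul_pow, (hE1 ha).2, one_mul]
    have h3 : x ^ p ∈ N₂ ⊓ N₃ := ⟨by rw [h2]; exact N₂.pow_mem hb p, N₃.pow_mem hx p⟩
    rw [i23, Subgroup.mem_bot] at h3
    exact h3
  have hDp : ∀ x ∈ D, x ^ p = 1 := by
    intro x hx
    rw [← s13] at hx
    exact (sup_le hE1 hE3 hx).2
  have hpf : p ∣ Nat.card (frattini A) :=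
    hpd.trans (Subgroup.card_dvd_of_le (((s12 ▸ le_sup_left : N₁ ≤ D)).trans hfr))
  have hDpg : IsPGroup p D := fun x => ⟨1, by
    rw [pow_one]
    exact Subtype.ext (hDp x x.2)⟩
  obtain ⟨P, hDP⟩ := hDpg.exists_le_sylow
  rcases hF A hA p hp hpf with hPab | ⟨hcl, hK⟩
  swap
  · have hn3 : ∀ i : Fin 3, ((![N₁, N₂, N₃] : Fin 3 → Subgroup A) i).Normal := by
      intro i
      fin_cases i
      · exact m1.1
      · exact m2.1
      · exact m3.1
    have hres := case_b p hp hD.symm hDp P (hcl P) hK ![N₁, N₂, N₃]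
      (by
        intro i
        fin_cases i
        · exact m1
        · exact m2
        · exact m3)
      (by
        intro i j hij
        fin_cases i <;> fin_cases j
        · exact absurd rfl hij
        · exact i12
        · exact i13
        · exact (inf_comm N₁ N₂) ▸ i12
        · exact absurd rfl hij
        · exact i23
        · exact (inf_comm N₁ N₃) ▸ i13
        · exact (inf_comm N₂ N₃) ▸ i23
        · exact absurd rfl hij)
    exact hres
  have hP := hPab P
  have hind : Nat.Coprime (P : Subgroup A).index p :=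
    ((Nat.Prime.coprime_iff_not_dvd hp).2 P.not_dvd_index).symm
  have hPn : (P : Subgroup A).Normal :=
    sylow_normal p hp hDn hD.symm hDp (P : Subgroup A) P.isPGroup' (fun Q hQ hPQ => P.is_maximal' hQ hPQ)
      hind hDP hP
  obtain ⟨i, j, hij, θ, hθ1, hθ2⟩ := exists_theta p hp hDn hD.symm hDp (P : Subgroup A) hPn
    P.isPGroup' hind hDP hP P.card_coprime_index ![N₁, N₂, N₃]
    (by
      intro i
      fin_cases i
      · exact m1
      · exact m2
      · exact m3)
    (by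
      intro i j hij
      fin_cases i <;> fin_cases j
      · exact absurd rfl hij
      · exact i12
      · exact i13
      · exact (inf_comm N₁ N₂) ▸ i12
      · exact absurd rfl hij
      · exact i23
      · exact (inf_comm N₁ N₃) ▸ i13
      · exact (inf_comm N₂ N₃) ▸ i23
      · exact absurd rfl hij)
    (by
      intro i j hij
      fin_cases i <;> fin_cases j
      · exact absurd rfl hij
      · exact s12
      · exact s13
      · exact (sup_comm N₁ N₂) ▸ s12
      · exact absurd rfl hij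
      · exact s23
      · exact (sup_comm N₁ N₃) ▸ s13
      · exact (sup_comm N₂ N₃) ▸ s23
      · exact absurd rfl hij)
  -- conclusion
  have key : ∀ {N N' : Subgroup A} [N.Normal] [N'.Normal], N ⊓ N' = ⊥ → N'.comap θ = N →
      (gen (A ⧸ N) ⊓ gen (A ⧸ N')).mem A := by
    intro N N' _ _ h0 h1
    have q1 : (gen (A ⧸ N)).q N := ⟨inferInstance, mem_gen _⟩
    have q2 : (gen (A ⧸ N')).q N' := ⟨inferInstance, mem_gen _⟩
    have q3 : (gen (A ⧸ N)).q N' := by
      rw [← q_comap θ hθ1, h1]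
      exact q1
    have q4 : (gen (A ⧸ N')).q N := by
      rw [← h1]
      exact (q_comap θ hθ1 N').2 q2
    rw [← q_bot, ← h0]
    exact q_inf (q_inf_iff.2 ⟨q1, q4⟩) (q_inf_iff.2 ⟨q3, q2⟩)
  have e12 : gen (A ⧸ N₁) ⊓ gen (A ⧸ N₂) ≤ (gen (A ⧸ N₁) ⊓ gen (A ⧸ N₂)) ⊔
      (gen (A ⧸ N₁) ⊓ gen (A ⧸ N₃)) ⊔ (gen (A ⧸ N₂) ⊓ gen (A ⧸ N₃)) :=
    le_sup_left.trans le_sup_left
  have e13 : gen (A ⧸ N₁) ⊓ gen (A ⧸ N₃) ≤ (gen (A ⧸ N₁) ⊓ gen (A ⧸ N₂)) ⊔
      (gen (A ⧸ N₁) ⊓ gen (A ⧸ N₃)) ⊔ (gen (A ⧸ N₂) ⊓ gen (A ⧸ N₃)) :=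
    le_sup_right.trans le_sup_left
  have e23 : gen (A ⧸ N₂) ⊓ gen (A ⧸ N₃) ≤ (gen (A ⧸ N₁) ⊓ gen (A ⧸ N₂)) ⊔
      (gen (A ⧸ N₁) ⊓ gen (A ⧸ N₃)) ⊔ (gen (A ⧸ N₂) ⊓ gen (A ⧸ N₃)) := le_sup_right
  fin_cases i <;> fin_cases j
  · exact absurd rfl hij
  · exact e12 A (key i12 hθ2)
  · exact e13 A (key i13 hθ2)
  · refine e12 A ?_
    rw [inf_comm]
    exact key ((inf_comm N₁ N₂) ▸ i12) hθ2
  · exact absurd rfl hij
  · exact e23 A (key i23 hθ2)
  · refine e13 A ?_
    rw [inf_comm]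
    exact key ((inf_comm N₁ N₃) ▸ i13) hθ2
  · refine e23 A ?_
    rw [inf_comm]
    exact key ((inf_comm N₂ N₃) ▸ i23) hθ2
  · exact absurd rfl hij

end Pool.Agent.Fcl2
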