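import Pool.Agent.Fcl2.MAIN

/-!
# Alternating biadditive maps as commutator maps of biadditive maps
-/

set_option autoImplicit false
set_option linter.unusedSectionVars false
set_option linter.unusedVariables false

namespace Pool.Agent.Fcl2

open Pool.Agent.Formn Pool.Agent.Formn.Formation

section good

variable {H V W F₀ : Type} [Group H] [Finite H] [AddCommGroup V] [Finite V] [DistribMulAction H V]
  [AddCommGroup W] [Finite W] [DistribMulAction H W] [AddCommGroup F₀] [Finite F₀]
  [DistribMulAction H F₀]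

/-- `γ` is a combination of pull-backs of `c`. -/
def Good (c : Bil H V V W) (γ : Bil H F₀ F₀ W) : Prop :=
  ∀ (Z : Formation) (W' : Type) [AddCommGroup W'] [Finite W'] [DistribMulAction H W']
    (ψ : W →+ W') (eψ : ∀ (k : H) x, ψ (k • x) = k • ψ x) (c' : Bil H V V W'),
    (∀ x y, c' x y = ψ (c x y)) → L Z c' → MemA Z H F₀ → L Z (pst γ ψ eψ)

variable {c : Bil H V V W}

theorem Good.cmp (a b : F₀ →+ V) (ea : ∀ (k : H) x, a (k • x) = k • a x)
    (eb : ∀ (k : H) x, b (k • x) = k • b x) (γ : Bil H F₀ F₀ W)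
    (h : ∀ f g, γ f g = c (a f) (b g)) : Good c γ := by
  intro Z W' _ _ _ ψ eψ c' hc' hL hF
  refine L_cmp (f := c') a b ea eb (fun f g => ?_) hF hF hL
  rw [pst_apply, h, hc']

theorem Good.zero (γ : Bil H F₀ F₀ W) (h : ∀ f g, γ f g = 0) : Good c γ := by
  intro Z W' _ _ _ ψ eψ c' hc' hL hF
  refine L_zero (fun f g => ?_) hF hF (memA_of_L hL).2.2
  rw [pst_apply, h, map_zero]

theorem Good.add {γ γ₁ γ₂ : Bil H F₀ F₀ W} (h1 : Good c γ₁) (h2 : Good c γ₂)
    (h : ∀ f g, γ f g = γ₁ f g + γ₂ f g) : Good c γ := by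
  intro Z W' _ _ _ ψ eψ c' hc' hL hF
  refine L_add (f := pst γ₁ ψ eψ) (g := pst γ₂ ψ eψ) (fun f g => ?_)
    (h1 Z W' ψ eψ c' hc' hL hF) (h2 Z W' ψ eψ c' hc' hL hF)
  rw [pst_apply, h, map_add]
  rfl

theorem Good.zs {γ γ₁ : Bil H F₀ F₀ W} (k : ℤ) (h1 : Good c γ₁)
    (h : ∀ f g, γ f g = k • γ₁ f g) : Good c γ := by
  intro Z W' _ _ _ ψ eψ c' hc' hL hF
  refine L_ext (g := pst γ₁ ψ eψ) (zsmulAddGroupHom k) (fun t x => ?_) (fun f g => ?_)
    (memA_of_L hL).2.2 (h1 Z W' ψ eψ c' hc' hL hF)
  · change k • (t • x) = t • (k • x)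
    rw [smul_comm]
  · change k • ψ (γ₁ f g) = ψ (γ f g)
    rw [h, map_zsmul]

theorem Good.sum {ι : Type} (b : ι → Bil H F₀ F₀ W) (s : Finset ι) :
    (∀ a ∈ s, Good c (b a)) → ∀ γ : Bil H F₀ F₀ W, (∀ f g, γ f g = ∑ a ∈ s, b a f g) →
    Good c γ := by
  intro h γ e Z W' _ _ _ ψ eψ c' hc' hL hF
  refine MAIN_.L_sum hF hF (memA_of_L hL).2.2 (fun a => pst (b a) ψ eψ) s
    (fun a ha => h a ha Z W' ψ eψ c' hc' hL hF) _ (fun f g => ?_)
  rw [pst_apply, e, map_sum]
  rfl

end good

section

variable (H V : Type) [CommGroup H] [AddCommGroup V] [DistribMulAction H V]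

/-- The component at `a`. -/
noncomputable def xa (a : V) : (V → MAIN_.Rb H V) →+ V :=
  ((AddMonoidHom.eval a).comp (MAIN_.rv H V).toAddMonoidHom).comp
    (Pi.evalAddMonoidHom (fun _ => MAIN_.Rb H V) a)

theorem xa_apply (a : V) (f : V → MAIN_.Rb H V) : xa H V a f = MAIN_.rv H V (f a) a := rfl

theorem xa_smul (a : V) (k : H) (f : V → MAIN_.Rb H V) : xa H V a (k • f) = k • xa H V a f :=
  MAIN_.rv_smul H V k (f a) a

/-- The sum of the components. -/
noncomputable def pi0 [Fintype V] : (V → MAIN_.Rb H V) →+ V :=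
  AddMonoidHom.mk' (fun f => ∑ v : V, xa H V v f) (fun f g => by
    rw [← Finset.sum_add_distrib]
    exact Finset.sum_congr rfl fun a _ => map_add _ _ _)

theorem pi0_apply [Fintype V] (f : V → MAIN_.Rb H V) : pi0 H V f = ∑ v : V, xa H V v f := rfl

theorem pi0_smul [Fintype V] (k : H) (f : V → MAIN_.Rb H V) : pi0 H V (k • f) = k • pi0 H V f := by
  rw [pi0_apply, pi0_apply, Finset.smul_sum]
  exact Finset.sum_congr rfl fun a _ => xa_smul H V a k f

theorem pi0_surj [Fintype V] : Function.Surjective (pi0 H V) := by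
  classical
  intro v
  refine ⟨Pi.single v 1, ?_⟩
  rw [pi0_apply, Finset.sum_eq_single v]
  · rw [xa_apply, Pi.single_eq_same, map_one]
    rfl
  · intro a _ ha
    rw [xa_apply, Pi.single_eq_of_ne ha, map_zero]
    rfl
  · intro h
    exact absurd (Finset.mem_univ _) h

end

section alt

variable {H V W : Type} [CommGroup H] [Fintype H] [AddCommGroup V] [DistribMulAction H V]
  [AddCommGroup W] [DistribMulAction H W] (c : Bil H V V W)

theorem c_skew (hc : ∀ x, c x x = 0) (x y : V) : c y x = -c x y := by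
  have h1 := hc (x + y)
  rw [c.add_l, c.add_r, c.add_r, hc, hc, zero_add, add_zero] at h1
  exact (neg_eq_of_add_eq_zero_right h1).symm

theorem c_sum_l {ι : Type} (s : Finset ι) (u : ι → V) (y : V) :
    c (∑ a ∈ s, u a) y = ∑ a ∈ s, c (u a) y := by
  have e : c.f (∑ a ∈ s, u a) = ∑ a ∈ s, c.f (u a) := map_sum _ _ _
  change c.f (∑ a ∈ s, u a) y = _
  rw [e, AddMonoidHom.finsetSum_apply]

theorem c_sum_r {ι : Type} (s : Finset ι) (u : ι → V) (y : V) :
    c y (∑ a ∈ s, u a) = ∑ a ∈ s, c y (u a) := map_sum _ _ _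

theorem c_zsmul_l (n : ℤ) (x y : V) : c (n • x) y = n • c x y := by
  change c.f (n • x) y = _
  rw [map_zsmul]
  rfl

theorem c_zsmul_r (n : ℤ) (x y : V) : c x (n • y) = n • c x y := map_zsmul _ _ _

/-- The key identity on cyclic modules. -/
theorem cyc_sum (hc : ∀ x, c x x = 0) (v : V) (r s : MonoidAlgebra ℤ H) :
    ∑ g : H, c (g • MAIN_.act H V r v) (g⁻¹ • MAIN_.act H V s v) = 0 := by
  classical
  induction r using MonoidAlgebra.induction_on with
  | of h =>
    induction s using MonoidAlgebra.induction_on with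
    | of k =>
      rw [MAIN_.act_of, MAIN_.act_of]
      have e : ∀ g : H, (g⁻¹ * h⁻¹ * k) * h = g⁻¹ * k := by
        intro g
        rw [mul_right_comm, mul_assoc g⁻¹, inv_mul_cancel, mul_one]
      have e' : ∀ g : H, (g⁻¹ * h⁻¹ * k)⁻¹ * k = g * h := by
        intro g
        rw [mul_inv_rev, mul_inv_rev, inv_inv, inv_inv, mul_comm k⁻¹, mul_assoc, inv_mul_cancel,
          mul_one, mul_comm]
      refine Finset.sum_involution (fun g _ => g⁻¹ * h⁻¹ * k) (fun g _ => ?_) (fun g _ hne he => ?_)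
        (fun g _ => Finset.mem_univ _) (fun g _ => ?_)
      · rw [smul_smul, smul_smul, smul_smul, smul_smul, e, e', c_skew c hc, neg_add_cancel]
      · apply hne
        have h1 := e' g
        rw [he] at h1
        rw [smul_smul, smul_smul, h1, hc]
      · change (g⁻¹ * h⁻¹ * k)⁻¹ * h⁻¹ * k = g
        rw [mul_right_comm, e', mul_assoc, mul_inv_cancel, mul_one]
    | add a b ha hb =>
      rw [MAIN_.act_add]
      simp only [smul_add, c.add_r]
      rw [Finset.sum_add_distrib, ha, hb, add_zero]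
    | smul n a ha =>
      rw [MAIN_.act_zsmul]
      have e : ∀ g : H, c (g • MAIN_.act H V (MonoidAlgebra.of ℤ H h) v)
          (g⁻¹ • (n • MAIN_.act H V a v)) =
          n • c (g • MAIN_.act H V (MonoidAlgebra.of ℤ H h) v) (g⁻¹ • MAIN_.act H V a v) := by
        intro g
        rw [smul_comm g⁻¹ n, c_zsmul_r]
      rw [Finset.sum_congr rfl fun g _ => e g, ← Finset.smul_sum, ha, smul_zero]
  | add a b ha hb =>
    rw [MAIN_.act_add]
    simp only [smul_add, c.add_l]
    rw [Finset.sum_add_distrib, ha, hb, add_zero]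
  | smul n a ha =>
    rw [MAIN_.act_zsmul]
    have e : ∀ g : H, c (g • (n • MAIN_.act H V a v)) (g⁻¹ • MAIN_.act H V s v) =
        n • c (g • MAIN_.act H V a v) (g⁻¹ • MAIN_.act H V s v) := by
      intro g
      rw [smul_comm g n, c_zsmul_l]
    rw [Finset.sum_congr rfl fun g _ => e g, ← Finset.smul_sum, ha, smul_zero]

theorem cyc_sum' (hc : ∀ x, c x x = 0) (v : V) (f g : V → MAIN_.Rb H V) :
    ∑ k : H, c (k • xa H V v f) (k⁻¹ • xa H V v g) = 0 := by
  obtain ⟨r, hr⟩ := MAIN_.rb_surj H V (f v)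
  obtain ⟨s, hs⟩ := MAIN_.rb_surj H V (g v)
  rw [xa_apply, xa_apply, ← hr, ← hs, MAIN_.rv_rb, MAIN_.rv_rb]
  exact cyc_sum c hc v r s

/-- A sum over pairs `h, h⁻¹`. -/
theorem sum_half {A : Type} [AddCommGroup A] {n : ℕ} (e : H ≃ Fin n) (u : H → A)
    (hu : ∀ h : H, h = h⁻¹ → u h = 0) :
    ∑ h : H, u h = ∑ h : H, if e h < e h⁻¹ then u h + u h⁻¹ else 0 := by
  classical
  have h1 : ∑ h : H, (if e h < e h⁻¹ then u h⁻¹ else 0) =
      ∑ h : H, if e h⁻¹ < e h then u h else 0 := by
    rw [← Equiv.sum_comp (Equiv.inv H) (fun h => if e h⁻¹ < e h then u h else 0)]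
    refine Finset.sum_congr rfl fun h _ => ?_
    rw [Equiv.inv_apply, inv_inv]
  have h2 : ∑ h : H, (if e h < e h⁻¹ then u h + u h⁻¹ else 0) =
      ∑ h : H, (if e h < e h⁻¹ then u h else 0) + ∑ h : H, if e h < e h⁻¹ then u h⁻¹ else 0 := by
    rw [← Finset.sum_add_distrib]
    refine Finset.sum_congr rfl fun h _ => ?_
    split_ifs
    · rfl
    · rw [add_zero]
  rw [h2, h1, ← Finset.sum_add_distrib]
  refine Finset.sum_congr rfl fun h _ => ?_
  rcases lt_trichotomy (e h) (e h⁻¹) with h3 | h3 | h3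
  · rw [if_pos h3, if_neg h3.not_gt, add_zero]
  · rw [hu h (e.injective h3), ite_self, ite_self, add_zero]
  · rw [if_neg h3.not_gt, if_pos h3, zero_add]

end alt

/-- For `p ∤ |H|`, an alternating biadditive map on a `p`-module is, on a free module, the
commutator map of a biadditive map, in a natural way. -/
theorem exists_gamma {H V W : Type} [CommGroup H] [Finite H] [AddCommGroup V] [Fintype V]
    [DistribMulAction H V] [AddCommGroup W] [Finite W] [DistribMulAction H W] (c : Bil H V V W)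
    (hc : ∀ x, c x x = 0) (p k : ℕ) (hp : p.Prime) (hH : ¬ p ∣ Nat.card H)
    (hW : ∀ w : W, p ^ k • w = 0) :
    ∃ γ : Bil H (V → MAIN_.Rb H V) (V → MAIN_.Rb H V) W, Good c γ ∧
      ∀ f g, γ g f - γ f g = c (pi0 H V f) (pi0 H V g) := by
  classical
  have : Fintype H := Fintype.ofFinite H
  rcases Nat.Prime.eq_two_or_odd' hp with rfl | hodd
  swap
  · -- `p` is odd
    obtain ⟨t, ht⟩ := hodd.pow (n := k)
    have hn : ∀ w : W, (2 * ((t : ℤ) + 1)) • w = w := by
      intro w
      have e : (2 * ((t : ℤ) + 1)) = ((p ^ k : ℕ) : ℤ) + 1 := by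
        rw [ht]
        push_cast
        ring
      rw [e, add_smul, natCast_zsmul, hW, zero_add, one_smul]
    have h0 : Good c (cmp c (pi0 H V) (pi0 H V) (pi0_smul H V) (pi0_smul H V)) :=
      Good.cmp (pi0 H V) (pi0 H V) (pi0_smul H V) (pi0_smul H V) _ (fun _ _ => rfl)
    refine ⟨Bil.zs (-((t : ℤ) + 1)) (cmp c (pi0 H V) (pi0 H V) (pi0_smul H V) (pi0_smul H V)),
      Good.zs _ h0 (fun _ _ => rfl), fun f g => ?_⟩
    rw [Bil.zs_apply, Bil.zs_apply, cmp_apply, cmp_apply, c_skew c hc (pi0 H V f) (pi0 H V g)]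
    generalize c (pi0 H V f) (pi0 H V g) = w
    have h1 := hn w
    rw [two_mul, add_smul] at h1
    rw [smul_neg, neg_smul, neg_neg, sub_neg_eq_add]
    exact h1
  · -- `p = 2`
    obtain ⟨a', b', hab⟩ : IsCoprime ((Fintype.card H : ℕ) : ℤ) ((2 ^ k : ℕ) : ℤ) := by
      rw [Nat.isCoprime_iff_coprime]
      apply Nat.Coprime.pow_right
      rw [Nat.coprime_comm, Nat.Prime.coprime_iff_not_dvd hp, ← Nat.card_eq_fintype_card]
      exact hH
    have hn : ∀ w : W, a' • ((Fintype.card H : ℕ) • w) = w := by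
      intro w
      have h1 : (a' * ((Fintype.card H : ℕ) : ℤ) + b' * ((2 ^ k : ℕ) : ℤ)) • w = w := by
        rw [hab, one_smul]
      rw [add_smul, mul_smul, mul_smul, natCast_zsmul, natCast_zsmul, hW, smul_zero,
        add_zero] at h1
      exact h1
    have hinv : ∀ h : H, h = h⁻¹ → h = 1 := by
      intro h he
      have h1 : h ^ 2 = 1 := by
        rw [pow_two]
        nth_rewrite 2 [he]
        exact mul_inv_cancel h
      have h2 : h ^ Nat.card H = 1 := pow_card_eq_one'
      have h3 : Nat.Coprime 2 (Nat.card H) := (Nat.Prime.coprime_iff_not_dvd hp).2 hH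
      have h4 := orderOf_dvd_of_pow_eq_one h1
      have h5 := orderOf_dvd_of_pow_eq_one h2
      have h6 : orderOf h ∣ 1 := by
        rw [← h3.gcd_eq_one]
        exact Nat.dvd_gcd h4 h5
      exact orderOf_eq_one_iff.1 (Nat.dvd_one.1 h6)
    obtain ⟨n, ⟨eH⟩⟩ := Finite.exists_equiv_fin H
    obtain ⟨m, ⟨eV⟩⟩ := Finite.exists_equiv_fin V
    let x : V → (V → MAIN_.Rb H V) → V := fun a f => xa H V a f
    have xs : ∀ a (k : H) f, x a (k • f) = k • x a f := fun a k f => xa_smul H V a k f
    have xadd : ∀ a f g, x a (f + g) = x a f + x a g := fun a f g => map_add (xa H V a) f g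
    -- the off-diagonal part
    let b1 : V × V → Bil H (V → MAIN_.Rb H V) (V → MAIN_.Rb H V) W := fun t =>
      if eV t.2 < eV t.1 then
        cmp c (xa H V t.1) (xa H V t.2) (xa_smul H V t.1) (xa_smul H V t.2)
      else Bil.mk' (fun _ _ => 0) (fun _ _ _ => (add_zero 0).symm) (fun _ _ _ => (add_zero 0).symm)
        (fun k _ _ => (smul_zero k).symm)
    have hb1 : ∀ t f g, b1 t f g = if eV t.2 < eV t.1 then c (x t.1 f) (x t.2 g) else 0 := by
      intro t f g
      by_cases h : eV t.2 < eV t.1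
      · simp only [b1, if_pos h]
        rfl
      · simp only [b1, if_neg h]
        rfl
    have gb1 : ∀ t, Good c (b1 t) := by
      intro t
      by_cases h : eV t.2 < eV t.1
      · refine Good.cmp (xa H V t.1) (xa H V t.2) (xa_smul H V t.1) (xa_smul H V t.2) _
          (fun f g => ?_)
        rw [hb1, if_pos h]
      · refine Good.zero _ (fun f g => ?_)
        rw [hb1, if_neg h]
    let γ1 : Bil H (V → MAIN_.Rb H V) (V → MAIN_.Rb H V) W :=
      Bil.mk' (fun f g => ∑ t : V × V, b1 t f g)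
        (fun f f' g => by
          rw [← Finset.sum_add_distrib]; exact Finset.sum_congr rfl fun t _ => (b1 t).add_l f f' g)
        (fun f g g' => by
          rw [← Finset.sum_add_distrib]; exact Finset.sum_congr rfl fun t _ => (b1 t).add_r f g g')
        (fun k f g => by
          rw [Finset.smul_sum]; exact Finset.sum_congr rfl fun t _ => (b1 t).eqv k f g)
    have g1 : Good c γ1 := Good.sum b1 Finset.univ (fun t _ => gb1 t) γ1 (fun _ _ => rfl)
    -- the diagonal part
    let b2 : V × H → Bil H (V → MAIN_.Rb H V) (V → MAIN_.Rb H V) W := fun t =>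
      if eH t.2 < eH t.2⁻¹ then
        Bil.mk' (fun f g => c (x t.1 f) (x t.1 g) - c (t.2 • x t.1 f) (t.2⁻¹ • x t.1 g))
          (fun f f' g => by rw [xadd, smul_add, c.add_l, c.add_l]; abel)
          (fun f g g' => by rw [xadd, smul_add, c.add_r, c.add_r]; abel)
          (fun k f g => by
            rw [xs, xs, smul_comm t.2 k, smul_comm t.2⁻¹ k, c.eqv, c.eqv, smul_sub])
      else Bil.mk' (fun _ _ => 0) (fun _ _ _ => (add_zero 0).symm) (fun _ _ _ => (add_zero 0).symm)
        (fun k _ _ => (smul_zero k).symm)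
    have hb2 : ∀ t f g, b2 t f g = if eH t.2 < eH t.2⁻¹ then
        c (x t.1 f) (x t.1 g) - c (t.2 • x t.1 f) (t.2⁻¹ • x t.1 g) else 0 := by
      intro t f g
      by_cases h : eH t.2 < eH t.2⁻¹
      · simp only [b2, if_pos h]
        rfl
      · simp only [b2, if_neg h]
        rfl
    have gb2 : ∀ t, Good c (b2 t) := by
      intro t
      by_cases h : eH t.2 < eH t.2⁻¹
      · let s : H → ((V → MAIN_.Rb H V) →+ V) := fun h =>
          (DistribSMul.toAddMonoidHom V h).comp (xa H V t.1)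
        have es : ∀ h (k : H) f, s h (k • f) = k • s h f := by
          intro h k f
          change h • x t.1 (k • f) = k • (h • x t.1 f)
          rw [xs, smul_comm]
        have k1 : Good c (cmp c (xa H V t.1) (xa H V t.1) (xa_smul H V t.1) (xa_smul H V t.1)) :=
          Good.cmp _ _ (xa_smul H V t.1) (xa_smul H V t.1) _ (fun _ _ => rfl)
        have k2 : Good c (cmp c (s t.2) (s t.2⁻¹) (es _) (es _)) :=
          Good.cmp _ _ (es _) (es _) _ (fun _ _ => rfl)
        have k3 : Good c (Bil.zs (-1) (cmp c (s t.2) (s t.2⁻¹) (es _) (es _))) :=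
          Good.zs (-1) k2 (fun _ _ => rfl)
        refine Good.add k1 k3 (fun f g => ?_)
        rw [hb2, if_pos h, Bil.zs_apply, neg_smul, one_smul, ← sub_eq_add_neg]
        rfl
      · refine Good.zero _ (fun f g => ?_)
        rw [hb2, if_neg h]
    let γ2 : Bil H (V → MAIN_.Rb H V) (V → MAIN_.Rb H V) W :=
      Bil.mk' (fun f g => ∑ t : V × H, b2 t f g)
        (fun f f' g => by
          rw [← Finset.sum_add_distrib]; exact Finset.sum_congr rfl fun t _ => (b2 t).add_l f f' g)
        (fun f g g' => by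
          rw [← Finset.sum_add_distrib]; exact Finset.sum_congr rfl fun t _ => (b2 t).add_r f g g')
        (fun k f g => by
          rw [Finset.smul_sum]; exact Finset.sum_congr rfl fun t _ => (b2 t).eqv k f g)
    have g2 : Good c γ2 := Good.sum b2 Finset.univ (fun t _ => gb2 t) γ2 (fun _ _ => rfl)
    -- the diagonal identity
    have hdiag : ∀ v f g, ∑ h : H, (b2 (v, h) f g - b2 (v, h) g f) =
        Fintype.card H • c (x v f) (x v g) := by
      intro v f g
      let u : H → W := fun h => c (x v f) (x v g) - c (h • x v f) (h⁻¹ • x v g)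
      have hu : ∀ h : H, h = h⁻¹ → u h = 0 := by
        intro h he
        have := hinv h he
        subst this
        change c (x v f) (x v g) - c ((1 : H) • x v f) ((1 : H)⁻¹ • x v g) = 0
        rw [inv_one, one_smul, one_smul, sub_self]
      have h1 := sum_half eH u hu
      have h2 : ∑ h : H, u h = Fintype.card H • c (x v f) (x v g) := by
        change ∑ h : H, (c (x v f) (x v g) - c (h • x v f) (h⁻¹ • x v g)) = _
        rw [Finset.sum_sub_distrib, cyc_sum' c hc v f g, sub_zero, Finset.sum_const,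
          Finset.card_univ]
      rw [← h2, h1]
      refine Finset.sum_congr rfl fun h _ => ?_
      rw [hb2, hb2]
      by_cases h3 : eH h < eH h⁻¹
      · rw [if_pos h3, if_pos h3, if_pos h3]
        change _ = (c (x v f) (x v g) - c (h • x v f) (h⁻¹ • x v g)) +
          (c (x v f) (x v g) - c (h⁻¹ • x v f) (h⁻¹⁻¹ • x v g))
        rw [inv_inv]
        change (c (x v f) (x v g) - c (h • x v f) (h⁻¹ • x v g)) -
          (c (x v g) (x v f) - c (h • x v g) (h⁻¹ • x v f)) = _
        rw [c_skew c hc (x v f) (x v g), c_skew c hc (h⁻¹ • x v f) (h • x v g)]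
        abel
      · rw [if_neg h3, if_neg h3, if_neg h3, sub_zero]
    -- the result
    have g3 : Good c (Bil.zs a' γ2) := Good.zs a' g2 (fun _ _ => rfl)
    let γ3 : Bil H (V → MAIN_.Rb H V) (V → MAIN_.Rb H V) W :=
      Bil.mk' (fun f g => γ1 f g + a' • γ2 f g)
        (fun f f' g => by rw [γ1.add_l, γ2.add_l, smul_add]; abel)
        (fun f g g' => by rw [γ1.add_r, γ2.add_r, smul_add]; abel)
        (fun k f g => by rw [γ1.eqv, γ2.eqv, smul_add, smul_comm a' k])
    have g4 : Good c γ3 := Good.add g1 g3 (fun _ _ => rfl)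
    refine ⟨Bil.zs (-1) γ3, Good.zs (-1) g4 (fun _ _ => rfl), fun f g => ?_⟩
    rw [Bil.zs_apply, Bil.zs_apply]
    have e1 : (-1 : ℤ) • γ3 g f - (-1 : ℤ) • γ3 f g =
        (γ1 f g - γ1 g f) + a' • (γ2 f g - γ2 g f) := by
      change (-1 : ℤ) • (γ1 g f + a' • γ2 g f) - (-1 : ℤ) • (γ1 f g + a' • γ2 f g) = _
      rw [neg_smul, neg_smul, one_smul, one_smul, smul_sub]
      abel
    have e2 : γ2 f g - γ2 g f = Fintype.card H • ∑ v : V, c (x v f) (x v g) := by
      change ∑ t : V × H, b2 t f g - ∑ t : V × H, b2 t g f = _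
      rw [← Finset.sum_sub_distrib, Fintype.sum_prod_type, Finset.smul_sum]
      exact Finset.sum_congr rfl fun v _ => hdiag v f g
    have e3 : γ1 f g - γ1 g f = ∑ t : V × V, if t.1 = t.2 then 0 else c (x t.1 f) (x t.2 g) := by
      change ∑ t : V × V, b1 t f g - ∑ t : V × V, b1 t g f = _
      have e4 : ∑ t : V × V, b1 t g f =
          ∑ t : V × V, -(if eV t.1 < eV t.2 then c (x t.1 f) (x t.2 g) else 0) := by
        rw [← Equiv.sum_comp (Equiv.prodComm V V) (fun t => b1 t g f)]
        refine Finset.sum_congr rfl fun t _ => ?_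
        rw [hb1]
        change (if eV t.1 < eV t.2 then c (x t.2 g) (x t.1 f) else 0) = _
        split_ifs
        · exact c_skew c hc _ _
        · exact neg_zero.symm
      rw [e4, ← Finset.sum_sub_distrib]
      refine Finset.sum_congr rfl fun t _ => ?_
      rw [hb1]
      rcases lt_trichotomy (eV t.1) (eV t.2) with h3 | h3 | h3
      · have hne : t.1 ≠ t.2 := fun h => by
          rw [h] at h3
          exact lt_irrefl _ h3
        rw [if_neg h3.not_gt, if_pos h3, if_neg hne, zero_sub, neg_neg]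
      · have he := eV.injective h3
        rw [if_neg (by rw [h3]; exact lt_irrefl _), if_neg (by rw [h3]; exact lt_irrefl _),
          if_pos he, neg_zero, sub_zero]
      · have hne : t.1 ≠ t.2 := fun h => by
          rw [h] at h3
          exact lt_irrefl _ h3
        rw [if_pos h3, if_neg h3.not_gt, if_neg hne, neg_zero, sub_zero]
    have e5 : c (pi0 H V f) (pi0 H V g) =
        ∑ t : V × V, (if t.1 = t.2 then 0 else c (x t.1 f) (x t.2 g)) +
          ∑ v : V, c (x v f) (x v g) := by
      rw [pi0_apply, pi0_apply, c_sum_l]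
      simp only [c_sum_r]
      have e6 : ∑ v : V, c (x v f) (x v g) =
          ∑ t : V × V, if t.1 = t.2 then c (x t.1 f) (x t.2 g) else 0 := by
        rw [Fintype.sum_prod_type]
        refine Finset.sum_congr rfl fun v _ => ?_
        change _ = ∑ w : V, if v = w then c (x v f) (x w g) else 0
        rw [Finset.sum_ite_eq, if_pos (Finset.mem_univ v)]
      rw [e6, ← Finset.sum_add_distrib, Fintype.sum_prod_type]
      refine Finset.sum_congr rfl fun v _ => Finset.sum_congr rfl fun w _ => ?_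
      change c (x v f) (x w g) = (if v = w then 0 else c (x v f) (x w g)) +
        (if v = w then c (x v f) (x w g) else 0)
      split_ifs
      · rw [zero_add]
      · rw [add_zero]
    rw [e1, e2, e3, e5, hn]

end Pool.Agent.Fcl2
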