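import Pool.Agent.Fcl2.CloL

/-!
# The commutator form of a group of class two
-/

set_option autoImplicit false
set_option linter.unusedSectionVars false
set_option linter.unusedVariables false

namespace Pool.Agent.Fcl2

open Pool.Agent.Formn Pool.Agent.Formn.Formation

namespace Fac

variable {H P V W : Type} [Group H] [Group P] [MulDistribMulAction H P] [AddCommGroup V]
    [AddCommGroup W] [DistribMulAction H V] [DistribMulAction H W] (F : Fac H P V W)

/-- The projection, additive. -/
def p (x : P) : V := (F.π x).toAdd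

/-- The inclusion, additive. -/
def i (w : W) : P := F.j (Multiplicative.ofAdd w)

theorem p_mul (x y : P) : F.p (x * y) = F.p x + F.p y := by
  unfold p
  rw [map_mul, toAdd_mul]

theorem p_one : F.p 1 = 0 := by
  unfold p
  rw [map_one, toAdd_one]

theorem p_inv (x : P) : F.p x⁻¹ = -F.p x := by
  unfold p
  rw [map_inv, toAdd_inv]

theorem p_smul (h : H) (x : P) : F.p (h • x) = h • F.p x := by
  unfold p
  rw [F.π_smul, toAdd_smul]

theorem p_surj (v : V) : ∃ x, F.p x = v := by
  obtain ⟨x, hx⟩ := F.π_surj (Multiplicative.ofAdd v)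
  refine ⟨x, ?_⟩
  unfold p
  rw [hx]
  rfl

theorem p_i (w : W) : F.p (F.i w) = 0 := by
  unfold p i
  rw [F.πj, toAdd_one]

theorem i_add (w w' : W) : F.i (w + w') = F.i w * F.i w' := by
  unfold i
  rw [ofAdd_add, map_mul]

theorem i_zero : F.i 0 = 1 := by
  unfold i
  rw [ofAdd_zero, map_one]

theorem i_neg (w : W) : F.i (-w) = (F.i w)⁻¹ := by
  unfold i
  rw [ofAdd_neg, map_inv]

theorem i_smul (h : H) (w : W) : F.i (h • w) = h • F.i w := by
  unfold i
  rw [← F.j_smul]
  rfl

theorem i_inj {w w' : W} (h : F.i w = F.i w') : w = w' :=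
  Multiplicative.ofAdd.injective (F.j_inj h)

theorem i_eq_one {w : W} (h : F.i w = 1) : w = 0 := by
  apply F.i_inj
  rw [h, i_zero]

theorem i_cen (w : W) (x : P) : F.i w * x = x * F.i w := F.j_cen _ x

theorem i_c (x y : P) : F.i (F.c (F.p x) (F.p y)) = x * y * x⁻¹ * y⁻¹ := F.comm x y

theorem mul_eq (x y : P) : x * y = F.i (F.c (F.p x) (F.p y)) * (y * x) := by
  rw [i_c]
  group

theorem c_neg (x y : V) : F.c y x = -F.c x y := by
  obtain ⟨a, rfl⟩ := F.p_surj x
  obtain ⟨b, rfl⟩ := F.p_surj y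
  apply F.i_inj
  rw [i_neg, i_c, i_c]
  group

theorem mul_eq' (x y : P) : y * x = F.i (-F.c (F.p x) (F.p y)) * (x * y) := by
  rw [← F.c_neg]
  exact F.mul_eq y x

end Fac

/-- Triples `(a, b, w)` with a twisted multiplication. -/
@[ext]
structure PP {H P V W : Type} [Group H] [Group P] [MulDistribMulAction H P] [AddCommGroup V]
    [AddCommGroup W] [DistribMulAction H V] [DistribMulAction H W] (F : Fac H P V W) : Type where
  /-- first component -/
  a : P
  /-- second component -/
  b : P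
  /-- third component -/
  w : W

namespace PP

variable {H P V W : Type} [Group H] [Group P] [MulDistribMulAction H P] [AddCommGroup V]
    [AddCommGroup W] [DistribMulAction H V] [DistribMulAction H W] {F : Fac H P V W}

instance : Mul (PP F) := ⟨fun x y => ⟨x.a * y.a, x.b * y.b, x.w + y.w + F.c (F.p y.a) (F.p x.b)⟩⟩
instance : One (PP F) := ⟨⟨1, 1, 0⟩⟩
instance : Inv (PP F) := ⟨fun x => ⟨x.a⁻¹, x.b⁻¹, -x.w + F.c (F.p x.a) (F.p x.b)⟩⟩

theorem mul_a (x y : PP F) : (x * y).a = x.a * y.a := rfl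
theorem mul_b (x y : PP F) : (x * y).b = x.b * y.b := rfl
theorem mul_w (x y : PP F) : (x * y).w = x.w + y.w + F.c (F.p y.a) (F.p x.b) := rfl
theorem one_a : (1 : PP F).a = 1 := rfl
theorem one_b : (1 : PP F).b = 1 := rfl
theorem one_w : (1 : PP F).w = 0 := rfl
theorem inv_a (x : PP F) : (x⁻¹).a = x.a⁻¹ := rfl
theorem inv_b (x : PP F) : (x⁻¹).b = x.b⁻¹ := rfl
theorem inv_w (x : PP F) : (x⁻¹).w = -x.w + F.c (F.p x.a) (F.p x.b) := rfl

instance : Group (PP F) := Group.ofLeftAxioms
  (fun x y z => by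
    apply PP.ext
    · simp only [mul_a, mul_assoc]
    · simp only [mul_b, mul_assoc]
    · simp only [mul_w, mul_a, mul_b, F.p_mul, F.c.add_l, F.c.add_r]; abel)
  (fun x => by
    apply PP.ext
    · simp only [mul_a, one_a, one_mul]
    · simp only [mul_b, one_b, one_mul]
    · simp only [mul_w, one_w, one_b, F.p_one, F.c.zero_r]; abel)
  (fun x => by
    apply PP.ext
    · simp only [mul_a, inv_a, one_a, inv_mul_cancel]
    · simp only [mul_b, inv_b, one_b, inv_mul_cancel]
    · simp only [mul_w, inv_w, inv_b, one_w, F.p_inv, F.c.neg_r]; abel)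

instance : SMul H (PP F) := ⟨fun h x => ⟨h • x.a, h • x.b, h • x.w⟩⟩

theorem smul_a (h : H) (x : PP F) : (h • x).a = h • x.a := rfl
theorem smul_b (h : H) (x : PP F) : (h • x).b = h • x.b := rfl
theorem smul_w (h : H) (x : PP F) : (h • x).w = h • x.w := rfl

instance : MulDistribMulAction H (PP F) where
  one_smul x := by
    apply PP.ext
    · rw [smul_a, one_smul]
    · rw [smul_b, one_smul]
    · rw [smul_w, one_smul]
  mul_smul g h x := by
    apply PP.ext
    · simp only [smul_a, mul_smul]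
    · simp only [smul_b, mul_smul]
    · simp only [smul_w, mul_smul]
  smul_one h := by
    apply PP.ext
    · rw [smul_a, one_a, smul_one]
    · rw [smul_b, one_b, smul_one]
    · rw [smul_w, one_w, smul_zero]
  smul_mul h x y := by
    apply PP.ext
    · simp only [smul_a, mul_a, smul_mul']
    · simp only [smul_b, mul_b, smul_mul']
    · simp only [smul_w, smul_a, smul_b, mul_w, smul_add, F.p_smul, F.c.eqv]

instance [Finite P] [Finite W] : Finite (PP F) :=
  Finite.of_equiv (P × P × W) ⟨fun x => ⟨x.1, x.2.1, x.2.2⟩, fun x => (x.a, x.b, x.w),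
    fun _ => rfl, fun _ => rfl⟩

/-- the first projection -/
def fa : PP F →* P where
  toFun x := x.a
  map_one' := rfl
  map_mul' _ _ := rfl

/-- the second projection -/
def fb : PP F →* P where
  toFun x := x.b
  map_one' := rfl
  map_mul' _ _ := rfl

/-- the product -/
def fd : PP F →* P where
  toFun x := F.i (-x.w) * (x.a * x.b)
  map_one' := by
    rw [one_w, one_a, one_b, neg_zero, F.i_zero, one_mul, one_mul]
  map_mul' x y := by
    rw [mul_w, mul_a, mul_b]
    have h1 := F.mul_eq' y.a x.b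
    have e1 : x.a * y.a * (x.b * y.b) = x.a * (y.a * x.b) * y.b := by group
    have e2 : F.i (-x.w) * (x.a * x.b) * (F.i (-y.w) * (y.a * y.b)) =
        F.i (-x.w) * F.i (-y.w) * (x.a * (x.b * y.a) * y.b) := by
      have := F.i_cen (-y.w) (x.a * x.b)
      calc F.i (-x.w) * (x.a * x.b) * (F.i (-y.w) * (y.a * y.b))
          = F.i (-x.w) * ((x.a * x.b) * F.i (-y.w)) * (y.a * y.b) := by group
        _ = F.i (-x.w) * (F.i (-y.w) * (x.a * x.b)) * (y.a * y.b) := by rw [this]
        _ = _ := by group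
    have e3 : x.a * (F.i (-F.c (F.p y.a) (F.p x.b)) * (y.a * x.b)) * y.b =
        F.i (-F.c (F.p y.a) (F.p x.b)) * (x.a * (y.a * x.b) * y.b) := by
      have := F.i_cen (-F.c (F.p y.a) (F.p x.b)) x.a
      rw [← mul_assoc x.a, ← this]
      group
    have e4 : -(x.w + y.w + F.c (F.p y.a) (F.p x.b)) =
        -x.w + -y.w + -F.c (F.p y.a) (F.p x.b) := by abel
    rw [e2, h1, e3, e1, e4, F.i_add, F.i_add]
    group

/-- the projection onto `Gr` -/
def fg : PP F →* Gr (D F.c) where
  toFun x := ⟨(F.p x.b, F.p x.a), -x.w⟩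
  map_one' := by
    apply Gr.ext
    · exact Prod.ext F.p_one F.p_one
    · exact neg_zero
  map_mul' x y := by
    apply Gr.ext
    · exact Prod.ext (F.p_mul _ _) (F.p_mul _ _)
    · change -(x.w + y.w + F.c (F.p y.a) (F.p x.b)) = -x.w + -y.w + F.c (F.p x.b) (F.p y.a)
      rw [F.c_neg]
      abel

end PP

theorem L_of_P {Z : Formation} {H P V W : Type} [Group H] [Group P] [MulDistribMulAction H P]
    [AddCommGroup V] [AddCommGroup W] [DistribMulAction H V] [DistribMulAction H W]
    [Finite H] [Finite P] [Finite V] [Finite W] (F : Fac H P V W) (hP : MemH Z H P) :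
    L Z F.c := by
  have h1 : MemH Z H (P × P) :=
    mem_sub (MonoidHom.fst P P) (MonoidHom.snd P P) Prod.fst_surjective Prod.snd_surjective
      (fun _ _ => rfl) (fun _ _ => rfl) (fun x h1 h2 => Prod.ext h1 h2) hP hP
  have h2 : MemH Z H (PP F) := by
    refine mem_sub (PP.fa.prod PP.fb) PP.fd (fun x => ⟨⟨x.1, x.2, 0⟩, rfl⟩) (fun x => ⟨⟨x, 1, 0⟩, ?_⟩)
      (fun h x => rfl) (fun h x => ?_) (fun x h1 h2 => ?_) h1 hP
    · change F.i (-0) * (x * 1) = x
      rw [neg_zero, F.i_zero, one_mul, mul_one]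
    · change F.i (-(h • x.w)) * ((h • x.a) * (h • x.b)) = h • (F.i (-x.w) * (x.a * x.b))
      rw [← smul_neg, F.i_smul, ← smul_mul', ← smul_mul']
    · have ha : x.a = 1 := congrArg Prod.fst h1
      have hb : x.b = 1 := congrArg Prod.snd h1
      have hd : F.i (-x.w) * (x.a * x.b) = 1 := h2
      rw [ha, hb, mul_one, mul_one] at hd
      have hw : x.w = 0 := neg_eq_zero.1 (F.i_eq_one hd)
      exact PP.ext ha hb hw
  refine mem_surj PP.fg (fun x => ?_) (fun h x => ?_) h2
  · obtain ⟨b, hb⟩ := F.p_surj x.v.1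
    obtain ⟨a, ha⟩ := F.p_surj x.v.2
    exact ⟨⟨a, b, -x.w⟩, Gr.ext (Prod.ext hb ha) (neg_neg _)⟩
  · apply Gr.ext
    · exact Prod.ext (F.p_smul _ _) (F.p_smul _ _)
    · exact (smul_neg h x.w).symm

end Pool.Agent.Fcl2
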