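import Pool.Agent.Fcl2.Targets

/-!
# Rings in which `x ^ q ≡ x` modulo `p`, `p` nilpotent
-/

set_option autoImplicit false

namespace Pool.Agent.Fcl2

namespace RING_

theorem idem_exists {R : Type} [CommRing R] {p m q : ℕ} (hp : p.Prime) (hq : 2 ≤ q)
    (hm : (p : R) ^ m = 0) (hx : ∀ x : R, ∃ y, x ^ q - x = p * y) (x : R) :
    ∃ e : R, e * e = e ∧ x ∣ e ∧ (p : R) ∣ (1 - e) * x := by
  have : Fact p.Prime := ⟨hp⟩
  obtain ⟨z, hz⟩ := hx x
  set t : R := x ^ (q - 1) with ht
  have h1 : x * t = x ^ q := by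
    rw [ht, ← pow_succ']
    congr 1
    omega
  have h2 : (p : R) ∣ t ^ 2 - t := by
    have : t ^ 2 - t = x ^ (q - 2) * (x ^ q - x) := by
      have h3 : t = x ^ (q - 2) * x := by
        rw [ht, ← pow_succ]
        congr 1
        omega
      rw [mul_sub, ← h3, ← h1, ← mul_assoc, ← h3, sq]
    rw [this, hz]
    exact Dvd.dvd.mul_left (Dvd.intro _ rfl) _
  have h4 : (p : R) ∣ t * x - x := by
    rw [mul_comm, h1, hz]
    exact Dvd.intro _ rfl
  refine ⟨t ^ p ^ m, ?_, ?_, ?_⟩
  · have h5 := dvd_sub_pow_of_dvd_sub (R := R) (p := p) (a := t ^ 2) (b := t) h2 m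
    rw [pow_succ, hm, zero_mul, zero_dvd_iff, sub_eq_zero] at h5
    have h6 : t ^ p ^ m * t ^ p ^ m = (t ^ 2) ^ p ^ m := by
      ring
    rw [h6, h5]
  · have h6 : x ∣ t := by
      rw [ht]
      exact dvd_pow_self _ (by omega)
    exact h6.trans (dvd_pow_self _ (pow_pos hp.pos m).ne')
  · have h7 : ∀ j : ℕ, (p : R) ∣ (1 - t ^ j) * x := by
      intro j
      induction j with
      | zero => simp
      | succ j ih =>
        have : (1 - t ^ (j + 1)) * x = (1 - t ^ j) * x - t ^ j * (t * x - x) := by ring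
        rw [this]
        exact dvd_sub ih (Dvd.dvd.mul_left h4 _)
    exact h7 _

theorem ring1_aux {R : Type} [CommRing R] {p m q : ℕ} (hp : p.Prime) (hq : 2 ≤ q)
    (hm : (p : R) ^ m = 0) (hx : ∀ x : R, ∃ y, x ^ q - x = p * y) (j : ℕ) :
    ∀ x y : R, (p : R) ^ (m - j) ∣ x → (p : R) ^ (m - j) ∣ y →
      ∃ a : R, a * a = a ∧ x ∣ a * y ∧ y ∣ (1 - a) * x := by
  induction j with
  | zero =>
    intro x y h1 h2
    rw [Nat.sub_zero, hm, zero_dvd_iff] at h1 h2
    exact ⟨1, by simp, by simp [h2], by simp⟩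
  | succ j ih =>
    intro x y h1 h2
    by_cases hj : j < m
    · set k := m - (j + 1) with hk
      have hk1 : m - j = k + 1 := by omega
      obtain ⟨x', rfl⟩ := h1
      obtain ⟨y', rfl⟩ := h2
      obtain ⟨e, he, hxe, hpe⟩ := idem_exists hp hq hm hx x'
      obtain ⟨f, hf, hyf, hpf⟩ := idem_exists hp hq hm hx y'
      set g : R := (1 - e) * (1 - f) with hg
      have hgg : g * g = g := by
        have : g * g = (1 - 2 * e + e * e) * (1 - 2 * f + f * f) := by rw [hg]; ring
        rw [this, he, hf, hg]; ring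
      have heg : e * g = 0 := by
        have : e * g = (e - e * e) * (1 - f) := by rw [hg]; ring
        rw [this, he, sub_self, zero_mul]
      obtain ⟨a', ha', hxa, hya⟩ := ih (g * ((p : R) ^ k * x')) (g * ((p : R) ^ k * y'))
        (by
          rw [hk1, pow_succ]
          obtain ⟨c, hc⟩ := hpe
          refine ⟨(1 - f) * c, ?_⟩
          calc g * ((p : R) ^ k * x') = (p : R) ^ k * (1 - f) * ((1 - e) * x') := by rw [hg]; ring
            _ = (p : R) ^ k * p * ((1 - f) * c) := by rw [hc]; ring)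
        (by
          rw [hk1, pow_succ]
          obtain ⟨c, hc⟩ := hpf
          refine ⟨(1 - e) * c, ?_⟩
          calc g * ((p : R) ^ k * y') = (p : R) ^ k * (1 - e) * ((1 - f) * y') := by rw [hg]; ring
            _ = (p : R) ^ k * p * ((1 - e) * c) := by rw [hc]; ring)
      refine ⟨e + g * a', ?_, ?_, ?_⟩
      · have : (e + g * a') * (e + g * a') = e * e + 2 * (e * g) * a' + (g * g) * (a' * a') := by
          ring
        rw [this, he, heg, hgg, ha']; ring
      · have : (e + g * a') * ((p : R) ^ k * y') = (p : R) ^ k * e * y' +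
            a' * (g * ((p : R) ^ k * y')) := by ring
        rw [this]
        refine dvd_add (Dvd.dvd.mul_right (mul_dvd_mul_left _ hxe) _) ?_
        exact (Dvd.intro_left g rfl).trans hxa
      · have : (1 - (e + g * a')) * ((p : R) ^ k * x') = (p : R) ^ k * f * ((1 - e) * x') +
            (1 - a') * (g * ((p : R) ^ k * x')) := by rw [hg]; ring
        rw [this]
        refine dvd_add (Dvd.dvd.mul_right (mul_dvd_mul_left _ hyf) _) ?_
        exact (Dvd.intro_left g rfl).trans hya
    · have : m - (j + 1) = m - j := by omega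
      rw [this] at h1 h2
      exact ih x y h1 h2

end RING_

theorem p_RING1 : T_RING1 := by
  intro R _ p m q hp hq hm hx x y
  exact RING_.ring1_aux hp hq hm hx m x y (by simp) (by simp)

namespace RING_

theorem principal {R : Type} [CommRing R] [Finite R] {p m q : ℕ} (hp : p.Prime) (hq : 2 ≤ q)
    (hm : (p : R) ^ m = 0) (hx : ∀ x : R, ∃ y, x ^ q - x = p * y) (I : Ideal R) :
    ∃ x : R, I = Ideal.span {x} := by
  have : IsBezout R := by
    rw [IsBezout.iff_span_pair_isPrincipal]
    intro x y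
    obtain ⟨a, ha, ⟨c, hc⟩, ⟨d, hd⟩⟩ := p_RING1 R p m q hp hq hm hx x y
    have h1 : a * (a * x + (1 - a) * y) = a * x := by
      have : a * (a * x + (1 - a) * y) = (a * a) * x + (a - a * a) * y := by ring
      rw [this, ha]; ring
    have h2 : (1 - a) * (a * x + (1 - a) * y) = (1 - a) * y := by
      have : (1 - a) * (a * x + (1 - a) * y) = (a - a * a) * x + (1 - 2 * a + a * a) * y := by ring
      rw [this, ha]; ring
    refine ⟨⟨a * x + (1 - a) * y, le_antisymm ?_ ?_⟩⟩
    · rw [Ideal.span_le]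
      intro z hz
      rcases hz with rfl | hz
      · refine Ideal.mem_span_singleton.2 ⟨a + d * (1 - a), ?_⟩
        have h3 : (1 - a) * ((1 - a) * z) = (1 - a) * z := by
          have : (1 - a) * ((1 - a) * z) = (1 - 2 * a + a * a) * z := by ring
          rw [this, ha]; ring
        calc z = a * z + (1 - a) * ((1 - a) * z) := by rw [h3]; ring
          _ = a * (a * z + (1 - a) * y) + d * ((1 - a) * (a * z + (1 - a) * y)) := by
            rw [h1, h2, hd]; ring
          _ = _ := by ring
      · rw [Set.mem_singleton_iff] at hz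
        subst hz
        refine Ideal.mem_span_singleton.2 ⟨(1 - a) + c * a, ?_⟩
        have h3 : a * (a * z) = a * z := by rw [← mul_assoc, ha]
        calc z = (1 - a) * z + a * (a * z) := by rw [h3]; ring
          _ = (1 - a) * (a * x + (1 - a) * z) + c * (a * (a * x + (1 - a) * z)) := by
            rw [h1, h2, hc]; ring
          _ = _ := by ring
    · rw [Submodule.span_singleton_le_iff_mem]
      exact Submodule.add_mem _ (Ideal.mul_mem_left _ _ (Ideal.subset_span (by simp)))
        (Ideal.mul_mem_left _ _ (Ideal.subset_span (by simp)))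
  have : IsNoetherianRing R := inferInstance
  obtain ⟨⟨x, h⟩⟩ := IsBezout.isPrincipal_of_FG I (IsNoetherian.noetherian I)
  exact ⟨x, h⟩

end RING_

theorem p_RING2 : T_RING2 := by
  intro R _ _ p m q hp hq hm hx I J
  obtain ⟨x, rfl⟩ := RING_.principal hp hq hm hx I
  obtain ⟨y, rfl⟩ := RING_.principal hp hq hm hx J
  obtain ⟨a, ha, h1, h2⟩ := p_RING1 R p m q hp hq hm hx x y
  refine ⟨a, ha, ?_, ?_⟩
  · intro z hz
    rw [Ideal.mem_span_singleton] at hz ⊢
    exact h1.trans (mul_dvd_mul_left _ hz)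
  · intro z hz
    rw [Ideal.mem_span_singleton] at hz ⊢
    exact h2.trans (mul_dvd_mul_left _ hz)

theorem p_RING3 : T_RING3 := by
  intro R _ _ p m q hp hq hm hx I₁ I₂ I₃ h12 h13 h23
  have key : ∀ I J : Ideal R, I ⊓ J = ⊥ → ∃ a : R, (∀ x ∈ J, a * x = 0) ∧
      (∀ x ∈ I, (1 - a) * x = 0) := by
    intro I J h
    obtain ⟨a, -, h1, h2⟩ := p_RING2 R p m q hp hq hm hx I J
    refine ⟨a, fun x hx => ?_, fun x hx => ?_⟩
    · have : a * x ∈ I ⊓ J := ⟨h1 x hx, Ideal.mul_mem_left _ _ hx⟩
      rwa [h, Ideal.mem_bot] at this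
    · have : (1 - a) * x ∈ I ⊓ J := ⟨Ideal.mul_mem_left _ _ hx, h2 x hx⟩
      rwa [h, Ideal.mem_bot] at this
  obtain ⟨a, a2, a1⟩ := key I₁ I₂ h12
  obtain ⟨b, b3, b1⟩ := key I₁ I₃ h13
  obtain ⟨c, c3, c2⟩ := key I₂ I₃ h23
  rw [eq_bot_iff]
  intro z hz
  obtain ⟨⟨hz12, hz13⟩, hz23⟩ := hz
  have kill : ∀ (I J : Ideal R) (s : R), z ∈ I ⊔ J → (∀ x ∈ I, s * x = 0) →
      (∀ x ∈ J, s * x = 0) → s * z = 0 := by
    intro I J s hz hI hJ
    obtain ⟨x, hx, y, hy, rfl⟩ := Submodule.mem_sup.1 hz
    rw [mul_add, hI x hx, hJ y hy, add_zero]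
  have m' : ∀ (s t x : R), s * x = 0 → (t * s) * x = 0 := by
    intro s t x h
    rw [mul_assoc, h, mul_zero]
  -- products
  have e1 : (a * b) * z = 0 := kill I₂ I₃ _ hz23
    (fun x hx => by rw [mul_comm a b]; exact m' _ _ _ (a2 x hx)) (fun x hx => m' _ _ _ (b3 x hx))
  have e2 : (a * (1 - b)) * z = 0 := kill I₁ I₂ _ hz12
    (fun x hx => m' _ _ _ (b1 x hx)) (fun x hx => by rw [mul_comm a (1 - b)]; exact m' _ _ _ (a2 x hx))
  have e3 : ((1 - a) * b) * z = 0 := kill I₁ I₃ _ hz13
    (fun x hx => by rw [mul_comm (1 - a) b]; exact m' _ _ _ (a1 x hx))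
    (fun x hx => m' _ _ _ (b3 x hx))
  have e4 : ((1 - a) * c) * z = 0 := kill I₁ I₃ _ hz13
    (fun x hx => by rw [mul_comm (1 - a) c]; exact m' _ _ _ (a1 x hx))
    (fun x hx => m' _ _ _ (c3 x hx))
  have e5 : ((1 - a) * (1 - c)) * z = 0 := kill I₁ I₂ _ hz12
    (fun x hx => by rw [mul_comm (1 - a)]; exact m' _ _ _ (a1 x hx))
    (fun x hx => m' _ _ _ (c2 x hx))
  rw [Ideal.mem_bot]
  calc z = (a * b) * z + (a * (1 - b)) * z + ((1 - a) * c) * z + ((1 - a) * (1 - c)) * z := by ring
    _ = 0 := by rw [e1, e2, e4, e5]; simp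

namespace RING_

theorem cyclic {R : Type} [CommRing R] [Finite R] {p m q : ℕ} (hp : p.Prime) (hq : 2 ≤ q)
    (hm : (p : R) ^ m = 0) (hx : ∀ x : R, ∃ y, x ^ q - x = p * y)
    {V : Type} [AddCommGroup V] [Module R V] (s : Finset V) :
    ∃ u : V, ∀ r : R, r • u = 0 → ∀ v ∈ s, r • v = 0 := by
  classical
  induction s using Finset.induction_on with
  | empty => exact ⟨0, by simp⟩
  | insert v s _ ih =>
    obtain ⟨w, hw⟩ := ih
    obtain ⟨a, ha, h1, h2⟩ := p_RING2 R p m q hp hq hm hx
      (LinearMap.ker (LinearMap.toSpanSingleton R V v))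
      (LinearMap.ker (LinearMap.toSpanSingleton R V w))
    simp only [LinearMap.mem_ker, LinearMap.toSpanSingleton_apply] at h1 h2
    refine ⟨(1 - a) • v + a • w, fun r hr => ?_⟩
    have hb : (1 - a) * (1 - a) = 1 - a := by
      have : (1 - a) * (1 - a) = 1 - 2 * a + a * a := by ring
      rw [this, ha]; ring
    have hab : a * (1 - a) = 0 := by rw [mul_sub, ha, mul_one, sub_self]
    have h3 : (r * a) • w = 0 := by
      have := congrArg (fun t => a • t) hr
      simp only [smul_add, smul_smul, smul_zero] at this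
      have e1 : a * (r * (1 - a)) = 0 := by
        have : a * (r * (1 - a)) = r * (a * (1 - a)) := by ring
        rw [this, hab, mul_zero]
      have e2 : a * (r * a) = r * a := by
        have : a * (r * a) = r * (a * a) := by ring
        rw [this, ha]
      rwa [e1, e2, zero_smul, zero_add] at this
    have h4 : (r * (1 - a)) • v = 0 := by
      have := congrArg (fun t => (1 - a) • t) hr
      simp only [smul_add, smul_smul, smul_zero] at this
      have e1 : (1 - a) * (r * (1 - a)) = r * (1 - a) := by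
        have : (1 - a) * (r * (1 - a)) = r * ((1 - a) * (1 - a)) := by ring
        rw [this, hb]
      have e2 : (1 - a) * (r * a) = 0 := by
        have : (1 - a) * (r * a) = r * (a * (1 - a)) := by ring
        rw [this, hab, mul_zero]
      rwa [e1, e2, zero_smul, add_zero] at this
    have h5 := h1 _ h3
    have h6 := h2 _ h4
    have e1 : a * (r * a) = r * a := by
      have : a * (r * a) = r * (a * a) := by ring
      rw [this, ha]
    have e2 : (1 - a) * (r * (1 - a)) = r * (1 - a) := by
      have : (1 - a) * (r * (1 - a)) = r * ((1 - a) * (1 - a)) := by ring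
      rw [this, hb]
    rw [e1] at h5
    rw [e2] at h6
    have hrv : r • v = 0 := by
      have : r = r * a + r * (1 - a) := by ring
      rw [this, add_smul, h5, h4, add_zero]
    have hrw : r • w = 0 := by
      have : r = r * a + r * (1 - a) := by ring
      rw [this, add_smul, h3, h6, add_zero]
    intro x hx'
    rcases Finset.mem_insert.1 hx' with rfl | h
    · exact hrv
    · exact hw r hrw x h

/-- `|Ann x| |(x)| = |R|`. -/
theorem card_ann {R : Type} [CommRing R] [Finite R] (x : R) :
    Nat.card (LinearMap.ker (LinearMap.toSpanSingleton R R x)) *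
      Nat.card (Ideal.span {x} : Ideal R) = Nat.card R := by
  have h1 := Submodule.card_eq_card_quotient_mul_card
    (LinearMap.ker (LinearMap.toSpanSingleton R R x))
  have h2 := Nat.card_congr (LinearMap.quotKerEquivRange
    (LinearMap.toSpanSingleton R R x)).toEquiv
  rw [LinearMap.range_toSpanSingleton] at h2
  rw [h1, h2, mul_comm]

theorem double_ann {R : Type} [CommRing R] [Finite R] (hpr : ∀ I : Ideal R, ∃ x : R,
    I = Ideal.span {x}) (x z : R) (h : ∀ r : R, r * x = 0 → r * z = 0) : x ∣ z := by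
  obtain ⟨y, hy⟩ := hpr (LinearMap.ker (LinearMap.toSpanSingleton R R x))
  have c1 := card_ann x
  have c2 := card_ann y
  rw [← hy] at c2
  have hyx : y * x = 0 := by
    have : y ∈ LinearMap.ker (LinearMap.toSpanSingleton R R x) := by
      rw [hy]; exact Ideal.mem_span_singleton_self y
    simpa using this
  have hpos : 0 < Nat.card (LinearMap.ker (LinearMap.toSpanSingleton R R x)) := Nat.card_pos
  have c3 : Nat.card (LinearMap.ker (LinearMap.toSpanSingleton R R y)) =
      Nat.card (Ideal.span {x} : Ideal R) := by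
    have : Nat.card (LinearMap.ker (LinearMap.toSpanSingleton R R y)) *
      Nat.card (LinearMap.ker (LinearMap.toSpanSingleton R R x)) =
      Nat.card (Ideal.span {x} : Ideal R) *
      Nat.card (LinearMap.ker (LinearMap.toSpanSingleton R R x)) := by
      rw [c2, mul_comm, c1]
    exact Nat.eq_of_mul_eq_mul_right hpos this
  have hle : (Ideal.span {x} : Ideal R) ≤ LinearMap.ker (LinearMap.toSpanSingleton R R y) := by
    rw [Ideal.span_le]
    intro w hw
    rw [Set.mem_singleton_iff] at hw
    subst hw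
    simp [mul_comm, hyx]
  have heq : (Ideal.span {x} : Ideal R) = LinearMap.ker (LinearMap.toSpanSingleton R R y) := by
    apply SetLike.coe_injective
    refine Set.eq_of_subset_of_ncard_le hle ?_ (Set.toFinite _)
    rw [← Nat.card_coe_set_eq, ← Nat.card_coe_set_eq]
    exact c3.le
  have hz : z ∈ LinearMap.ker (LinearMap.toSpanSingleton R R y) := by
    have := h y hyx
    simpa [mul_comm] using this
  rw [← heq, Ideal.mem_span_singleton] at hz
  exact hz

end RING_

theorem p_RING4 : T_RING4 := by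
  intro R _ _ p m q hp hq hm hx V _ _ _ hV
  have hpr := RING_.principal hp hq hm hx
  have := Fintype.ofFinite V
  obtain ⟨u, hu⟩ := RING_.cyclic hp hq hm hx (Finset.univ : Finset V)
  have hinj : Function.Injective (LinearMap.toSpanSingleton R V u) := by
    rw [← LinearMap.ker_eq_bot, LinearMap.ker_eq_bot']
    intro r hr
    rw [LinearMap.toSpanSingleton_apply] at hr
    exact hV r (fun v => hu r hr v (Finset.mem_univ v))
  have hB : Module.Baer R R := by
    intro I g
    obtain ⟨x, rfl⟩ := hpr I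
    have hxm : x ∈ (Ideal.span {x} : Ideal R) := Ideal.mem_span_singleton_self x
    obtain ⟨c, hc⟩ := RING_.double_ann hpr x (g ⟨x, hxm⟩) (by
      intro r hr
      have : r • g ⟨x, hxm⟩ = 0 := by
        rw [← map_smul]
        have : r • (⟨x, hxm⟩ : (Ideal.span {x} : Ideal R)) = 0 := by
          apply Subtype.ext
          simpa using hr
        rw [this, map_zero]
      simpa using this)
    refine ⟨LinearMap.toSpanSingleton R R c, ?_⟩
    intro z hz
    obtain ⟨d, hd⟩ := Ideal.mem_span_singleton.1 hz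
    have h1 : (⟨z, hz⟩ : (Ideal.span {x} : Ideal R)) = d • ⟨x, hxm⟩ := by
      apply Subtype.ext
      simp [hd, mul_comm]
    rw [h1, map_smul, hc, LinearMap.toSpanSingleton_apply, hd]
    simp only [smul_eq_mul]
    ring
  have hI : Module.Injective R R := hB.injective
  obtain ⟨l, hl⟩ := hI.out (LinearMap.toSpanSingleton R V u) hinj LinearMap.id
  refine ⟨l, fun r => ⟨r • u, ?_⟩⟩
  have := hl r
  simpa using this

theorem p_FRZ : T_FRZ := by
  intro G _ _ p hp hG
  have : Fact p.Prime := ⟨hp⟩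
  have hn : 0 < Nat.card G := Nat.card_pos
  have hco : Nat.Coprime p (Nat.card G) := (Nat.Prime.coprime_iff_not_dvd hp).2 hG
  have hk : 0 < Nat.totient (Nat.card G) := Nat.totient_pos.2 hn
  set k := Nat.totient (Nat.card G) with hkdef
  have hmod : p ^ k ≡ 1 [MOD Nat.card G] := Nat.ModEq.pow_totient hco
  have hq : 2 ≤ p ^ k := by
    calc 2 ≤ p := hp.two_le
      _ = p ^ 1 := (pow_one p).symm
      _ ≤ p ^ k := Nat.pow_le_pow_right hp.pos hk
  refine ⟨p ^ k, hq, ?_⟩
  have hg : ∀ g : G, g ^ p ^ k = g := by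
    intro g
    have h1 : g ^ p ^ k = g ^ 1 := by
      rw [← pow_mod_natCard, hmod, pow_mod_natCard]
    rw [h1, pow_one]
  intro x
  induction x using MonoidAlgebra.induction_linear with
  | zero =>
    refine ⟨0, ?_⟩
    rw [zero_pow (by omega)]
    simp
  | add f g hf hg' =>
    obtain ⟨y, hy⟩ := hf
    obtain ⟨z, hz⟩ := hg'
    obtain ⟨r, hr⟩ := exists_add_pow_prime_pow_eq hp f g k
    refine ⟨y + z + f * g * r, ?_⟩
    have : (f + g) ^ p ^ k - (f + g) = (f ^ p ^ k - f) + (g ^ p ^ k - g) +
        (p : MonoidAlgebra ℤ G) * (f * g * r) := by rw [hr]; ring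
    rw [this, hy, hz]; ring
  | single g a =>
    have h1 : (p : ℤ) ∣ a ^ p ^ k - a := by
      have := (ZMod.intCast_zmod_eq_zero_iff_dvd (a ^ p ^ k - a) p)
      rw [← ZMod.intCast_zmod_eq_zero_iff_dvd]
      push_cast
      rw [ZMod.pow_card_pow, sub_self]
    obtain ⟨c, hc⟩ := h1
    refine ⟨MonoidAlgebra.single g c, ?_⟩
    rw [MonoidAlgebra.single_pow, hg, ← MonoidAlgebra.single_sub, hc]
    have h2 : (p : MonoidAlgebra ℤ G) = MonoidAlgebra.single 1 (p : ℤ) := by
      simp [MonoidAlgebra.natCast_def]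
    rw [h2, MonoidAlgebra.single_mul_single, one_mul]

end Pool.Agent.Fcl2
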