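import Pool.Agent.Fcl2.CloL
import Pool.Agent.Fcl2.RING

/-!
# The main step
-/

set_option autoImplicit false
set_option linter.unusedSectionVars false
set_option linter.unusedVariables false

namespace Pool.Agent.Fcl2

open Pool.Agent.Formn Pool.Agent.Formn.Formation

namespace MAIN_

section ring

variable (H V : Type) [CommGroup H] [AddCommGroup V] [DistribMulAction H V]

/-- The action of the group ring. -/
noncomputable def act : MonoidAlgebra ℤ H →+* AddMonoid.End V :=
  (MonoidAlgebra.lift ℤ (AddMonoid.End V) H (DistribMulAction.toAddMonoidEnd H V)).toRingHom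

theorem act_of (h : H) (v : V) : act H V (MonoidAlgebra.of ℤ H h) v = h • v := by
  have h1 : act H V (MonoidAlgebra.of ℤ H h) = DistribMulAction.toAddMonoidEnd H V h :=
    MonoidAlgebra.lift_of _ _
  rw [h1]
  rfl

/-- The group ring modulo the annihilator of `V`. -/
def Rb : Type := MonoidAlgebra ℤ H ⧸ RingHom.ker (act H V)

noncomputable instance : CommRing (Rb H V) :=
  inferInstanceAs (CommRing (MonoidAlgebra ℤ H ⧸ RingHom.ker (act H V)))

/-- The projection. -/
noncomputable def rb : MonoidAlgebra ℤ H →+* Rb H V := Ideal.Quotient.mk _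

theorem rb_surj : Function.Surjective (rb H V) := Ideal.Quotient.mk_surjective

/-- The action of the quotient. -/
noncomputable def rv : Rb H V →+* AddMonoid.End V := RingHom.kerLift (act H V)

theorem rv_inj : Function.Injective (rv H V) := RingHom.kerLift_injective (act H V)

theorem rv_rb (r : MonoidAlgebra ℤ H) : rv H V (rb H V r) = act H V r := rfl

instance [Finite V] : Finite (Rb H V) := by
  have : Finite (AddMonoid.End V) := DFunLike.finite (AddMonoid.End V)
  exact Finite.of_injective _ (rv_inj H V)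

noncomputable instance : DistribMulAction H (Rb H V) where
  smul h x := rb H V (MonoidAlgebra.of ℤ H h) * x
  one_smul x := by
    change rb H V (MonoidAlgebra.of ℤ H 1) * x = x
    rw [map_one, map_one, one_mul]
  mul_smul g h x := by
    change rb H V (MonoidAlgebra.of ℤ H (g * h)) * x =
      rb H V (MonoidAlgebra.of ℤ H g) * (rb H V (MonoidAlgebra.of ℤ H h) * x)
    rw [map_mul, map_mul, mul_assoc]
  smul_zero h := mul_zero _
  smul_add h x y := mul_add _ _ _

theorem rb_smul (h : H) (x : Rb H V) : h • x = rb H V (MonoidAlgebra.of ℤ H h) * x := rfl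

theorem rv_smul (h : H) (x : Rb H V) (v : V) : rv H V (h • x) v = h • rv H V x v := by
  rw [rb_smul, map_mul, rv_rb]
  change act H V (MonoidAlgebra.of ℤ H h) (rv H V x v) = _
  rw [act_of]

/-- `V` has a quotient isomorphic to the ring `Rb H V`. -/
theorem exists_l [Finite H] [Finite V] (p m : ℕ) (hp : p.Prime) (hH : ¬ p ∣ Nat.card H)
    (hV : ∀ v : V, p ^ m • v = 0) :
    ∃ l : V →+ Rb H V, Function.Surjective l ∧ ∀ (h : H) (v : V), l (h • v) = h • l v := by
  obtain ⟨q, hq, hx⟩ := p_FRZ H p hp hH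
  letI mod : Module (Rb H V) V := Module.compHom V (rv H V)
  have hsm : ∀ (r : Rb H V) (v : V), r • v = rv H V r v := fun _ _ => rfl
  have h0 : ((p : ℕ) : Rb H V) ^ m = 0 := by
    apply rv_inj H V
    rw [map_pow, map_natCast, map_zero, ← Nat.cast_pow]
    ext v
    have h1 : ((p ^ m : ℕ) : AddMonoid.End V) v = (p ^ m) • v := by
      rw [AddMonoid.End.natCast_apply]
    rw [h1, hV]
    rfl
  have h1 : ∀ x : Rb H V, ∃ y, x ^ q - x = (p : Rb H V) * y := by
    intro x
    obtain ⟨r, rfl⟩ := rb_surj H V x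
    obtain ⟨y, hy⟩ := hx r
    refine ⟨rb H V y, ?_⟩
    rw [← map_pow, ← map_sub, hy, map_mul, map_natCast]
  obtain ⟨l, hl⟩ := p_RING4 (Rb H V) p m q hp hq h0 h1 V (fun r hr => by
    apply rv_inj H V
    rw [map_zero]
    ext v
    exact hr v)
  refine ⟨l.toAddMonoidHom, hl, ?_⟩
  intro h v
  have h2 : h • v = rb H V (MonoidAlgebra.of ℤ H h) • v := by
    rw [hsm, rv_rb, act_of]
  change l (h • v) = h • l v
  rw [h2, map_smul]
  rfl

end ring

section forms

variable (H V W : Type) [CommGroup H] [AddCommGroup V] [AddCommGroup W]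
  [DistribMulAction H V] [DistribMulAction H W]

/-- Biadditive maps. -/
def Fm : Type := V →+ V →+ W

instance : AddCommGroup (Fm V W) := inferInstanceAs (AddCommGroup (V →+ V →+ W))

/-- The value of a form. -/
def Fm.ap {V W : Type} [AddCommGroup V] [AddCommGroup W] (F : Fm V W) (x y : V) : W :=
  (show V →+ V →+ W from F) x y

theorem Fm.ext' {V W : Type} [AddCommGroup V] [AddCommGroup W] {F G : Fm V W}
    (h : ∀ x y, F.ap x y = G.ap x y) : F = G := by
  have h1 : (show V →+ V →+ W from F) = G := by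
    ext x y
    exact h x y
  exact h1

theorem Fm.ap_add {V W : Type} [AddCommGroup V] [AddCommGroup W] (F G : Fm V W) (x y : V) :
    (F + G).ap x y = F.ap x y + G.ap x y := rfl

theorem Fm.ap_zero {V W : Type} [AddCommGroup V] [AddCommGroup W] (x y : V) :
    (0 : Fm V W).ap x y = 0 := rfl

theorem Fm.ap_add_l {V W : Type} [AddCommGroup V] [AddCommGroup W] (F : Fm V W) (x x' y : V) :
    F.ap (x + x') y = F.ap x y + F.ap x' y := by
  unfold Fm.ap
  rw [map_add]
  rfl

theorem Fm.ap_add_r {V W : Type} [AddCommGroup V] [AddCommGroup W] (F : Fm V W) (x y y' : V) :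
    F.ap x (y + y') = F.ap x y + F.ap x y' := by
  unfold Fm.ap
  rw [map_add]

/-- A form from a biadditive function. -/
def Fm.mk {V W : Type} [AddCommGroup V] [AddCommGroup W] (g : V → V → W)
    (h1 : ∀ x x' y, g (x + x') y = g x y + g x' y) (h2 : ∀ x y y', g x (y + y') = g x y + g x y') :
    Fm V W :=
  (AddMonoidHom.mk' (fun x => AddMonoidHom.mk' (g x) (h2 x)) (fun x x' => by
    ext y
    exact h1 x x' y) : V →+ V →+ W)

theorem Fm.mk_ap {V W : Type} [AddCommGroup V] [AddCommGroup W] (g : V → V → W)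
    (h1 : ∀ x x' y, g (x + x') y = g x y + g x' y) (h2 : ∀ x y y', g x (y + y') = g x y + g x y')
    (x y : V) : (Fm.mk g h1 h2).ap x y = g x y := rfl

instance [Finite V] [Finite W] : Finite (Fm V W) := by
  have : Finite (V → V → W) := inferInstance
  refine Finite.of_injective (fun (F : Fm V W) x y => F.ap x y) ?_
  intro F G h
  exact Fm.ext' fun x y => congrFun (congrFun h x) y

/-- The action of `H × H` on forms. -/
noncomputable def pA : H × H →* AddMonoid.End (Fm V W) where
  toFun g := AddMonoidHom.mk' (fun F => Fm.mk (fun x y => F.ap (g.1 • x) (g.2 • y))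
    (fun x x' y => by rw [smul_add, F.ap_add_l]) (fun x y y' => by rw [smul_add, F.ap_add_r]))
    (fun F G => Fm.ext' fun x y => rfl)
  map_one' := by
    ext F
    refine Fm.ext' fun x y => ?_
    change F.ap ((1 : H) • x) ((1 : H) • y) = F.ap x y
    rw [one_smul, one_smul]
  map_mul' g g' := by
    ext F
    refine Fm.ext' fun x y => ?_
    change F.ap ((g.1 * g'.1) • x) ((g.2 * g'.2) • y) = F.ap (g'.1 • g.1 • x) (g'.2 • g.2 • y)
    rw [mul_comm g.1, mul_comm g.2, mul_smul, mul_smul]

/-- The action of the group ring on forms. -/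
noncomputable def actS : MonoidAlgebra ℤ (H × H) →+* AddMonoid.End (Fm V W) :=
  (MonoidAlgebra.lift ℤ (AddMonoid.End (Fm V W)) (H × H) (pA H V W)).toRingHom

theorem actS_of (g : H × H) (F : Fm V W) (x y : V) :
    (actS H V W (MonoidAlgebra.of ℤ (H × H) g) F).ap x y = F.ap (g.1 • x) (g.2 • y) := by
  have h1 : actS H V W (MonoidAlgebra.of ℤ (H × H) g) = pA H V W g :=
    MonoidAlgebra.lift_of _ _
  rw [h1]
  rfl

theorem actS_add (s t : MonoidAlgebra ℤ (H × H)) (F : Fm V W) (x y : V) :
    (actS H V W (s + t) F).ap x y = (actS H V W s F).ap x y + (actS H V W t F).ap x y := by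
  rw [map_add]
  rfl

theorem actS_smul (n : ℤ) (s : MonoidAlgebra ℤ (H × H)) (F : Fm V W) (x y : V) :
    (actS H V W (n • s) F).ap x y = n • (actS H V W s F).ap x y := by
  rw [map_zsmul]
  rfl

theorem actS_mul (s t : MonoidAlgebra ℤ (H × H)) (F : Fm V W) :
    actS H V W (s * t) F = actS H V W s (actS H V W t F) := by
  rw [map_mul]
  rfl

/-- The embeddings of the group ring. -/
noncomputable def i1 : MonoidAlgebra ℤ H →+* MonoidAlgebra ℤ (H × H) :=
  MonoidAlgebra.mapDomainRingHom ℤ (MonoidHom.inl H H)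

/-- The embeddings of the group ring. -/
noncomputable def i2 : MonoidAlgebra ℤ H →+* MonoidAlgebra ℤ (H × H) :=
  MonoidAlgebra.mapDomainRingHom ℤ (MonoidHom.inr H H)

theorem i1_of (h : H) : i1 H (MonoidAlgebra.of ℤ H h) = MonoidAlgebra.of ℤ (H × H) (h, 1) := by
  unfold i1
  rw [MonoidAlgebra.of_apply, MonoidAlgebra.of_apply, MonoidAlgebra.mapDomainRingHom_apply,
    MonoidAlgebra.mapDomain_single]
  rfl

theorem i2_of (h : H) : i2 H (MonoidAlgebra.of ℤ H h) = MonoidAlgebra.of ℤ (H × H) (1, h) := by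
  unfold i2
  rw [MonoidAlgebra.of_apply, MonoidAlgebra.of_apply, MonoidAlgebra.mapDomainRingHom_apply,
    MonoidAlgebra.mapDomain_single]
  rfl

theorem act_zsmul (n : ℤ) (r : MonoidAlgebra ℤ H) (x : V) :
    act H V (n • r) x = n • act H V r x := by
  rw [map_zsmul]
  rfl

theorem act_add (r r' : MonoidAlgebra ℤ H) (x : V) :
    act H V (r + r') x = act H V r x + act H V r' x := by
  rw [map_add]
  rfl

theorem Fm.ap_zsmul_l {V W : Type} [AddCommGroup V] [AddCommGroup W] (F : Fm V W) (n : ℤ)
    (x y : V) : F.ap (n • x) y = n • F.ap x y := by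
  unfold Fm.ap
  rw [map_zsmul]
  rfl

theorem Fm.ap_zsmul_r {V W : Type} [AddCommGroup V] [AddCommGroup W] (F : Fm V W) (n : ℤ)
    (x y : V) : F.ap x (n • y) = n • F.ap x y := by
  unfold Fm.ap
  rw [map_zsmul]

theorem actS_i1 (r : MonoidAlgebra ℤ H) (F : Fm V W) (x y : V) :
    (actS H V W (i1 H r) F).ap x y = F.ap (act H V r x) y := by
  induction r using MonoidAlgebra.induction_on generalizing x y with
  | of h => rw [i1_of, actS_of, act_of, one_smul]
  | add a b ha hb =>
    rw [map_add, actS_add, ha, hb, act_add, F.ap_add_l]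
  | smul n a ha =>
    rw [map_zsmul, actS_smul, ha, act_zsmul, F.ap_zsmul_l]

theorem actS_i2 (r : MonoidAlgebra ℤ H) (F : Fm V W) (x y : V) :
    (actS H V W (i2 H r) F).ap x y = F.ap x (act H V r y) := by
  induction r using MonoidAlgebra.induction_on generalizing x y with
  | of h => rw [i2_of, actS_of, act_of, one_smul]
  | add a b ha hb =>
    rw [map_add, actS_add, ha, hb, act_add, F.ap_add_r]
  | smul n a ha =>
    rw [map_zsmul, actS_smul, ha, act_zsmul, F.ap_zsmul_r]

theorem actS_eqv (s : MonoidAlgebra ℤ (H × H)) (F : Fm V W)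
    (hF : ∀ (h : H) x y, F.ap (h • x) (h • y) = h • F.ap x y) (h : H) (x y : V) :
    (actS H V W s F).ap (h • x) (h • y) = h • (actS H V W s F).ap x y := by
  induction s using MonoidAlgebra.induction_on generalizing x y with
  | of g => rw [actS_of, actS_of, smul_comm g.1 h, smul_comm g.2 h, hF]
  | add a b ha hb => rw [actS_add, actS_add, ha, hb, smul_add]
  | smul n a ha => rw [actS_smul, actS_smul, ha, smul_comm]

theorem actS_pst {W' : Type} [AddCommGroup W'] [DistribMulAction H W'] (s : MonoidAlgebra ℤ (H × H)) (F : Fm V W)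
    (G : Fm V W') (ψ : W →+ W') (h : ∀ x y, G.ap x y = ψ (F.ap x y)) (x y : V) :
    (actS H V W' s G).ap x y = ψ ((actS H V W s F).ap x y) := by
  induction s using MonoidAlgebra.induction_on generalizing x y with
  | of g => rw [actS_of, actS_of, h]
  | add a b ha hb => rw [actS_add, actS_add, ha, hb, map_add]
  | smul n a ha => rw [actS_smul, actS_smul, ha, map_zsmul]

noncomputable instance : Module (MonoidAlgebra ℤ (H × H)) (Fm V W) :=
  Module.compHom (Fm V W) (actS H V W)

end forms

section T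

variable (H : Type) {V W : Type} [CommGroup H] [AddCommGroup V] [AddCommGroup W]
  [DistribMulAction H V] [DistribMulAction H W]

/-- The annihilator of a form. -/
noncomputable def bI (F : Fm V W) : Ideal (MonoidAlgebra ℤ (H × H)) :=
  LinearMap.ker (LinearMap.toSpanSingleton (MonoidAlgebra ℤ (H × H)) (Fm V W) F)

theorem mem_bI (F : Fm V W) (s : MonoidAlgebra ℤ (H × H)) :
    s ∈ bI H F ↔ ∀ x y, (actS H V W s F).ap x y = 0 := by
  unfold bI
  rw [LinearMap.mem_ker, LinearMap.toSpanSingleton_apply]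
  constructor
  · intro h x y
    have h' : actS H V W s F = 0 := h
    rw [h', Fm.ap_zero]
  · intro h
    have h' : actS H V W s F = 0 := Fm.ext' fun x y => by rw [h, Fm.ap_zero]
    exact h'

/-- The ring acting on `F`. -/
def T (F : Fm V W) : Type := MonoidAlgebra ℤ (H × H) ⧸ bI H F

variable (F : Fm V W)

noncomputable instance : CommRing (T H F) :=
  inferInstanceAs (CommRing (MonoidAlgebra ℤ (H × H) ⧸ bI H F))

/-- The projection. -/
noncomputable def tq : MonoidAlgebra ℤ (H × H) →+* T H F := Ideal.Quotient.mk _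

theorem tq_surj : Function.Surjective (tq H F) := Ideal.Quotient.mk_surjective

theorem tq_eq_zero (s : MonoidAlgebra ℤ (H × H)) : tq H F s = 0 ↔ s ∈ bI H F :=
  Ideal.Quotient.eq_zero_iff_mem

/-- The evaluation of elements of the ring at a form. -/
noncomputable def ev {W' : Type} [AddCommGroup W'] [DistribMulAction H W'] (G : Fm V W') (h : bI H F ≤ bI H G) :
    T H F →+ Fm V W' :=
  ((bI H F).liftQ (LinearMap.toSpanSingleton (MonoidAlgebra ℤ (H × H)) (Fm V W') G)
    h).toAddMonoidHom

theorem ev_tq {W' : Type} [AddCommGroup W'] [DistribMulAction H W'] (G : Fm V W') (h : bI H F ≤ bI H G)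
    (s : MonoidAlgebra ℤ (H × H)) : ev H F G h (tq H F s) = actS H V W' s G := rfl

theorem ev_inj : Function.Injective (ev H F F le_rfl) := by
  rw [injective_iff_map_eq_zero]
  intro a ha
  obtain ⟨s, rfl⟩ := tq_surj H F a
  rw [ev_tq] at ha
  rw [tq_eq_zero, mem_bI]
  intro x y
  rw [ha, Fm.ap_zero]

instance [Finite V] [Finite W] : Finite (T H F) := Finite.of_injective _ (ev_inj H F)

/-- The first embedding of `Rb`. -/
noncomputable def e1 : Rb H V →+* T H F :=
  Ideal.Quotient.lift (RingHom.ker (act H V)) ((tq H F).comp (i1 H)) (by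
    intro r hr
    have hr' : act H V r = 0 := hr
    change tq H F (i1 H r) = 0
    rw [tq_eq_zero, mem_bI]
    intro x y
    rw [actS_i1, hr']
    change F.ap 0 y = 0
    have := F.ap_zsmul_l 0 0 y
    rwa [zero_smul, zero_smul] at this)

/-- The second embedding of `Rb`. -/
noncomputable def e2 : Rb H V →+* T H F :=
  Ideal.Quotient.lift (RingHom.ker (act H V)) ((tq H F).comp (i2 H)) (by
    intro r hr
    have hr' : act H V r = 0 := hr
    change tq H F (i2 H r) = 0
    rw [tq_eq_zero, mem_bI]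
    intro x y
    rw [actS_i2, hr']
    change F.ap x 0 = 0
    have := F.ap_zsmul_r 0 x 0
    rwa [zero_smul, zero_smul] at this)

theorem e1_rb (r : MonoidAlgebra ℤ H) : e1 H F (rb H V r) = tq H F (i1 H r) := rfl
theorem e2_rb (r : MonoidAlgebra ℤ H) : e2 H F (rb H V r) = tq H F (i2 H r) := rfl

variable {F}

/-- The quotient module. -/
def SQ (I : Ideal (T H F)) : Type := T H F ⧸ I

variable (I J : Ideal (T H F))

noncomputable instance : CommRing (SQ H I) := inferInstanceAs (CommRing (T H F ⧸ I))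

/-- The projection. -/
noncomputable def sq : T H F →+* SQ H I := Ideal.Quotient.mk _

theorem sq_surj : Function.Surjective (sq H I) := Ideal.Quotient.mk_surjective

theorem sq_eq_zero (t : T H F) : sq H I t = 0 ↔ t ∈ I := Ideal.Quotient.eq_zero_iff_mem

instance [Finite V] [Finite W] : Finite (SQ H I) := Finite.of_surjective _ (sq_surj H I)

noncomputable instance : DistribMulAction H (SQ H I) where
  smul h x := sq H I (tq H F (MonoidAlgebra.of ℤ (H × H) (h, h))) * x
  one_smul x := by
    change sq H I (tq H F (MonoidAlgebra.of ℤ (H × H) (1, 1))) * x = x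
    have : ((1, 1) : H × H) = 1 := rfl
    rw [this, map_one, map_one, map_one, one_mul]
  mul_smul g h x := by
    change sq H I (tq H F (MonoidAlgebra.of ℤ (H × H) (g * h, g * h))) * x =
      sq H I (tq H F (MonoidAlgebra.of ℤ (H × H) (g, g))) *
        (sq H I (tq H F (MonoidAlgebra.of ℤ (H × H) (h, h))) * x)
    have : ((g * h, g * h) : H × H) = (g, g) * (h, h) := rfl
    rw [this, map_mul, map_mul, map_mul, mul_assoc]
  smul_zero h := mul_zero _
  smul_add h x y := mul_add _ _ _

theorem sq_smul (h : H) (x : SQ H I) :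
    h • x = sq H I (tq H F (MonoidAlgebra.of ℤ (H × H) (h, h))) * x := rfl

/-- The universal form. -/
noncomputable def u : Bil H (Rb H V) (Rb H V) (SQ H I) :=
  Bil.mk' (fun r s => sq H I (e1 H F r * e2 H F s))
    (fun r r' s => by rw [map_add, add_mul, map_add])
    (fun r s s' => by rw [map_add, mul_add, map_add])
    (fun h r s => by
      have hA : e1 H F (rb H V (MonoidAlgebra.of ℤ H h) * r) =
          tq H F (MonoidAlgebra.of ℤ (H × H) (h, 1)) * e1 H F r := by
        rw [map_mul, e1_rb, i1_of]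
      have hB : e2 H F (rb H V (MonoidAlgebra.of ℤ H h) * s) =
          tq H F (MonoidAlgebra.of ℤ (H × H) (1, h)) * e2 H F s := by
        rw [map_mul, e2_rb, i2_of]
      rw [rb_smul, rb_smul, hA, hB, sq_smul, ← map_mul]
      congr 1
      have h1 : ((h, h) : H × H) = (h, 1) * (1, h) := by
        rw [Prod.mk_mul_mk, one_mul, mul_one]
      rw [h1, map_mul, map_mul]
      ring)

theorem u_apply (r s : Rb H V) : u H I r s = sq H I (e1 H F r * e2 H F s) := rfl

/-- The projection between quotients. -/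
noncomputable def fac (h : I ≤ J) : SQ H I →+* SQ H J := Ideal.Quotient.factor h

theorem fac_sq (h : I ≤ J) (t : T H F) : fac H I J h (sq H I t) = sq H J t := rfl

theorem fac_surj (h : I ≤ J) : Function.Surjective (fac H I J h) := by
  intro x
  obtain ⟨t, rfl⟩ := sq_surj H J x
  exact ⟨sq H I t, fac_sq H I J h t⟩

theorem fac_smul (h : I ≤ J) (k : H) (x : SQ H I) : fac H I J h (k • x) = k • fac H I J h x := by
  obtain ⟨t, rfl⟩ := sq_surj H I x
  rw [sq_smul, sq_smul, map_mul, fac_sq, fac_sq]

variable [Finite H] [Finite V] [Finite W] {Z : Formation}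

theorem u_mono (h : I ≤ J) (hI : L Z (u H I)) : L Z (u H J) :=
  L_sur (AddMonoidHom.id _) (AddMonoidHom.id _) (fac H I J h).toAddMonoidHom
    Function.surjective_id Function.surjective_id (fac_surj H I J h) (fun _ _ => rfl)
    (fun _ _ => rfl) (fac_smul H I J h) (fun _ _ => rfl) hI

theorem u_inf (hI : L Z (u H I)) (hJ : L Z (u H J)) : L Z (u H (I ⊓ J)) :=
  L_sub (AddMonoidHom.id _) (AddMonoidHom.id _) (fac H (I ⊓ J) I inf_le_left).toAddMonoidHom
    (AddMonoidHom.id _) (AddMonoidHom.id _) (fac H (I ⊓ J) J inf_le_right).toAddMonoidHom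
    Function.surjective_id Function.surjective_id (fac_surj H _ I inf_le_left)
    Function.surjective_id Function.surjective_id (fac_surj H _ J inf_le_right)
    (fun _ _ => rfl) (fun _ _ => rfl) (fac_smul H _ I inf_le_left)
    (fun _ _ => rfl) (fun _ _ => rfl) (fac_smul H _ J inf_le_right)
    (fun _ _ => rfl) (fun _ _ => rfl) (fun _ h _ => h) (fun _ h _ => h) (fun x h1 h2 => by
      obtain ⟨t, rfl⟩ := sq_surj H _ x
      have h1' : sq H I t = 0 := h1
      have h2' : sq H J t = 0 := h2
      rw [sq_eq_zero] at h1' h2' ⊢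
      exact ⟨h1', h2'⟩) hI hJ

end T

section pi

variable {Z : Formation} {H : Type} [Group H] [Finite H]
variable {X Y W : Type} [AddCommGroup X] [AddCommGroup Y] [AddCommGroup W]
  [DistribMulAction H X] [DistribMulAction H Y] [DistribMulAction H W]
  [Finite X] [Finite Y] [Finite W]

theorem memA_pi (ι : Type) [Finite ι] (hW : MemA Z H W) : MemA Z H (ι → W) := by
  have key : ∀ (α : Type) [Finite α], (∀ [Finite α], MemA Z H (α → W)) := by
    intro α hα
    refine Finite.induction_empty_option (P := fun α => ∀ [Finite α], MemA Z H (α → W)) ?_ ?_ ?_ α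
    · intro α β a h hβ
      have hα : Finite α := Finite.of_equiv β a.symm
      refine memA_surj (V := α → W)
        { toFun := fun f b => f (a.symm b), map_zero' := rfl, map_add' := fun _ _ => rfl }
        ?_ (fun _ _ => rfl) h
      intro f
      refine ⟨fun x => f (a x), ?_⟩
      funext b
      change f (a (a.symm b)) = f b
      rw [Equiv.apply_symm_apply]
    · intro _
      refine memA_surj (V := W) 0 ?_ (fun k _ => (smul_zero k).symm) hW
      intro f
      exact ⟨0, funext fun x => x.elim⟩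
    · intro α _ h hα
      refine memA_sub (V := Option α → W) (V' := W) (V'' := α → W)
        { toFun := fun f => f none, map_zero' := rfl, map_add' := fun _ _ => rfl }
        { toFun := fun f a => f (some a), map_zero' := rfl, map_add' := fun _ _ => rfl }
        (fun w => ⟨fun _ => w, rfl⟩) (fun f => ⟨fun o => o.elim 0 f, rfl⟩) (fun _ _ => rfl)
        (fun _ _ => rfl) (fun f h1 h2 => ?_) hW h
      funext o
      cases o with
      | none => exact h1
      | some a => exact congrFun h2 a
  exact key ι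

theorem L_sum {ι : Type} (hX : MemA Z H X) (hY : MemA Z H Y) (hW : MemA Z H W)
    (b : ι → Bil H X Y W) (s : Finset ι) : (∀ a ∈ s, L Z (b a)) → ∀ f : Bil H X Y W,
    (∀ x y, f x y = ∑ a ∈ s, b a x y) → L Z f := by
  classical
  induction s using Finset.induction_on with
  | empty =>
    intro _ f hf
    exact L_zero (fun x y => by rw [hf, Finset.sum_empty]) hX hY hW
  | insert a s ha ih =>
    intro hb f hf
    let g : Bil H X Y W := Bil.mk' (fun x y => ∑ a ∈ s, b a x y)
      (fun x x' y => by rw [← Finset.sum_add_distrib]; exact Finset.sum_congr rfl fun a _ => (b a).add_l x x' y)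
      (fun x y y' => by rw [← Finset.sum_add_distrib]; exact Finset.sum_congr rfl fun a _ => (b a).add_r x y y')
      (fun h x y => by rw [Finset.smul_sum]; exact Finset.sum_congr rfl fun a _ => (b a).eqv h x y)
    have hg : L Z g := ih (fun a' ha' => hb a' (Finset.mem_insert_of_mem ha')) g (fun _ _ => rfl)
    refine L_add (f := b a) (g := g) (fun x y => ?_) (hb a (Finset.mem_insert_self a s)) hg
    rw [hf, Finset.sum_insert ha]
    rfl

theorem L_pi {ι : Type} [Finite ι] (hX : MemA Z H X) (hY : MemA Z H Y) (hW : MemA Z H W)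
    (b : ι → Bil H X Y W) (hb : ∀ a, L Z (b a)) (f : Bil H X Y (ι → W))
    (hf : ∀ x y a, f x y a = b a x y) : L Z f := by
  classical
  have := Fintype.ofFinite ι
  have hW' : MemA Z H (ι → W) := memA_pi ι hW
  let sg : ∀ a : ι, W →+ (ι → W) := fun a => AddMonoidHom.single (fun _ => W) a
  have esg : ∀ a (k : H) (w : W), sg a (k • w) = k • sg a w := by
    intro a k w
    funext j
    change (Pi.single a (k • w) : ι → W) j = k • (Pi.single a w : ι → W) j
    by_cases h : j = a
    · subst h
      rw [Pi.single_eq_same, Pi.single_eq_same]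
    · rw [Pi.single_eq_of_ne h, Pi.single_eq_of_ne h, smul_zero]
  refine L_sum hX hY hW' (fun a => pst (b a) (sg a) (esg a)) Finset.univ
    (fun a _ => L_pst (sg a) (esg a) hW' (hb a)) f (fun x y => ?_)
  funext j
  rw [hf, Finset.sum_apply, Finset.sum_eq_single j]
  · exact (Pi.single_eq_same (M := fun _ => W) j (b j x y)).symm
  · intro a _ ha
    exact Pi.single_eq_of_ne (M := fun _ => W) (Ne.symm ha) (b a x y)
  · intro h
    exact absurd (Finset.mem_univ j) h

/-- Factorisation of homomorphisms. -/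
theorem exists_lift {A B C : Type} [AddCommGroup A] [AddCommGroup B] [AddCommGroup C] (f : A →+ B)
    (hf : Function.Surjective f) (g : A →+ C) (h : ∀ a, f a = 0 → g a = 0) :
    ∃ k : B →+ C, ∀ a, k (f a) = g a := by
  have key : ∀ a a', f a = f a' → g a = g a' := by
    intro a a' e
    have := h (a - a') (by rw [map_sub, e, sub_self])
    rwa [map_sub, sub_eq_zero] at this
  refine ⟨AddMonoidHom.mk' (fun b => g (Function.surjInv hf b)) (fun b b' => ?_), fun a => ?_⟩
  · rw [← map_add]
    apply key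
    rw [map_add, Function.surjInv_eq hf, Function.surjInv_eq hf, Function.surjInv_eq hf]
  · apply key
    rw [Function.surjInv_eq hf]

end pi

end MAIN_

open MAIN_ in
/-- The main step. -/
theorem p_MAIN : T_MAIN := by
  intro H _ _ V W _ _ _ _ _ _ c p m hp hH hV hW WQ _ _ _ ψ cQ X hψs hψe hψi hcQ hL
  classical
  -- the forms
  let F : Fm V W := c.f
  let G : ∀ i, Fm V (WQ i) := fun i => (cQ i).f
  have hG : ∀ i x y, (G i).ap x y = ψ i (F.ap x y) := hcQ
  have hF : ∀ (h : H) x y, F.ap (h • x) (h • y) = h • F.ap x y := c.eq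
  have hGe : ∀ i (h : H) x y, (G i).ap (h • x) (h • y) = h • (G i).ap x y := fun i => (cQ i).eq
  have hle : ∀ i, bI H F ≤ bI H (G i) := by
    intro i s hs
    rw [mem_bI] at hs ⊢
    intro x y
    rw [actS_pst H V W s F (G i) (ψ i) (hG i), hs, map_zero]
  -- the ideals
  let I : Fin 3 → Ideal (T H F) := fun i => (bI H (G i)).map (tq H F)
  have hmem : ∀ i s, tq H F s ∈ I i ↔ s ∈ bI H (G i) := by
    intro i s
    rw [Ideal.mem_map_iff_of_surjective _ (tq_surj H F)]
    constructor
    · rintro ⟨t, ht, hts⟩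
      have h1 : s - t ∈ bI H F := by rw [← tq_eq_zero, map_sub, hts, sub_self]
      have h2 := (bI H (G i)).add_mem ht (hle i h1)
      rwa [add_sub_cancel] at h2
    · intro hs
      exact ⟨s, hs, rfl⟩
  have hinf : ∀ i j, i ≠ j → I i ⊓ I j = ⊥ := by
    intro i j hij
    rw [eq_bot_iff]
    rintro t ⟨h1, h2⟩
    obtain ⟨s, rfl⟩ := tq_surj H F t
    have h1' := (mem_bI H (G i) s).1 ((hmem i s).1 h1)
    have h2' := (mem_bI H (G j) s).1 ((hmem j s).1 h2)
    rw [Ideal.mem_bot, tq_eq_zero, mem_bI]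
    intro x y
    apply hψi i j hij
    · rw [← actS_pst H V W s F (G i) (ψ i) (hG i)]
      exact h1' x y
    · rw [← actS_pst H V W s F (G j) (ψ j) (hG j)]
      exact h2' x y
  -- ring theory
  have hHH : ¬ p ∣ Nat.card (H × H) := by
    rw [Nat.card_prod]
    intro h
    rcases (Nat.Prime.dvd_mul hp).1 h with h | h <;> exact hH h
  obtain ⟨q, hq, hx⟩ := p_FRZ (H × H) p hp hHH
  have h0 : (p : T H F) ^ m = 0 := by
    have e : (p : T H F) ^ m = tq H F ((p ^ m : ℕ) : MonoidAlgebra ℤ (H × H)) := by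
      rw [map_natCast, Nat.cast_pow]
    rw [e, tq_eq_zero, mem_bI]
    intro x y
    have h1 : ((p ^ m : ℕ) : MonoidAlgebra ℤ (H × H)) =
        ((p ^ m : ℕ) : ℤ) • MonoidAlgebra.of ℤ (H × H) 1 := by
      rw [map_one, zsmul_eq_mul, mul_one]
      push_cast
      rfl
    rw [h1, actS_smul, actS_of]
    change ((p ^ m : ℕ) : ℤ) • F.ap ((1 : H) • x) ((1 : H) • y) = 0
    rw [one_smul, one_smul, ← F.ap_zsmul_l, natCast_zsmul, hV]
    have := F.ap_zsmul_l 0 0 y
    rwa [zero_smul, zero_smul] at this
  have h1 : ∀ x : T H F, ∃ y, x ^ q - x = (p : T H F) * y := by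
    intro x
    obtain ⟨r, rfl⟩ := tq_surj H F x
    obtain ⟨y, hy⟩ := hx r
    refine ⟨tq H F y, ?_⟩
    rw [← map_pow, ← map_sub, hy, map_mul, map_natCast]
  have hmed : (I 0 ⊔ I 1) ⊓ (I 0 ⊔ I 2) ⊓ (I 1 ⊔ I 2) = ⊥ :=
    p_RING3 (T H F) p m q hp hq h0 h1 (I 0) (I 1) (I 2) (hinf 0 1 (by decide))
      (hinf 0 2 (by decide)) (hinf 1 2 (by decide))
  -- the cyclic module
  obtain ⟨l, hl, hle'⟩ := exists_l H V p m hp hH hV
  have hRb : ∀ i, MemA (X i) H (Rb H V) := fun i => memA_surj l hl hle' (memA_of_L (hL i)).1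
  let av : V → (Rb H V →+ V) := fun v => (AddMonoidHom.eval v).comp (rv H V).toAddMonoidHom
  have hav : ∀ v r, av v r = rv H V r v := fun _ _ => rfl
  have eav : ∀ v (k : H) r, av v (k • r) = k • av v r := fun v k r => rv_smul H V k r v
  -- the value of the element `e1 r * e2 s`
  have hev : ∀ (W' : Type) [AddCommGroup W'] [DistribMulAction H W'] (G' : Fm V W')
      (h : bI H F ≤ bI H G') (r s : Rb H V) (x y : V),
      (ev H F G' h (e1 H F r * e2 H F s)).ap x y = G'.ap (rv H V r x) (rv H V s y) := by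
    intro W' _ _ G' h r s x y
    obtain ⟨r, rfl⟩ := rb_surj H V r
    obtain ⟨s, rfl⟩ := rb_surj H V s
    rw [e1_rb, e2_rb, ← map_mul, ev_tq, actS_mul, actS_i1, actS_i2, rv_rb, rv_rb]
  -- equivariance of the evaluation
  have heq : ∀ (W' : Type) [AddCommGroup W'] [DistribMulAction H W'] (G' : Fm V W')
      (h : bI H F ≤ bI H G') (hG' : ∀ (k : H) x y, G'.ap (k • x) (k • y) = k • G'.ap x y)
      (k : H) (t : T H F) (x y : V),
      (ev H F G' h (tq H F (MonoidAlgebra.of ℤ (H × H) (k, k)) * t)).ap x y =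
        k • (ev H F G' h t).ap x y := by
    intro W' _ _ G' h hG' k t x y
    obtain ⟨s, rfl⟩ := tq_surj H F t
    rw [← map_mul, ev_tq, ev_tq, actS_mul, actS_of]
    exact actS_eqv H V W' s G' hG' k x y
  -- the universal forms of the ideals `I i`
  have hu : ∀ i, L (X i) (u H (I i)) := by
    intro i
    obtain ⟨hXV, _, hXW⟩ := memA_of_L (hL i)
    let big : Bil H (Rb H V) (Rb H V) (V × V → WQ i) :=
      Bil.mk' (fun r s a => cQ i (av a.1 r) (av a.2 s))
        (fun r r' s => by funext a; change cQ i (av a.1 (r + r')) _ = _; rw [map_add, (cQ i).add_l]; rfl)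
        (fun r s s' => by funext a; change cQ i _ (av a.2 (s + s')) = _; rw [map_add, (cQ i).add_r]; rfl)
        (fun k r s => by
          funext a
          change cQ i (av a.1 (k • r)) (av a.2 (k • s)) = k • cQ i (av a.1 r) (av a.2 s)
          rw [eav, eav, (cQ i).eqv])
    have hbig : L (X i) big := by
      refine L_pi (hRb i) (hRb i) hXW (fun a : V × V => cmp (cQ i) (av a.1) (av a.2) (eav a.1)
        (eav a.2)) (fun a => ?_) big (fun _ _ _ => rfl)
      exact L_cmp (av a.1) (av a.2) (eav a.1) (eav a.2) (fun _ _ => rfl) (hRb i) (hRb i) (hL i)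
    let φ : T H F →+ (V × V → WQ i) :=
      AddMonoidHom.mk' (fun t a => (ev H F (G i) (hle i) t).ap a.1 a.2) (fun t t' => by
        funext a
        change (ev H F (G i) (hle i) (t + t')).ap a.1 a.2 = _
        rw [map_add]
        rfl)
    obtain ⟨ι, hι⟩ := exists_lift (sq H (I i)).toAddMonoidHom (sq_surj H (I i)) φ (fun t ht => by
      have ht' : sq H (I i) t = 0 := ht
      rw [sq_eq_zero] at ht'
      obtain ⟨s, rfl⟩ := tq_surj H F t
      funext a
      exact (mem_bI H (G i) s).1 ((hmem i s).1 ht') a.1 a.2)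
    have hι' : ∀ t, ι (sq H (I i) t) = φ t := hι
    refine L_cod (f := big) ι ?_ ?_ ?_ hbig
    · rw [injective_iff_map_eq_zero]
      intro x hx'
      obtain ⟨t, rfl⟩ := sq_surj H (I i) x
      obtain ⟨s, rfl⟩ := tq_surj H F t
      rw [sq_eq_zero, hmem, mem_bI]
      intro x y
      rw [hι'] at hx'
      exact congrFun hx' (x, y)
    · intro k x
      obtain ⟨t, rfl⟩ := sq_surj H (I i) x
      rw [sq_smul, ← map_mul, hι', hι']
      funext a
      exact heq (WQ i) (G i) (hle i) (hGe i) k t a.1 a.2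
    · intro r s
      rw [u_apply, hι']
      funext a
      exact hev (WQ i) (G i) (hle i) r s a.1 a.2
  have hu2 : ∀ i j, L (X i ⊓ X j) (u H (I i ⊔ I j)) := fun i j =>
    ⟨u_mono H (I i) _ le_sup_left (hu i), u_mono H (I j) _ le_sup_right (hu j)⟩
  set J : Formation := (X 0 ⊓ X 1) ⊔ (X 0 ⊓ X 2) ⊔ (X 1 ⊓ X 2) with hJ
  have h01 : L J (u H (I 0 ⊔ I 1)) :=
    (le_sup_left.trans le_sup_left : X 0 ⊓ X 1 ≤ J) _ (hu2 0 1)
  have h02 : L J (u H (I 0 ⊔ I 2)) :=
    (le_sup_right.trans le_sup_left : X 0 ⊓ X 2 ≤ J) _ (hu2 0 2)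
  have h12 : L J (u H (I 1 ⊔ I 2)) := (le_sup_right : X 1 ⊓ X 2 ≤ J) _ (hu2 1 2)
  have hbot : L J (u H (⊥ : Ideal (T H F))) := by
    have := u_inf H _ _ (u_inf H _ _ h01 h02) h12
    exact u_mono H _ _ hmed.le this
  obtain ⟨hJR, _, hJS⟩ := memA_of_L hbot
  -- the evaluations on `SQ ⊥`
  have hγ : ∀ x y : V, ∃ γ : SQ H (⊥ : Ideal (T H F)) →+ W,
      (∀ t, γ (sq H ⊥ t) = (ev H F F le_rfl t).ap x y) ∧
      ∀ (k : H) t, γ (k • t) = k • γ t := by
    intro x y
    let φ : T H F →+ W := AddMonoidHom.mk' (fun t => (ev H F F le_rfl t).ap x y) (fun t t' => by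
      change (ev H F F le_rfl (t + t')).ap x y = _
      rw [map_add]
      rfl)
    obtain ⟨γ, hγ⟩ := exists_lift (sq H (⊥ : Ideal (T H F))).toAddMonoidHom (sq_surj H _) φ
      (fun t ht => by
        have ht' : sq H ⊥ t = 0 := ht
        rw [sq_eq_zero, Ideal.mem_bot] at ht'
        rw [ht', map_zero])
    have hγ' : ∀ t, γ (sq H ⊥ t) = φ t := hγ
    refine ⟨γ, hγ', fun k t => ?_⟩
    obtain ⟨t, rfl⟩ := sq_surj H _ t
    rw [sq_smul, ← map_mul, hγ', hγ']
    exact heq W F le_rfl hF k t x y
  choose γ hγ1 hγ2 using hγ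
  have := Fintype.ofFinite V
  -- `W` is in `J`
  have hJW : MemA J H W := by
    have hpi : MemA J H (V × V → SQ H (⊥ : Ideal (T H F))) := memA_pi (V × V) hJS
    let Γ : (V × V → SQ H (⊥ : Ideal (T H F))) →+ W :=
      AddMonoidHom.mk' (fun f => ∑ a : V × V, γ a.1 a.2 (f a)) (fun f g => by
        rw [← Finset.sum_add_distrib]
        exact Finset.sum_congr rfl fun a _ => map_add _ _ _)
    refine memA_surj Γ ?_ ?_ hpi
    · have hr : Γ.range = ⊤ := by
        rw [eq_top_iff, ← hW, AddSubgroup.closure_le]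
        rintro w ⟨x, y, rfl⟩
        refine ⟨Pi.single (x, y) 1, ?_⟩
        change ∑ a : V × V, γ a.1 a.2 ((Pi.single (x, y) 1 : V × V → SQ H ⊥) a) = c x y
        rw [Finset.sum_eq_single (x, y)]
        · rw [Pi.single_eq_same, ← map_one (sq H (⊥ : Ideal (T H F))), hγ1]
          have h3 := hev W F le_rfl 1 1 x y
          rw [map_one (e1 H F), map_one (e2 H F), mul_one, map_one (rv H V)] at h3
          exact h3
        · intro a _ ha
          rw [Pi.single_eq_of_ne ha, map_zero]
        · intro h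
          exact absurd (Finset.mem_univ _) h
      intro w
      have : w ∈ Γ.range := by rw [hr]; trivial
      exact this
    · intro k f
      change ∑ a : V × V, γ a.1 a.2 (k • f a) = k • ∑ a : V × V, γ a.1 a.2 (f a)
      rw [Finset.smul_sum]
      exact Finset.sum_congr rfl fun a _ => hγ2 a.1 a.2 k (f a)
  -- the pull-back to free modules
  have hJF : MemA J H (V → Rb H V) := memA_pi V hJR
  let pj : V → ((V → Rb H V) →+ Rb H V) := fun v => Pi.evalAddMonoidHom (fun _ => Rb H V) v
  have epj : ∀ v (k : H) f, pj v (k • f) = k • pj v f := fun _ _ _ => rfl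
  let π : (V → Rb H V) →+ V := AddMonoidHom.mk' (fun f => ∑ v : V, av v (f v)) (fun f g => by
    rw [← Finset.sum_add_distrib]
    exact Finset.sum_congr rfl fun a _ => map_add _ _ _)
  have hπ : ∀ f, π f = ∑ v : V, av v (f v) := fun _ => rfl
  have eπ : ∀ (k : H) f, π (k • f) = k • π f := by
    intro k f
    rw [hπ, hπ, Finset.smul_sum]
    exact Finset.sum_congr rfl fun a _ => eav a k (f a)
  have sπ : Function.Surjective π := by
    intro v
    refine ⟨Pi.single v 1, ?_⟩
    rw [hπ, Finset.sum_eq_single v]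
    · rw [Pi.single_eq_same, hav, map_one]
      rfl
    · intro a _ ha
      rw [Pi.single_eq_of_ne ha, map_zero]
    · intro h
      exact absurd (Finset.mem_univ _) h
  let b₀ : V × V → Bil H (Rb H V) (Rb H V) W := fun a =>
    cmp c (av a.1) (av a.2) (eav a.1) (eav a.2)
  have hb₀ : ∀ a, L J (b₀ a) := by
    intro a
    refine L_ext (g := u H (⊥ : Ideal (T H F))) (γ a.1 a.2) (hγ2 a.1 a.2) (fun r s => ?_) hJW hbot
    rw [u_apply, hγ1]
    exact hev W F le_rfl r s a.1 a.2
  have hb : ∀ a, L J (cmp (b₀ a) (pj a.1) (pj a.2) (epj a.1) (epj a.2)) := fun a =>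
    L_cmp (pj a.1) (pj a.2) (epj a.1) (epj a.2) (fun _ _ => rfl) hJF hJF (hb₀ a)
  have hB : L J (cmp c π π eπ eπ) := by
    refine L_sum hJF hJF hJW (fun a : V × V => cmp (b₀ a) (pj a.1) (pj a.2) (epj a.1) (epj a.2))
      Finset.univ (fun a _ => hb a) _ (fun f g => ?_)
    change c (π f) (π g) = ∑ a : V × V, c (av a.1 (f a.1)) (av a.2 (g a.2))
    rw [hπ, hπ, Fintype.sum_prod_type]
    change (c.f (∑ v : V, av v (f v))) (∑ v : V, av v (g v)) = _
    have e : c.f (∑ v : V, av v (f v)) = ∑ v : V, c.f (av v (f v)) := map_sum _ _ _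
    rw [e, AddMonoidHom.finsetSum_apply]
    refine Finset.sum_congr rfl fun v _ => ?_
    rw [map_sum]
  exact L_sur π π (AddMonoidHom.id W) sπ sπ Function.surjective_id eπ eπ (fun _ _ => rfl)
    (fun _ _ => rfl) hB

end Pool.Agent.Fcl2
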