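import Pool.Agent.Fcl2.U

/-!
# Groups with nilpotent derived subgroup
-/

set_option autoImplicit false
set_option linter.unusedVariables false

namespace Pool.Agent.Fcl2

open U_

/-- If the derived subgroup of `G` is nilpotent then, for every prime `p`, there is a normal subgroup
`K` of order prime to `p` such that the derived subgroup is a `p`-group modulo `K`. -/
theorem exists_K {G : Type} [Group G] [Finite G] (hnil : Group.IsNilpotent (commutator G)) (p : ℕ)
    (hp : p.Prime) : ∃ K : Subgroup G, K.Normal ∧ ¬ p ∣ Nat.card K ∧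
      ∀ x ∈ commutator G, ∃ k : ℕ, x ^ p ^ k ∈ K := by
  have hFp : Fact p.Prime := ⟨hp⟩
  let K : Subgroup G :=
    { carrier := {x | x ∈ commutator G ∧ (orderOf x).Coprime p}
      one_mem' := ⟨Subgroup.one_mem _, by rw [orderOf_one]; exact Nat.coprime_one_left p⟩
      mul_mem' := by
        rintro x y ⟨hx, hx'⟩ ⟨hy, hy'⟩
        refine ⟨Subgroup.mul_mem _ hx hy, ?_⟩
        have h1 := coprime_mul hp (⟨x, hx⟩ : commutator G) ⟨y, hy⟩
          (by rw [Subgroup.orderOf_mk]; exact hx') (by rw [Subgroup.orderOf_mk]; exact hy')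
        rw [← Subgroup.orderOf_coe] at h1
        exact h1
      inv_mem' := by
        rintro x ⟨hx, hx'⟩
        exact ⟨Subgroup.inv_mem _ hx, by rw [orderOf_inv]; exact hx'⟩ }
  refine ⟨K, ⟨?_⟩, ?_, ?_⟩
  · rintro x ⟨hx, hx'⟩ g
    have hD : (commutator G).Normal := inferInstance
    refine ⟨hD.conj_mem x hx g, ?_⟩
    have h1 : orderOf (g * x * g⁻¹) = orderOf x :=
      orderOf_injective (MulAut.conj g).toMonoidHom (MulAut.conj g).injective x
    rw [h1]
    exact hx'
  · intro hdvd
    obtain ⟨x, hx⟩ := exists_prime_orderOf_dvd_card' p hdvd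
    have h1 := x.2.2
    rw [Subgroup.orderOf_coe, hx, Nat.coprime_self] at h1
    exact hp.one_lt.ne' h1
  · intro x hx
    obtain ⟨k, m, hm, hk⟩ := Nat.exists_eq_pow_mul_and_not_dvd (orderOf_pos x).ne' p hp.one_lt.ne'
    refine ⟨k, Subgroup.pow_mem _ hx _, ?_⟩
    rw [orderOf_pow_of_dvd (pow_pos hp.pos k).ne' (by rw [hk]; exact dvd_mul_right _ _), hk,
      Nat.mul_div_cancel_left _ (pow_pos hp.pos k)]
    exact ((Nat.Prime.coprime_iff_not_dvd hp).mpr hm).symm

end Pool.Agent.Fcl2
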