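import Pool.Agent.Fcl2.Core

/-!
# Targets of project FC2 (MP_3bd419_al, row 4326)

Each `T_XYZ` is proved in its own file `Pool/Agent/Fcl2/XYZ.lean` as a theorem
`Pool.Agent.Fcl2.p_XYZ : T_XYZ` (several names in one file if the job says so), auxiliary lemmas in
the namespace `Pool.Agent.Fcl2.XYZ_`. All facts of `Pool/Agent/Formn` may be used.
-/

set_option autoImplicit false

namespace Pool.Agent.Fcl2

open Pool.Agent.Formn

/-! ## RING: rings in which `x ^ q ≡ x` modulo `p`, `p` nilpotent -/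

/-- Downward induction on `k ≤ m` for `x, y ∈ p ^ k R`: `x = p ^ k x'`, `y = p ^ k y'`. With
`t = x' ^ (q - 1)` one has `t x' ≡ x'` and `t ^ 2 ≡ t` modulo `p`; `e = t ^ (p ^ m)` is idempotent
(`dvd_sub_pow_of_dvd_sub`, `p ^ (m+1) ∣ (t^2)^(p^m) - t^(p^m)`), `x' ∣ e`, `e x' ≡ x'` modulo `p`.
The same with `f` for `y'`. Put `g = (1 - e) (1 - f)`; `g x, g y ∈ p ^ (k+1) R`, take the idempotent
`a'` for them, `a = e + g a'`, `1 - a = (1 - e) f + g (1 - a')`. -/
def T_RING1 : Prop := ∀ (R : Type) [CommRing R] (p m q : ℕ), p.Prime → 2 ≤ q → (p : R) ^ m = 0 →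
  (∀ x : R, ∃ y, x ^ q - x = p * y) →
  ∀ x y : R, ∃ a : R, a * a = a ∧ x ∣ a * y ∧ y ∣ (1 - a) * x

/-- `(x, y) = (a x + (1 - a) y)`, so all ideals of the finite ring `R` are principal. -/
def T_RING2 : Prop := ∀ (R : Type) [CommRing R] [Finite R] (p m q : ℕ), p.Prime → 2 ≤ q →
  (p : R) ^ m = 0 → (∀ x : R, ∃ y, x ^ q - x = p * y) →
  ∀ I J : Ideal R, ∃ a : R, a * a = a ∧ (∀ x ∈ J, a * x ∈ I) ∧ (∀ x ∈ I, (1 - a) * x ∈ J)

/-- If `I ∩ J = 0` then `a J = 0`, `(1 - a) I = 0`. With `a₁₂, a₁₃, a₂₃` the element `1` is a sum of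
products which annihilate two of the three ideals. -/
def T_RING3 : Prop := ∀ (R : Type) [CommRing R] [Finite R] (p m q : ℕ), p.Prime → 2 ≤ q →
  (p : R) ^ m = 0 → (∀ x : R, ∃ y, x ^ q - x = p * y) →
  ∀ I₁ I₂ I₃ : Ideal R, I₁ ⊓ I₂ = ⊥ → I₁ ⊓ I₃ = ⊥ → I₂ ⊓ I₃ = ⊥ →
    (I₁ ⊔ I₂) ⊓ (I₁ ⊔ I₃) ⊓ (I₂ ⊔ I₃) = ⊥

/-- Cyclic vector: for `v, w` in a finite module `M` take `a` as in `T_RING2` for the annihilators;
`u = (1 - a) v + a w` or `a v + (1 - a) w` has the annihilator `Ann v ∩ Ann w`; so there is `u` with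
`Ann u = Ann M`. Apply this to `V` (`u`) and to the dual `R^ = Hom (R, ℚ/ℤ)` (`CharacterModule R`,
faithful since characters separate points), `μ`: `r ↦ r μ` is injective `R → R^`, hence bijective
(`|R^| ≤ |R|`, to be proved by induction or with `AddChar`). The character `r u ↦ μ r` of `R u ⊆ V`
extends to `ν : V → ℚ/ℤ` (`CharacterModule.dual_surjective_of_injective`), and `v ↦ (r ↦ ν (r v))`
is a surjection `V → R^ ≅ R`. Another proof is fine as well. -/
def T_RING4 : Prop := ∀ (R : Type) [CommRing R] [Finite R] (p m q : ℕ), p.Prime → 2 ≤ q →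
  (p : R) ^ m = 0 → (∀ x : R, ∃ y, x ^ q - x = p * y) →
  ∀ (V : Type) [AddCommGroup V] [Finite V] [Module R V], (∀ r : R, (∀ v : V, r • v = 0) → r = 0) →
    ∃ l : V →ₗ[R] R, Function.Surjective l

/-- `q = p ^ k` with `k ≥ 1` and `p ^ k ≡ 1` modulo the exponent of `G`. Modulo `p` the map
`x ↦ x ^ q` is a ring homomorphism (`iterateFrobenius`) which fixes the integers and `G`. -/
def T_FRZ : Prop := ∀ (G : Type) [CommGroup G] [Finite G] (p : ℕ), p.Prime → ¬ p ∣ Nat.card G →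
  ∃ q : ℕ, 2 ≤ q ∧ ∀ x : MonoidAlgebra ℤ G, ∃ y, x ^ q - x = (p : MonoidAlgebra ℤ G) * y

/-! ## AB: the abelian part -/

/-- `G = E H M`. All groups of the formation `gen G` have abelian Sylow subgroups (the groups with
abelian Sylow subgroups form a formation; `G` is one of them: a Sylow `q`-subgroup lies in the
normal Hall subgroup `M` if `q ∣ |M|`, and embeds into `H` otherwise), so by
`Pool.Agent.Results.MP_3bd419_al.AbelianSylow.result` (better: `crit_iff` and `AbSyl.crit_of`) the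
lattice of subformations of `gen G` is distributive. Put `Y i = gen (E H (Q i)) ≤ X i`; these are
`≤ gen G` and `Y i ⊔ Y j = gen G` for `i ≠ j` (subdirect product); in a distributive lattice the two
median terms are equal. -/
def T_AB : Prop := ∀ (H : Type) [CommGroup H] [Finite H] (M : Type) [Group M] [Finite M]
  [MulDistribMulAction H M] (Q : Fin 3 → Type) [∀ i, Group (Q i)] [∀ i, Finite (Q i)]
  [∀ i, MulDistribMulAction H (Q i)] (q : ∀ i, M →* Q i) (X : Fin 3 → Formation),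
  (∀ x y : M, x * y = y * x) → Nat.Coprime (Nat.card M) (Nat.card H) →
  (∀ i, Function.Surjective (q i)) → (∀ i (h : H) (x : M), q i (h • x) = h • q i x) →
  (∀ i j, i ≠ j → ∀ x, q i x = 1 → q j x = 1 → x = 1) → (∀ i, MemH (X i) H (Q i)) →
  MemH ((X 0 ⊓ X 1) ⊔ (X 0 ⊓ X 2) ⊔ (X 1 ⊓ X 2)) H M

/-! ## FAC: the central series of length two -/

/-- `M = P' K₀ K₁ K₂` with `K i = ker (q i)`, `V = P / M` (abelian, in additive notation), `W = P'`,
`WQ i = (Q i)' = q i (P')`; `M` is central. -/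
def T_FAC : Prop := ∀ (H : Type) [CommGroup H] [Finite H] (P : Type) [Group P] [Finite P]
  [MulDistribMulAction H P] (Q : Fin 3 → Type) [∀ i, Group (Q i)] [∀ i, Finite (Q i)]
  [∀ i, MulDistribMulAction H (Q i)] (q : ∀ i, P →* Q i),
  (∀ i, Function.Surjective (q i)) → (∀ i (h : H) (x : P), q i (h • x) = h • q i x) →
  (∀ i x, q i x = 1 → ∀ y, x * y = y * x) →
  (∀ x y z : P, x * y * x⁻¹ * y⁻¹ * z = z * (x * y * x⁻¹ * y⁻¹)) →
  ∃ (V : Type) (_ : AddCommGroup V) (_ : Finite V) (_ : DistribMulAction H V)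
    (W : Type) (_ : AddCommGroup W) (_ : Finite W) (_ : DistribMulAction H W)
    (WQ : Fin 3 → Type) (_ : ∀ i, AddCommGroup (WQ i)) (_ : ∀ i, Finite (WQ i))
    (_ : ∀ i, DistribMulAction H (WQ i))
    (F : Fac H P V W) (G : ∀ i, Fac H (Q i) V (WQ i)) (ψ : ∀ i, W →+ WQ i),
    (∀ i, Function.Surjective (ψ i)) ∧ (∀ i (h : H) (w : W), ψ i (h • w) = h • ψ i w) ∧
    (∀ i (w : W), q i (F.j (Multiplicative.ofAdd w)) = (G i).j (Multiplicative.ofAdd (ψ i w))) ∧
    (∀ i (x : P), (G i).π (q i x) = F.π x) ∧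
    (∀ i (x y : V), (G i).c x y = ψ i (F.c x y)) ∧
    (∀ x : V, F.c x x = 0) ∧
    AddSubgroup.closure {w : W | ∃ x y : V, w = F.c x y} = ⊤

/-! ## U: supersoluble groups -/

/-- `UC p c` is preserved by surjective homomorphisms (`Sylow.mapSurjective` or the like). -/
def T_UQ : Prop := ∀ (p c : ℕ), p.Prime → ∀ (G G' : Type) [Group G] [Finite G] [Group G']
  [Finite G'] (f : G →* G'), Function.Surjective f → UC p c G → UC p c G'

/-- and by subdirect products. -/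
def T_US : Prop := ∀ (p c : ℕ), p.Prime → ∀ (G G₁ G₂ : Type) [Group G] [Finite G] [Group G₁]
  [Finite G₁] [Group G₂] [Finite G₂] (f₁ : G →* G₁) (f₂ : G →* G₂), Function.Surjective f₁ →
  Function.Surjective f₂ → (∀ x, f₁ x = 1 → f₂ x = 1 → x = 1) → UC p c G₁ → UC p c G₂ → UC p c G

/-- The derived subgroup of a supersoluble group is nilpotent (it centralises the factors of the
series), and a group `G` with nilpotent derived subgroup has a normal `p'`-subgroup `K` such that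
`G'K/K` is a `p`-group: take `K` of maximal order; in `G/K` the Sylow `r`-subgroups, `r ≠ p`, of the
derived subgroup are normal, hence trivial. -/
def T_SS : Prop := ∀ (G : Type) [Group G] [Finite G], Supersol G → ∀ p : ℕ, p.Prime →
  ∃ K : Subgroup G, K.Normal ∧ ¬ p ∣ Nat.card K ∧ ∀ x ∈ commutator G, ∃ k : ℕ, x ^ p ^ k ∈ K

/-! ## Y: the obstruction -/

/-- Let `p ≥ 5`, `ζ` a generator of `(ZMod p)ˣ`. `Y = {(t, x, y, z, a₁₃, a₂₄, a₁₄, b₁₃, b₂₄, b₁₄)}`:
pairs of upper triangular `4 × 4` matrices over `ZMod p`, the first with diagonal `(t³, t³, t², 1)`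
and entries (up to diagonal factors) `x, y, z` above the diagonal, the second with diagonal
`(t³, t³, t, 1)` and entries `x, z, y`: `t` acts on `x, y, z` with the weights `0, 1, 2`.
`L = {t = 1}` is the normal Sylow `p`-subgroup, of class `3`. For `t, g ∈ Y` and `a ∈ {0, 1, 2}` let
`π a t g = ∏_{j < p-1} t^j g^(c_j) t^(-j)` with integers `c_j ≡ ζ^(-a j)` modulo `p` (up to the sign
of the exponent, depending on conventions), `c_j ≡ 0` modulo `p - 1`: this is in `L`, and modulo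
`L'` it is the projection of some element of `L` to the part where `t` acts as `ζ^a`. Put
`u₁ = [[π 0 t x, π 1 t y], π 2 t z]`, `u₂ = [[π 0 t x, π 2 t z], π 1 t y]` (words in `t, x, y, z`).
If `t` does not act as `ζ` on `y` then `π 1 t y ∈ L'` and `u₁ = u₂ = 1`; otherwise
`u₁ = (1 + k E₁₄, 1)`, `u₂ = (1, 1 + k E₁₄)` with the same `k`, for suitable `x, y, z` `k ≠ 0`.
`N₁ = {(1 + a E₁₄, 1)}`, `N₂ = {(1, 1 + a E₁₄)}`, `N₃ = {(1 + a E₁₄, 1 + a E₁₄)}`: the laws `u₁ = 1`,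
`u₂ = 1`, `u₁ u₂ = 1` hold in `Y/N₁`, `Y/N₂`, `Y/N₃`. The classes `X₁, X₂, X₃` of the groups with
these laws are formations, `Xᵢ ∩ Xⱼ` is in the formation `Z` with `u₁ = u₂ = 1`, and `Y/N₃ ∉ Z`. But
`gen (Y/N₃) ≤ gen (Y/N₁) ⊔ gen (Y/N₂)`, all three in `F`; if `L(F)` is distributive then
`gen (Y/N₃) = (gen (Y/N₃) ⊓ gen (Y/N₁)) ⊔ (gen (Y/N₃) ⊓ gen (Y/N₂)) ≤ Z`. (Compare
`Pool/Agent/FormZ`, `obstruction`. Any other supersoluble group with Sylow `p`-subgroups of class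
`3` and the same property is fine.) -/
def T_Y : Prop := ∀ p : ℕ, p.Prime → 5 ≤ p → ∃ (Y : Type) (_ : Group Y) (_ : Finite Y), UC p 3 Y ∧
  ∀ F : Formation, F.mem Y → ¬ ∀ x y z : Set.Iic F, x ⊓ (y ⊔ z) = (x ⊓ y) ⊔ (x ⊓ z)

/-! ## Biadditive maps and formations -/

/-- The main step. -/
def T_MAIN : Prop := ∀ (H : Type) [CommGroup H] [Finite H] (V W : Type)
  [AddCommGroup V] [AddCommGroup W] [Finite V] [Finite W] [DistribMulAction H V]
  [DistribMulAction H W] (c : Bil H V V W) (p m : ℕ), p.Prime → ¬ p ∣ Nat.card H →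
  (∀ v : V, p ^ m • v = 0) → AddSubgroup.closure {w : W | ∃ x y : V, w = c x y} = ⊤ →
  ∀ (WQ : Fin 3 → Type) [∀ i, AddCommGroup (WQ i)] [∀ i, Finite (WQ i)]
  [∀ i, DistribMulAction H (WQ i)] (ψ : ∀ i, W →+ WQ i) (cQ : ∀ i, Bil H V V (WQ i))
  (X : Fin 3 → Formation),
  (∀ i, Function.Surjective (ψ i)) → (∀ i (h : H) (w : W), ψ i (h • w) = h • ψ i w) →
  (∀ i j, i ≠ j → ∀ w, ψ i w = 0 → ψ j w = 0 → w = 0) → (∀ i x y, cQ i x y = ψ i (c x y)) →
  (∀ i, L (X i) (cQ i)) → L ((X 0 ⊓ X 1) ⊔ (X 0 ⊓ X 2) ⊔ (X 1 ⊓ X 2)) c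

end Pool.Agent.Fcl2
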